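import Pool.Agent.Helper10.Q46.LinesE
import Pool.Agent.Helper74.Q8.AnnPt6

/-!
# Q46-ANNPTE: the annihilator of a rational functional on forms of degree 5

`A = {m | f(C m) = 0 for all C}` is a linear subspace; `f(C lf m) = ∑ m_j f(C X_j)`, for monomials
`C` a linear system over `B`: by `ker_rat` `A` is spanned by its rational elements. It contains `k_i`
and `l'`. If all rational elements of `A` are orthogonal to `x`, then (as `l'` is in their span, not
in the span of `k`) three of them are independent: `three_lineE`. Otherwise let `m0 ∈ A` be rational,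
`m0 . x ≠ 0`; `l'` is not in the span of `k, m0` (evaluate at `x`), so there is a rational `m1 ∈ A`
such that `k, m0, m1` are independent (dimension 4); let `z ≠ 0` be a rational common zero of these
(`ker_rat`). `f ≠ 0` and `hf5` imply `A ≠ everything`, so `A = z^⊥`, `dt l' z = 0`. A form of degree 5
with `P(z) = 0` is a combination `∑ C_i lf(m_i)` with `m_i . z = 0` (choose `j` with `z_j ≠ 0`:
modulo these, `X_i = (z_i / z_j) X_j`), so `f(P) = 0`. Compare `Helper6/QS/AnnPt.lean`,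
`Helper74/Q8/AnnPt6.lean`.
-/

set_option autoImplicit false

namespace Pool.Agent.Helper10.Q46

open scoped BigOperators
open MvPolynomial
open Pool.Agent.Helper8.LG (Bdd form mon)
open Pool.Agent.Helper49.LN (cP mo hf pl)
open Pool.Agent.Helper6.QS
open Pool.Agent.Helper74.Q8 (dl rr AnnPt6_A AnnPt6_mem AnnPt6_lam AnnPt6_ort AnnPt6_zero AnnPt6_concl
  AnnPt6_dt_add_left AnnPt6_dt_smul_left)

variable {Ω : Type*} [Field Ω] [CharZero Ω] {q : ℕ}
  {D : Option (Sym (Fin 5) q) → Derivation ℤ Ω Ω} {a : Sym (Fin 5) q → Ω} {B : Subfield Ω}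
  {x e n : Fin 5 → Ω}

theorem ann_ptE {k : Fin 2 → Fin 5 → Ω} {l : Fin 2 → Fin 5 → Ω} (pl : PlE D a B x e n k l)
    (l' : Fin 5 → Ω) (hl' : dt l' x = 0) (hk : l' ∉ Submodule.span Ω (Set.range k))
    (f : MvPolynomial (Fin 5) Ω →ₗ[Ω] Ω) (hf0 : f ≠ 0) (hfB : ∀ P, RatP B P → f P ∈ B)
    (hf5 : ∀ P, f P = f (homogeneousComponent 5 P)) (fk : ∀ C i, f (C * lf (k i)) = 0)
    (fl : ∀ C, f (C * lf l') = 0) :
    (∀ i, x i ∈ B) ∨ ∃ z : Fin 5 → Ω, (∀ i, z i ∈ B) ∧ z ≠ 0 ∧ (∀ i, dt (k i) z = 0) ∧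
      dt l' z = 0 ∧ ∀ P, eval z (homogeneousComponent 5 P) = 0 → f P = 0 := by
  classical
  have hA1 : l' ∈ AnnPt6_A f := fl
  have hkind : LinearIndependent Ω k := by
    have h1 := pl.ind.comp Sum.inl Sum.inl_injective
    exact h1
  have hkA : ∀ i, k i ∈ AnnPt6_A f := fun i C => fk C i
  -- a first vector
  obtain ⟨lam, hm⟩ : ∃ lam : Ω →ₗ[B] B,
      (fun i => ((lam (l' i) : B) : Ω)) ∉ Submodule.span Ω (Set.range k) := by
    by_contra hcon
    push Not at hcon
    exact hk (AnnPt6_mem _ l' hcon)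
  set m : Fin 5 → Ω := fun i => ((lam (l' i) : B) : Ω) with hmdef
  have hmB : ∀ i, m i ∈ B := fun i => (lam (l' i)).2
  have hmA : m ∈ AnnPt6_A f := AnnPt6_lam f hfB l' hA1 lam
  have hli : LinearIndependent Ω (Matrix.vecCons m k) := linearIndependent_finCons.2 ⟨hkind, hm⟩
  have hliB : ∀ i j, (Matrix.vecCons m k) i j ∈ B := by
    intro i j
    refine Fin.cases ?_ (fun i => ?_) i
    · exact hmB j
    · exact pl.kB i j
  by_cases hmx : dt m x = 0
  · left
    refine three_lineE pl.pt (Matrix.vecCons m k) hliB ?_ hli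
    intro i
    refine Fin.cases ?_ (fun i => ?_) i
    · exact hmx
    · exact pl.kx i
  right
  -- a second vector
  obtain ⟨lam', hm'⟩ : ∃ lam' : Ω →ₗ[B] B,
      (fun i => ((lam' (l' i) : B) : Ω)) ∉ Submodule.span Ω (Set.range (Matrix.vecCons m k)) := by
    by_contra hcon
    push Not at hcon
    have h0 := AnnPt6_mem _ l' hcon
    rw [Matrix.range_cons, Set.singleton_union, Submodule.mem_span_insert] at h0
    obtain ⟨β, y, hy, hab⟩ := h0
    have hyx : dt y x = 0 := by
      have h2 : y ∈ (AnnPt6_ort x).ker := by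
        refine (Submodule.span_le.2 ?_) hy
        rintro _ ⟨i, rfl⟩
        exact pl.kx i
      exact h2
    have h1 : dt l' x = β * dt m x := by
      rw [hab, AnnPt6_dt_add_left, AnnPt6_dt_smul_left, hyx, add_zero]
    rw [hl'] at h1
    have h2 : β = 0 := (mul_eq_zero.1 h1.symm).resolve_right hmx
    rw [h2, zero_smul, zero_add] at hab
    exact hk (hab ▸ hy)
  set m' : Fin 5 → Ω := fun i => ((lam' (l' i) : B) : Ω) with hm'def
  have hm'B : ∀ i, m' i ∈ B := fun i => (lam' (l' i)).2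
  have hm'A : m' ∈ AnnPt6_A f := AnnPt6_lam f hfB l' hA1 lam'
  have hli4 : LinearIndependent Ω (Matrix.vecCons m' (Matrix.vecCons m k)) :=
    linearIndependent_finCons.2 ⟨hli, hm'⟩
  have hB4 : ∀ i j, (Matrix.vecCons m' (Matrix.vecCons m k)) i j ∈ B := by
    intro i j
    refine Fin.cases ?_ (fun i => ?_) i
    · exact hm'B j
    · exact hliB i j
  have hA4 : ∀ i, (Matrix.vecCons m' (Matrix.vecCons m k)) i ∈ AnnPt6_A f := by
    intro i
    refine Fin.cases ?_ (fun i => ?_) i
    · exact hm'A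
    · refine Fin.cases ?_ (fun i => ?_) i
      · exact hmA
      · exact hkA i
  obtain ⟨z, hzB, hz0, hz⟩ := AnnPt6_zero (Matrix.vecCons m' (Matrix.vecCons m k)) hB4
    (by rw [Fintype.card_fin, Fintype.card_fin]; norm_num)
  obtain ⟨h1, h2⟩ := AnnPt6_concl f hf0 (d := 4) hf5 (Matrix.vecCons m' (Matrix.vecCons m k)) hli4
    (by rw [Fintype.card_fin, Fintype.card_fin]) hA4 z hz0 hz
  exact ⟨z, hzB, hz0, fun i => h1 _ (hkA i), h1 _ hA1, h2⟩

end Pool.Agent.Helper10.Q46
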