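import Pool.Agent.Helper8.LG.Reduce
import Pool.Agent.Helper6.QS.Der

/-!
# Q46-BASISE: one more derivation

`der_alg`: `p(z) = 0`, `p` the minimal polynomial of `z` over `E₀`, gives `p'(z) δ z = 0`, `p'(z) ≠ 0`.
`basis_e`: as in `red_extend` (`Helper8/LG/Reduce.lean`) extend `v` to a transcendence basis of `L`
over `k₀`; it is finite as `L` is finitely generated (`hfg`; `X` is finite); let `s` be the set of the
new elements. `red_exists_der` (over `k₀`, the family `v` and the new elements) gives derivations
`E_J` (`J : X`) and `E_u` (`u ∈ s`) over `k₀` dual to the basis. `k_u = k₀(s \ {u})`,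
`D_u none = E_u`, `D_u (some J) = E_J`: these kill `k_u` (`rg_kill` in `Helper8/LG/Rigid.lean` or
`IntermediateField.adjoin_induction`). Independence and finiteness: as in `red_extend`.
Last property: if `z` is transcendental over `k₀(v)`, `exists_der` (`Helper6/QS/Der.lean`) gives a
derivation `δ` over `k₀(v)` with `δ z ≠ 0`. `δ' = δ - ∑_u δ(u) E_u` kills `k₀`, the `v_J` and the
`u ∈ s`, so it kills everything algebraic over `k₀(v, s)` (`der_alg`), that is `L`. So
`δ z = ∑_u δ(u) E_u z = 0`, a contradiction.
-/

set_option autoImplicit false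

namespace Pool.Agent.Helper10.Q46

open scoped BigOperators

theorem der_alg {L : Type*} [Field L] [CharZero L] (δ : Derivation ℤ L L) (E₀ : Subfield L)
    (h : ∀ z ∈ E₀, δ z = 0) (z : L) (hz : IsAlgebraic E₀ z) : δ z = 0 := by
  have hlin : ∀ (c : E₀) (x : L), δ (c • x) = c • δ x := by
    intro c x
    change δ ((c : L) * x) = (c : L) * δ x
    rw [δ.leibniz, smul_eq_mul, smul_eq_mul, h _ c.2, mul_zero, add_zero]
  let D : Derivation E₀ L L :=
    { toFun := δ
      map_add' := fun x y => map_add δ x y
      map_smul' := fun c x => hlin c x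
      map_one_eq_zero' := δ.map_one_eq_zero
      leibniz' := fun x y => δ.leibniz x y }
  have hD : ∀ x, D x = δ x := fun x => rfl
  have hint : IsIntegral E₀ z := hz.isIntegral
  have h1 := D.map_aeval (minpoly E₀ z) z
  rw [minpoly.aeval, map_zero, smul_eq_mul] at h1
  have hsep : (minpoly E₀ z).Separable := (minpoly.irreducible hint).separable
  have h2 : Polynomial.aeval z (Polynomial.derivative (minpoly E₀ z)) ≠ 0 :=
    hsep.aeval_derivative_ne_zero (minpoly.aeval E₀ z)
  rcases mul_eq_zero.1 h1.symm with h3 | h3
  · exact absurd h3 h2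
  · rw [hD] at h3
    exact h3

/-- extension of the field of constants, inside a given transcendence basis -/
theorem basisE_ext {k₀ L Y : Type*} [Field k₀] [Field L] [Algebra k₀ L]
    (hfg : (⊤ : IntermediateField k₀ L).FG) (t : Set L)
    (hb : IsTranscendenceBasis k₀ ((↑) : t → L)) (w : Y → L) (hw : Function.Injective w)
    (hwt : Set.range w ⊆ t) :
    AlgebraicIndependent (IntermediateField.adjoin k₀ (t \ Set.range w)) w ∧
      FiniteDimensional (IntermediateField.adjoin (IntermediateField.adjoin k₀ (t \ Set.range w))
        (Set.range w)) L := by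
  classical
  set s : Set L := t \ Set.range w with hs
  let k : IntermediateField k₀ L := IntermediateField.adjoin k₀ s
  let e : Y ⊕ s → t := Sum.elim (fun x => ⟨w x, hwt ⟨x, rfl⟩⟩) fun y => ⟨y.1, y.2.1⟩
  have he : Function.Injective e := by
    rintro (x | x) (y | y) h
    · exact congrArg Sum.inl (hw (congrArg Subtype.val h))
    · exact absurd ⟨x, congrArg Subtype.val h⟩ y.2.2
    · exact absurd ⟨y, (congrArg Subtype.val h).symm⟩ x.2.2
    · have h' : (e (Sum.inr x)).1 = (e (Sum.inr y)).1 := congrArg Subtype.val h
      exact congrArg Sum.inr (Subtype.ext h')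
  have h1 : AlgebraicIndependent k₀ (Sum.elim w (Subtype.val : s → L)) := by
    have h0 := hb.1.comp e he
    have h0' : ((↑) : t → L) ∘ e = Sum.elim w (Subtype.val : s → L) := by
      funext x
      rcases x with x | x <;> rfl
    rw [h0'] at h0
    exact h0
  have h2 := (AlgebraicIndependent.sumElim_iff.1 h1).2
  rw [Subtype.range_coe] at h2
  have h3 : AlgebraicIndependent k w := IntermediateField.algebraicIndependent_adjoin_iff.2 h2
  have hK : Algebra.IsAlgebraic (IntermediateField.adjoin k (Set.range w)) L := by
    have h4 := hb.isAlgebraic_field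
    rw [Subtype.range_coe] at h4
    have hle : IntermediateField.adjoin k₀ t ≤
        (IntermediateField.adjoin k (Set.range w)).restrictScalars k₀ := by
      rw [IntermediateField.adjoin_le_iff]
      intro x hx
      have key : x ∈ IntermediateField.adjoin k (Set.range w) := by
        by_cases hxv : x ∈ Set.range w
        · exact IntermediateField.subset_adjoin k (Set.range w) hxv
        · have hxk : x ∈ k := IntermediateField.subset_adjoin k₀ s ⟨hx, hxv⟩
          exact (IntermediateField.adjoin k (Set.range w)).algebraMap_mem ⟨x, hxk⟩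
      exact key
    constructor
    intro x
    have h5 := h4.isAlgebraic x
    let f : IntermediateField.adjoin k₀ t →+* IntermediateField.adjoin k (Set.range w) :=
      (IntermediateField.inclusion hle).toRingHom
    obtain ⟨p, hp0, hp⟩ := h5
    refine ⟨p.map f, (Polynomial.map_ne_zero_iff f.injective).2 hp0, ?_⟩
    rw [Polynomial.aeval_def, Polynomial.eval₂_map]
    rw [Polynomial.aeval_def] at hp
    exact hp
  refine ⟨h3, ?_⟩
  obtain ⟨S, hS, hS1⟩ := IntermediateField.fg_def.1 hfg
  have hfd : FiniteDimensional (IntermediateField.adjoin k (Set.range w))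
      (IntermediateField.adjoin (IntermediateField.adjoin k (Set.range w)) S) := by
    have : Finite S := hS
    exact IntermediateField.finiteDimensional_adjoin fun x _ =>
      (hK.isAlgebraic x).isIntegral
  have htop : IntermediateField.adjoin (IntermediateField.adjoin k (Set.range w)) S = ⊤ := by
    rw [eq_top_iff]
    intro x _
    have hx : x ∈ IntermediateField.adjoin k₀ S := by rw [hS1]; trivial
    have hle : IntermediateField.adjoin k₀ S ≤ ((IntermediateField.adjoin
        (IntermediateField.adjoin k (Set.range w)) S).restrictScalars k).restrictScalars k₀ := by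
      rw [IntermediateField.adjoin_le_iff]
      intro y hy
      have key : y ∈ IntermediateField.adjoin (IntermediateField.adjoin k (Set.range w)) S :=
        IntermediateField.subset_adjoin _ _ hy
      exact key
    have key : x ∈ ((IntermediateField.adjoin
        (IntermediateField.adjoin k (Set.range w)) S).restrictScalars k).restrictScalars k₀ :=
      hle hx
    exact key
  rw [htop] at hfd
  exact Module.Finite.equiv
    (IntermediateField.topEquiv (F := IntermediateField.adjoin k (Set.range w))
      (E := L)).toLinearEquiv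

/-- a derivation which kills `k₀` and `T` kills `k₀(T)` -/
theorem basisE_kill {k₀ L : Type*} [Field k₀] [Field L] [Algebra k₀ L] (δ : Derivation ℤ L L)
    (T : Set L) (h0 : ∀ c : k₀, δ (algebraMap k₀ L c) = 0) (h : ∀ x ∈ T, δ x = 0) :
    ∀ x ∈ IntermediateField.adjoin k₀ T, δ x = 0 := by
  intro x hx
  induction hx using IntermediateField.adjoin_induction with
  | mem x hx => exact h x hx
  | algebraMap c => exact h0 c
  | add x y hx hy ihx ihy => rw [map_add, ihx, ihy, add_zero]
  | inv x hx ih => rw [δ.leibniz_inv, ih, smul_zero]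
  | mul x y hx hy ihx ihy => rw [δ.leibniz, ihx, ihy, smul_zero, smul_zero, add_zero]

theorem basisE_sum {L : Type*} [Field L] (s : Finset L) (c : L → L) (E : L → Derivation ℤ L L)
    (x : L) : (∑ u ∈ s, c u • E u) x = ∑ u ∈ s, c u * E u x := by
  classical
  induction s using Finset.induction_on with
  | empty => simp
  | insert a s ha ih =>
    rw [Finset.sum_insert ha, Finset.sum_insert ha, Derivation.add_apply, ih, Derivation.smul_apply,
      smul_eq_mul]

theorem basis_e {k₀ L X : Type*} [Field k₀] [Field L] [CharZero L] [Algebra k₀ L] [Fintype X]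
    [DecidableEq X] (hfg : (⊤ : IntermediateField k₀ L).FG) (v : X → L)
    (hv : AlgebraicIndependent k₀ v) :
    ∃ (s : Finset L) (k : L → IntermediateField k₀ L) (D : L → Option X → Derivation ℤ L L),
      (∀ u ∈ s, AlgebraicIndependent (k u) (fun p : Option X => p.elim u v) ∧
        FiniteDimensional (IntermediateField.adjoin (k u)
          (Set.range fun p : Option X => p.elim u v)) L ∧
        (∀ I J : Option X, D u J (I.elim u v) = if I = J then 1 else 0) ∧
        ∀ J (c : k u), D u J (algebraMap (k u) L c) = 0) ∧
      ∀ z : L, (∀ u ∈ s, D u none z = 0) → IsAlgebraic (IntermediateField.adjoin k₀ (Set.range v)) z := by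
  classical
  obtain ⟨t, ht, hb⟩ := exists_isTranscendenceBasis_superset (R := k₀) hv.coe_range
  have hess : Algebra.EssFiniteType k₀ L := IntermediateField.fg_top_iff.mp hfg
  have htfin : Finite t := finite_of_isTranscendenceBasis hb
  have hsfin : (t \ Set.range v).Finite := (Set.toFinite t).subset Set.sdiff_subset
  have hE : ∀ y : L, ∃ D : Derivation k₀ L L, ∀ i : t, D i = if (i : L) = y then 1 else 0 :=
    fun y => Pool.Agent.Helper8.LG.red_exists_der (fun i : t => (i : L)) hb.1 hb.isAlgebraic
      (fun i => if (i : L) = y then (1 : L) else 0)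
  choose E hE using hE
  have hE' : ∀ (y x : L), x ∈ t → E y x = if x = y then 1 else 0 := fun y x hx => hE y ⟨x, hx⟩
  have hrange : ∀ u : L, Set.range (fun p : Option X => p.elim u v) = insert u (Set.range v) := by
    intro u
    ext x
    constructor
    · rintro ⟨p, rfl⟩
      rcases p with _ | p
      · exact Or.inl rfl
      · exact Or.inr ⟨p, rfl⟩
    · rintro (rfl | ⟨p, rfl⟩)
      · exact ⟨none, rfl⟩
      · exact ⟨some p, rfl⟩
  refine ⟨hsfin.toFinset, fun u => IntermediateField.adjoin k₀
    (t \ Set.range (fun p : Option X => p.elim u v)),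
    fun u J => (E (J.elim u v)).restrictScalars ℤ, ?_, ?_⟩
  · intro u hu
    have hu' : u ∈ t \ Set.range v := hsfin.mem_toFinset.1 hu
    have hinj : Function.Injective (fun p : Option X => p.elim u v) := by
      intro p q hpq
      rcases p with _ | p <;> rcases q with _ | q
      · rfl
      · exact absurd ⟨q, hpq.symm⟩ hu'.2
      · exact absurd ⟨p, hpq⟩ hu'.2
      · exact congrArg some (hv.injective hpq)
    have hsub : Set.range (fun p : Option X => p.elim u v) ⊆ t := by
      rw [hrange u]
      exact Set.insert_subset hu'.1 ht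
    obtain ⟨h1, h2⟩ := basisE_ext hfg t hb (fun p : Option X => p.elim u v) hinj hsub
    refine ⟨h1, h2, ?_, ?_⟩
    · intro I J
      have h3 := hE' (J.elim u v) (I.elim u v) (hsub ⟨I, rfl⟩)
      change E (J.elim u v) (I.elim u v) = _
      rw [h3]
      by_cases hIJ : I = J
      · rw [if_pos hIJ, hIJ, if_pos rfl]
      · rw [if_neg hIJ, if_neg (fun h => hIJ (hinj h))]
    · intro J c
      refine basisE_kill (k₀ := k₀) ((E (J.elim u v)).restrictScalars ℤ) _ ?_ ?_ _ c.2
      · intro c
        exact (E (J.elim u v)).map_algebraMap c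
      · intro x hx
        change E (J.elim u v) x = 0
        rw [hE' _ _ hx.1, if_neg]
        intro h
        exact hx.2 ⟨J, h.symm⟩
  · intro z hz
    by_contra hcon
    obtain ⟨δ, hδ1, hδ2⟩ := Pool.Agent.Helper6.QS.exists_der
      (IntermediateField.adjoin k₀ (Set.range v)).toSubfield z hcon
    have hδ0 : ∀ c : k₀, δ (algebraMap k₀ L c) = 0 := fun c =>
      hδ1 _ ((IntermediateField.adjoin k₀ (Set.range v)).algebraMap_mem c)
    have hδv : ∀ J, δ (v J) = 0 := fun J =>
      hδ1 _ (IntermediateField.subset_adjoin k₀ (Set.range v) ⟨J, rfl⟩)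
    let δ' : Derivation ℤ L L := δ - ∑ u ∈ hsfin.toFinset, δ u • (E u).restrictScalars ℤ
    have hδ' : ∀ x, δ' x = δ x - ∑ u ∈ hsfin.toFinset, δ u * E u x := by
      intro x
      have h1 : δ' x = δ x - (∑ u ∈ hsfin.toFinset, δ u • (E u).restrictScalars ℤ) x := rfl
      rw [h1, basisE_sum hsfin.toFinset (fun u => δ u) (fun u => (E u).restrictScalars ℤ) x]
      rfl
    have hkill : ∀ x ∈ IntermediateField.adjoin k₀ t, δ' x = 0 := by
      refine basisE_kill (k₀ := k₀) δ' t ?_ ?_
      · intro c
        rw [hδ', hδ0, Finset.sum_eq_zero, sub_zero]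
        intro u _
        rw [(E u).map_algebraMap, mul_zero]
      · intro x hx
        rw [hδ']
        by_cases hxv : x ∈ Set.range v
        · obtain ⟨J, rfl⟩ := hxv
          rw [hδv, Finset.sum_eq_zero, sub_zero]
          intro u hu
          rw [hE' _ _ hx, if_neg, mul_zero]
          intro h
          exact (hsfin.mem_toFinset.1 hu).2 ⟨J, h⟩
        · have hxs : x ∈ hsfin.toFinset := hsfin.mem_toFinset.2 ⟨hx, hxv⟩
          rw [Finset.sum_eq_single x, hE' _ _ hx, if_pos rfl, mul_one, sub_self]
          · intro u _ hux
            rw [hE' _ _ hx, if_neg (fun h => hux h.symm), mul_zero]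
          · intro h
            exact absurd hxs h
    have halg : IsAlgebraic (IntermediateField.adjoin k₀ t).toSubfield z := by
      have h4 := hb.isAlgebraic_field
      rw [Subtype.range_coe] at h4
      exact h4.isAlgebraic z
    have h5 := der_alg δ' (IntermediateField.adjoin k₀ t).toSubfield hkill z halg
    rw [hδ', Finset.sum_eq_zero, sub_zero] at h5
    · exact hδ2 h5
    · intro u hu
      have h6 : E u z = 0 := hz u hu
      rw [h6, mul_zero]

end Pool.Agent.Helper10.Q46
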