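import Pool.Agent.Helper10.Q46.MatsE
import Pool.Agent.Helper10.Q46.DeltaE
import Pool.Agent.Helper74.Q8.AdX
import Pool.Agent.Helper6.QS.Rat
import Pool.Agent.Helper6.QS.Der

/-!
# Q46-CASENE: the nondegenerate case, a quadratic form
-/

set_option autoImplicit false

namespace Pool.Agent.Helper10.Q46

open scoped BigOperators
open MvPolynomial
open Pool.Agent.Helper8.LG (Bdd form mon)
open Pool.Agent.Helper49.LN (cP mo hf pl)
open Pool.Agent.Helper6.QS

variable {Ω : Type*} [Field Ω] [CharZero Ω] {q : ℕ}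
  {D : Option (Sym (Fin 5) q) → Derivation ℤ Ω Ω} {a : Sym (Fin 5) q → Ω} {B : Subfield Ω}
  {x e n : Fin 5 → Ω}

theorem ratP_monomialE (B : Subfield Ω) (p : Fin 5 →₀ ℕ) : RatP B (monomial p (1 : Ω)) := by
  classical
  intro m
  rw [coeff_monomial]
  split_ifs
  · exact B.one_mem
  · exact B.zero_mem

theorem fam_traceE {k : Fin 2 → Fin 5 → Ω} {l : Fin 2 → Fin 5 → Ω} {θ : Fin 2 → Fin 5 → Ω}
    {P1 : MvPolynomial (Fin 5) Ω} (m : MtE D a B x e n k l θ P1)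
    (i j : Option (Fin 5 →₀ ℕ)) :
    (fam (ds D) x l θ i * fam (ds D) x l θ j).trace ∈ B := by
  have key := tracesE (um (ds D) x l θ) P1 m.r1 m.a1 m.det
  have h1 : ∀ p : Fin 5 →₀ ℕ, (um (ds D) x l θ (monomial p 1)).trace ∈ B := fun p =>
    (key _ _ (ratP_monomialE B p) (ratP_monomialE B p)).1
  rcases i with _ | p
  · rcases j with _ | p'
    · show ((1 : Matrix (Fin 2) (Fin 2) Ω) * 1).trace ∈ B
      rw [mul_one, Matrix.trace_one]
      exact natCast_mem B _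
    · show (1 * um (ds D) x l θ (monomial p' 1)).trace ∈ B
      rw [one_mul]
      exact h1 _
  · rcases j with _ | p'
    · show (um (ds D) x l θ (monomial p 1) * 1).trace ∈ B
      rw [mul_one]
      exact h1 _
    · exact (key _ _ (ratP_monomialE B p) (ratP_monomialE B p')).2.2

theorem case_nE {k : Fin 2 → Fin 5 → Ω} {l : Fin 2 → Fin 5 → Ω} {θ : Fin 2 → Fin 5 → Ω}
    {P1 : MvPolynomial (Fin 5) Ω} (m : MtE D a B x e n k l θ P1)
    (hnd : ∀ N ∈ Submodule.span Ω (Set.range (fam (ds D) x l θ)),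
      (∀ i, (N * fam (ds D) x l θ i).trace = 0) → N = 0) (hx : ¬ ∀ i, x i ∈ B) :
    ∃ Q : MvPolynomial (Fin 5) Ω, Q.IsHomogeneous 2 ∧
      (∃ y, (∀ i, dt (k i) y = 0) ∧ eval y Q ≠ 0) ∧ ∀ C, Par2 x e (dv (ds D) x (C * Q)) := by
  push Not at hx
  obtain ⟨i, hi⟩ := hx
  obtain ⟨δ, hδ, hδx⟩ := exists_der B (x i) fun h => hi (rat_alg m.pl.pt.frame.frame _ h)
  obtain ⟨X₀, hX⟩ := Pool.Agent.Helper74.Q8.ad_X (fam (ds D) x l θ) none rfl (fam_traceE m) hnd δ hδ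
  exact delta_e m δ hδ ⟨i, hδx⟩ X₀ fun p => hX (some p)

end Pool.Agent.Helper10.Q46
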