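import Pool.Agent.Helper10.Q46.VolE

/-!
# Q46-MATSE: the matrices

`vol_coordE` with `w0 = D_(P1 l_0) x`, `w1 = D_(P1 l_1) x` gives `θ`. `det`: the determinant of
`um .. P` is `T2 .. P (l 0) (l 1) / T2 .. P1 (l 0) (l 1)`, both in `B` (`rat`). `tracesE`:
`det(1 + A) = 1 + tr A + det A` (use `P1 + P`), and `tr A tr C - tr (A C) = det(A + C) - det A - det C`.
-/

set_option autoImplicit false

namespace Pool.Agent.Helper10.Q46

open scoped BigOperators
open MvPolynomial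
open Pool.Agent.Helper8.LG (Bdd form mon)
open Pool.Agent.Helper49.LN (cP mo hf pl)
open Pool.Agent.Helper6.QS
open Pool.Agent.Helper74.Q8 (dl rr)

variable {Ω : Type*} [Field Ω] [CharZero Ω] {q : ℕ}
  {D : Option (Sym (Fin 5) q) → Derivation ℤ Ω Ω} {a : Sym (Fin 5) q → Ω} {B : Subfield Ω}
  {x e n : Fin 5 → Ω}

theorem mats_e {k : Fin 2 → Fin 5 → Ω} {l : Fin 2 → Fin 5 → Ω} (pl : PlE D a B x e n k l)
    (P1 : MvPolynomial (Fin 5) Ω) (r1 : RatP B P1) (hne : T2 (ds D) x e P1 (l 0) (l 1) ≠ 0) :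
    ∃ θ : Fin 2 → Fin 5 → Ω, MtE D a B x e n k l θ P1 := by
  have ht : ∀ (P : MvPolynomial (Fin 5) Ω) (i : Fin 2), dt n (dl (ds D) x P (l i)) = 0 :=
    fun P i => tanE pl.pt P (l i) (pl.lx i)
  obtain ⟨θ, hx, he, h00, h10, h01, h11, hpar, -, hvol⟩ :=
    vol_coordE pl.pt (dl (ds D) x P1 (l 0)) (dl (ds D) x P1 (l 1)) (ht P1 0) (ht P1 1) hne
  refine ⟨θ, pl, r1, hx, he, hpar, ?_, ?_⟩
  · ext i j
    rw [um_apply]
    fin_cases i <;> fin_cases j
    · exact h00
    · exact h10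
    · exact h01
    · exact h11
  · intro P hP
    have h1 := hvol (dl (ds D) x P (l 0)) (dl (ds D) x P (l 1)) (ht P 0) (ht P 1)
    have h2 : (um (ds D) x l θ P).det = T2 (ds D) x e P (l 0) (l 1) /
        T2 (ds D) x e P1 (l 0) (l 1) := by
      rw [Matrix.det_fin_two, um_apply, um_apply, um_apply, um_apply, eq_div_iff hne]
      unfold T2
      rw [h1]
      ring
    rw [h2]
    exact div_mem (pl.rat P hP) (pl.rat P1 r1)

theorem tracesE {Ω : Type*} [Field Ω] {B : Subfield Ω} {σ : Type*}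
    (A : MvPolynomial σ Ω →ₗ[Ω] Matrix (Fin 2) (Fin 2) Ω) (P1 : MvPolynomial σ Ω)
    (r1 : RatP B P1) (a1 : A P1 = 1) (h : ∀ P, RatP B P → (A P).det ∈ B)
    (P Q : MvPolynomial σ Ω) (hP : RatP B P) (hQ : RatP B Q) :
    (A P).trace ∈ B ∧ (A P).det ∈ B ∧ (A P * A Q).trace ∈ B := by
  have hadd : ∀ {R S : MvPolynomial σ Ω}, RatP B R → RatP B S → RatP B (R + S) := by
    intro R S hR hS m
    rw [coeff_add]
    exact B.add_mem (hR m) (hS m)
  have htA : ∀ R, RatP B R → (A R).trace ∈ B := by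
    intro R hR
    have e := h (P1 + R) (hadd r1 hR)
    have e2 : (A R).trace = (A (P1 + R)).det - (A R).det - 1 := by
      rw [map_add, a1, Matrix.det_fin_two, Matrix.det_fin_two, Matrix.trace_fin_two]
      simp only [Matrix.add_apply, Matrix.one_apply_eq, Matrix.one_apply_ne, ne_eq,
        zero_ne_one, one_ne_zero, not_false_eq_true]
      ring
    rw [e2]
    exact B.sub_mem (B.sub_mem e (h R hR)) B.one_mem
  have h2 : ∀ M N : Matrix (Fin 2) (Fin 2) Ω,
      (M * N).trace = M.trace * N.trace - ((M + N).det - M.det - N.det) := by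
    intro M N
    rw [Matrix.det_fin_two, Matrix.det_fin_two, Matrix.det_fin_two, Matrix.trace_fin_two,
      Matrix.trace_fin_two, Matrix.trace_fin_two]
    simp only [Matrix.mul_apply, Fin.sum_univ_two, Matrix.add_apply]
    ring
  refine ⟨htA P hP, h P hP, ?_⟩
  rw [h2, ← map_add]
  exact B.sub_mem (B.mul_mem (htA P hP) (htA Q hQ))
    (B.sub_mem (B.sub_mem (h _ (hadd hP hQ)) (h P hP)) (h Q hQ))

end Pool.Agent.Helper10.Q46
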