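import Pool.Agent.Helper10.Q46.Defs
import Pool.Agent.Helper6.QS.Rat

/-!
# Q46-RATE: basic properties of the frame with one more derivation
-/

set_option autoImplicit false

namespace Pool.Agent.Helper10.Q46

open scoped BigOperators
open MvPolynomial
open Pool.Agent.Helper8.LG (Bdd form mon)
open Pool.Agent.Helper49.LN (cP mo hf pl)
open Pool.Agent.Helper6.QS

variable {Ω : Type*} [Field Ω] {σ : Type*} [Fintype σ] [DecidableEq σ] {q : ℕ}
  {D : Option (Sym σ q) → Derivation ℤ Ω Ω} {a : Sym σ q → Ω} {B : Subfield Ω}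

/-- at each valuation ring one may use a maximal coordinate of the point -/
theorem rat_maxE (hB : FrameE D a B) (x : σ → Ω) (i₀ : σ) (hx : x i₀ = 1) (s : Finset Ω)
    (hs : ∀ b ∈ s, b ∈ B) (y : Ω) (M : ℕ)
    (h : ∀ (O : ValuationSubring Ω) (Δ : Ω), Bdd D Δ O → (∀ b ∈ s, Δ * b ∈ O) →
      ∀ m, x m ≠ 0 → (∀ l, x l / x m ∈ O) → Δ ^ M * y ∈ O) : y ∈ B := by
  refine hB.rat s hs y M fun O Δ hΔ hsO => ?_
  obtain ⟨m, hm, hmax⟩ := Pool.Agent.Helper74.LG.exists_max_coord O x i₀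
    (by rw [hx]; exact one_ne_zero)
  exact h O Δ hΔ hsO m hm hmax

/-- a function of weight `-1` bounds the point -/
theorem rat_ptE (hB : FrameE D a B) (x : σ → Ω) (i₀ : σ) (hx : x i₀ = 1) (s : Finset Ω)
    (hs : ∀ b ∈ s, b ∈ B) (G : Ω) (hG : G ≠ 0) (M : ℕ)
    (h : ∀ (O : ValuationSubring Ω) (Δ : Ω), Bdd D Δ O → (∀ b ∈ s, Δ * b ∈ O) →
      ∀ m, x m ≠ 0 → (∀ l, x l / x m ∈ O) → Δ ^ M * (G * x m) ∈ O) : ∀ l, x l ∈ B := by
  have key : ∀ l, G * x l ∈ B := by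
    intro l
    refine rat_maxE hB x i₀ hx s hs (G * x l) M fun O Δ hΔ hsO m hm hmax => ?_
    have h1 : Δ ^ M * (G * x l) = Δ ^ M * (G * x m) * (x l / x m) := by
      field_simp
    rw [h1]
    exact O.mul_mem _ _ (h O Δ hΔ hsO m hm hmax) (hmax l)
  have hGB : G ∈ B := by
    have h1 := key i₀
    rwa [hx, mul_one] at h1
  intro l
  have h1 : x l = G⁻¹ * (G * x l) := by
    rw [← mul_assoc, inv_mul_cancel₀ hG, one_mul]
  rw [h1]
  exact B.mul_mem (B.inv_mem hGB) (key l)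

omit [Fintype σ] [DecidableEq σ] in
/-- the derivative of the point at one valuation ring -/
theorem e_loc (δ : Derivation ℤ Ω Ω) (x e : σ → Ω) (he : ∀ l, e l = δ (x l)) (m : σ)
    (hm : x m ≠ 0) : e = x m • (fun l => δ (x l / x m)) + (δ (x m) / x m) • x := by
  funext l
  have h1 : δ (x l) = x m * δ (x l / x m) + x l / x m * δ (x m) := by
    conv_lhs => rw [← mul_div_cancel₀ (x l) hm]
    rw [Derivation.leibniz, smul_eq_mul, smul_eq_mul]
  rw [he, h1, Pi.add_apply, Pi.smul_apply, Pi.smul_apply, smul_eq_mul, smul_eq_mul]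
  ring

end Pool.Agent.Helper10.Q46
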