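import Pool.Agent.Helper10.Q46.VolE
import Pool.Agent.Helper10.Q46.RatE
import Pool.Agent.Helper74.Q8.TRat

/-!
# Q46-PT3E: a second rational point

`z` is rational and not proportional to `x`, `θ(D_f x) = 0` for all `f` vanishing at `x` and `z`,
and `n^⊥ ∩ θ^⊥` is spanned by `x, e, u`, `u = D_(P1 l') x`, `l'` vanishing at `x` and `z`. Let `m_abc` be
the linear form `t ↦ det of (x, z, t) in the rows a, b, c`; with `(x_a z_b - x_b z_a) ≠ 0` `l'` is a
combination of the `m_abi`, so for some `a, b, c` the vector `v = D_(P1 m_abc) x` is not a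
combination of `x, e` (from `hne`). Fix them. For `f0` with `f0(z) = 0 ≠ f0(x)` (values `ev q`) let
`w_s = det(x, e, v, D_(f0) x / f0(x), E_s)`, `E_s` a unit vector. It does not depend on `f0` (if
`f0, f0'` are two such forms, `f0(x) f0' - f0'(x) f0` vanishes at `x` and `z`, so its derivative is a
combination of `x, e, v`: `v` is in the span of `x, e, u`, not in that of `x, e`), and `w_s ≠ 0` for
some `s` (`x, e, v` are independent in `n^⊥` and `n . D_(f0) x = - f0(x) ≠ 0`). It has weight `-1`: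
at a valuation ring with maximal coordinate `m` (`rat_ptE`, `s` = the `z_i` and the coefficients of
`P1`), `x' = x / x_m`, let `p = x'_j z_l - x'_l z_j` be the maximal Plücker coordinate of `x', z`; use
`f0 = (z_l X_j - z_j X_l) X_m^5`, `f0(x) = x_m^6 p`, `m_abc = x_m p m''` with `m''` integral,
`e = x_m e' + c x` (`e_loc`), `v = x_m^2 p D_(P1 m'') x' + c' x`, `D_(f0) x = x_m D_(f0) x' + c'' x`
(`dv_scale`): `w_s = x_m^(1 + 1 + 2 + 1 - 6) det(x', e', D_(P1 m'') x', D_(f0) x', E_s)`, so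
`Δ^M w_s x_m ∈ O` (`dv_bdd`). Copy of `Helper6/QS/Pt3.lean` (there dimension 4, no `e`; minors
instead of the determinant with a unit vector).
-/

set_option autoImplicit false

namespace Pool.Agent.Helper10.Q46

open scoped BigOperators
open MvPolynomial
open Pool.Agent.Helper8.LG (Bdd form mon)
open Pool.Agent.Helper49.LN (cP mo hf pl)
open Pool.Agent.Helper6.QS
open Pool.Agent.Helper74.Q8 (dl rr)

section Pt3E_gen

variable {Ω : Type*} [Field Ω] {σ : Type*} [Fintype σ] [DecidableEq σ]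

/-- the coefficients of the linear forms of the line through `x` and `z` -/
def Pt3E_e (x z : σ → Ω) (a b c : σ) (i : σ) : Ω :=
  pl x z a b * (if i = c then 1 else 0) - pl x z a c * (if i = b then 1 else 0) +
    pl x z b c * (if i = a then 1 else 0)

/-- the coefficients of the linear form `z_l X_j - z_j X_l` -/
def Pt3E_r (z : σ → Ω) (j l : σ) (i : σ) : Ω :=
  z l * (if i = j then 1 else 0) - z j * (if i = l then 1 else 0)

theorem Pt3E_delta (t : σ → Ω) (c : σ) (r : Ω) :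
    ∑ i, r * (if i = c then (1 : Ω) else 0) * t i = r * t c := by
  rw [Finset.sum_eq_single c]
  · rw [if_pos rfl, mul_one]
  · intro i _ hi
    rw [if_neg hi, mul_zero, zero_mul]
  · intro hc
    exact absurd (Finset.mem_univ c) hc

theorem Pt3E_dt_e (x z t : σ → Ω) (a b c : σ) : dt (Pt3E_e x z a b c) t =
    pl x z a b * t c - pl x z a c * t b + pl x z b c * t a := by
  unfold dt Pt3E_e
  simp only [add_mul, sub_mul, Finset.sum_add_distrib, Finset.sum_sub_distrib, Pt3E_delta]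

theorem Pt3E_dt_r (z t : σ → Ω) (j l : σ) : dt (Pt3E_r z j l) t = pl t z j l := by
  unfold dt Pt3E_r
  simp only [sub_mul, Finset.sum_sub_distrib, Pt3E_delta]
  unfold pl
  ring

omit [DecidableEq σ] in
theorem Pt3E_sum0 (x z m : σ → Ω) (a : σ) (h1 : dt m x = 0) (h2 : dt m z = 0) :
    ∑ c, m c * pl x z a c = 0 := by
  have h : ∀ c, m c * pl x z a c = x a * (m c * z c) - z a * (m c * x c) := by
    intro c
    unfold pl
    ring
  rw [Finset.sum_congr rfl fun c _ => h c, Finset.sum_sub_distrib, ← Finset.mul_sum,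
    ← Finset.mul_sum]
  unfold dt at h1 h2
  rw [h1, h2, mul_zero, mul_zero, sub_zero]

/-- a linear form vanishing on the line as a combination of the `Pt3E_e` -/
theorem Pt3E_span (x z m : σ → Ω) (a b : σ) (h1 : dt m x = 0) (h2 : dt m z = 0) :
    pl x z a b • m = ∑ c, m c • Pt3E_e x z a b c := by
  funext i
  rw [Finset.sum_apply]
  have h : ∀ c, (m c • Pt3E_e x z a b c) i = pl x z a b * (if c = i then m c else 0) -
      (if i = b then 1 else 0) * (m c * pl x z a c) +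
      (if i = a then 1 else 0) * (m c * pl x z b c) := by
    intro c
    rw [Pi.smul_apply, smul_eq_mul, Pt3E_e]
    by_cases hc : c = i
    · rw [if_pos hc, if_pos hc.symm]
      ring
    · rw [if_neg hc, if_neg fun hh => hc hh.symm]
      ring
  rw [Finset.sum_congr rfl fun c _ => h c, Finset.sum_add_distrib, Finset.sum_sub_distrib,
    ← Finset.mul_sum, ← Finset.mul_sum, ← Finset.mul_sum, Pt3E_sum0 x z m a h1 h2,
    Pt3E_sum0 x z m b h1 h2, Finset.sum_ite_eq' Finset.univ i m, if_pos (Finset.mem_univ i),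
    Pi.smul_apply, smul_eq_mul, mul_zero, mul_zero, sub_zero, add_zero]

theorem Pt3E_exists {q : ℕ} (D : Sym σ q → Derivation ℤ Ω Ω) (x e z m : σ → Ω)
    (P : MvPolynomial σ Ω) (a b : σ) (hab : pl x z a b ≠ 0) (h1 : dt m x = 0) (h2 : dt m z = 0)
    (hne : ¬ Par2 x e (dl D x P m)) : ∃ c, ¬ Par2 x e (dl D x P (Pt3E_e x z a b c)) := by
  by_contra hcon
  push Not at hcon
  apply hne
  have h3 : pl x z a b • dl D x P m = ∑ c, m c • dl D x P (Pt3E_e x z a b c) := by
    have h4 := congrArg (Pool.Agent.Helper74.Q8.dlm D x P) (Pt3E_span x z m a b h1 h2)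
    rw [map_smul, map_sum] at h4
    have h5 : ∀ c, Pool.Agent.Helper74.Q8.dlm D x P (m c • Pt3E_e x z a b c) =
        m c • dl D x P (Pt3E_e x z a b c) := fun c => by rw [map_smul]; rfl
    rw [Finset.sum_congr rfl fun c _ => h5 c] at h4
    exact h4
  have h4 : dl D x P m = (pl x z a b)⁻¹ • ∑ c, m c • dl D x P (Pt3E_e x z a b c) := by
    rw [eq_inv_smul_iff₀ hab, h3]
  rw [h4]
  exact Par2.smul _ (Par2.sum _ _ fun c _ => Par2.smul _ (hcon c))

theorem Pt3E_ev (k : ℕ) {q : ℕ} (hq : q = k + 1) (x r : σ → Ω) (m : σ) :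
    ev q x (X m ^ k * lf r : MvPolynomial σ Ω) = x m ^ k * dt r x := by
  subst hq
  rw [ev_lf, ev_hom k x (X m ^ k) (by simpa using (isHomogeneous_X Ω m).pow k), map_pow, eval_X]

theorem Pt3E_int_lf (O : ValuationSubring Ω) (k : Ω) (l : σ → Ω) (hl : ∀ i, k * l i ∈ O) :
    ∀ m, k * coeff m (lf l) ∈ O := by
  intro m
  unfold lf
  rw [coeff_sum, Finset.mul_sum]
  refine sum_mem fun i _ => ?_
  rw [coeff_smul, smul_eq_mul, ← mul_assoc]
  refine mul_mem (hl i) ?_
  rw [coeff_X]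
  split_ifs
  · exact one_mem O
  · exact zero_mem O

omit [Fintype σ] in
theorem Pt3E_int_mul (O : ValuationSubring Ω) (k : Ω) (f g : MvPolynomial σ Ω)
    (hf : ∀ m, coeff m f ∈ O) (hg : ∀ m, k * coeff m g ∈ O) : ∀ m, k * coeff m (f * g) ∈ O := by
  intro m
  rw [coeff_mul, Finset.mul_sum]
  refine sum_mem fun p _ => ?_
  rw [mul_left_comm]
  exact mul_mem (hf _) (hg _)

omit [Fintype σ] in
theorem Pt3E_int_pow (O : ValuationSubring Ω) (k : ℕ) (i : σ) (m : σ →₀ ℕ) :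
    coeff m (X i ^ k : MvPolynomial σ Ω) ∈ O := by
  rw [coeff_X_pow]
  split_ifs
  · exact one_mem O
  · exact zero_mem O

theorem Pt3E_01 (O : ValuationSubring Ω) (p : Prop) [Decidable p] :
    (if p then (1 : Ω) else 0) ∈ O := by
  split_ifs
  · exact one_mem O
  · exact zero_mem O

end Pt3E_gen

section Pt3E_det

variable {Ω : Type*} [Field Ω]

/-- the determinant with a unit vector in the last row -/
def Pt3E_W (u v w t : Fin 5 → Ω) (s : Fin 5) : Ω :=
  Matrix.det (Matrix.of ![u, v, w, t, Pi.single s 1])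

theorem Pt3E_upd (r0 r1 r2 r3 r4 w : Fin 5 → Ω) :
    (Matrix.of ![r0, r1, r2, w, r4] : Matrix (Fin 5) (Fin 5) Ω) =
      (Matrix.of ![r0, r1, r2, r3, r4]).updateRow 3 w := by
  ext i j
  fin_cases i <;> rfl

theorem Pt3E_W_add (u v w t t' : Fin 5 → Ω) (s : Fin 5) :
    Pt3E_W u v w (t + t') s = Pt3E_W u v w t s + Pt3E_W u v w t' s := by
  unfold Pt3E_W
  rw [Pt3E_upd u v w 0 (Pi.single s 1) (t + t'), Matrix.det_updateRow_add, ← Pt3E_upd,
    ← Pt3E_upd]

theorem Pt3E_W_smul (u v w t : Fin 5 → Ω) (r : Ω) (s : Fin 5) :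
    Pt3E_W u v w (r • t) s = r * Pt3E_W u v w t s := by
  unfold Pt3E_W
  rw [Pt3E_upd u v w 0 (Pi.single s 1) (r • t), Matrix.det_updateRow_smul, ← Pt3E_upd]

theorem Pt3E_W_zero (u v w : Fin 5 → Ω) (c1 c2 c3 : Ω) (s : Fin 5) :
    Pt3E_W u v w (c1 • u + c2 • v + c3 • w) s = 0 := by
  have h1 : Pt3E_W u v w u s = 0 := by
    unfold Pt3E_W
    exact Matrix.det_zero_of_row_eq (i := 0) (j := 3) (by decide) rfl
  have h2 : Pt3E_W u v w v s = 0 := by
    unfold Pt3E_W
    exact Matrix.det_zero_of_row_eq (i := 1) (j := 3) (by decide) rfl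
  have h3 : Pt3E_W u v w w s = 0 := by
    unfold Pt3E_W
    exact Matrix.det_zero_of_row_eq (i := 2) (j := 3) (by decide) rfl
  rw [Pt3E_W_add, Pt3E_W_add, Pt3E_W_smul, Pt3E_W_smul, Pt3E_W_smul, h1, h2, h3]
  ring

theorem Pt3E_W_scale (x e v t x' e' v' t' : Fin 5 → Ω) (y p c1 c2 c3 : Ω)
    (hx : x = y • x') (he : e = y • e' + c1 • x) (hv : v = p • (y • v' + c2 • x))
    (ht : t = y • t' + c3 • x) (s : Fin 5) :
    Pt3E_W x e v t s = p * y ^ 4 * Pt3E_W x' e' v' t' s := by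
  have h := Pool.Agent.Helper74.Q8.trat_det_scale (k := 4)
    (Matrix.of ![x, e, v, t, Pi.single s 1]) (Matrix.of ![x', e', v', t', Pi.single s 1])
    ![y, y, p * y, y, 1] ![0, c1, p * c2, c3, 0] rfl (by
      intro i l
      fin_cases i
      · show x l = y * x' l + 0 * x l
        conv_lhs => rw [hx]
        rw [Pi.smul_apply, smul_eq_mul]
        ring
      · show e l = y * e' l + c1 * x l
        rw [he, Pi.add_apply, Pi.smul_apply, Pi.smul_apply, smul_eq_mul, smul_eq_mul]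
      · show v l = p * y * v' l + p * c2 * x l
        rw [hv, Pi.smul_apply, Pi.add_apply, Pi.smul_apply, Pi.smul_apply, smul_eq_mul,
          smul_eq_mul, smul_eq_mul]
        ring
      · show t l = y * t' l + c3 * x l
        rw [ht, Pi.add_apply, Pi.smul_apply, Pi.smul_apply, smul_eq_mul, smul_eq_mul]
      · show (Pi.single s 1 : Fin 5 → Ω) l = 1 * (Pi.single s 1 : Fin 5 → Ω) l + 0 * x l
        ring)
  have h2 : ∏ i, (![y, y, p * y, y, 1] : Fin 5 → Ω) i = p * y ^ 4 := by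
    rw [Fin.prod_univ_five]
    show y * y * (p * y) * y * 1 = p * y ^ 4
    ring
  unfold Pt3E_W
  rw [h, h2]

theorem Pt3E_W_bdd (O : ValuationSubring Ω) (δ : Ω) (hδ : δ ∈ O) (u v w t : Fin 5 → Ω)
    (s : Fin 5) (hu : ∀ i, δ * u i ∈ O) (hv : ∀ i, δ * v i ∈ O) (hw : ∀ i, δ * w i ∈ O)
    (ht : ∀ i, δ * t i ∈ O) : δ ^ 5 * Pt3E_W u v w t s ∈ O := by
  refine Pool.Agent.Helper74.Q8.trat_det_bdd O δ _ fun i j => ?_
  fin_cases i
  · exact hu j
  · exact hv j
  · exact hw j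
  · exact ht j
  · show δ * (Pi.single s 1 : Fin 5 → Ω) j ∈ O
    refine mul_mem hδ ?_
    rw [Pi.single_apply]
    exact Pt3E_01 O _

/-- a vector outside of the hyperplane -/
theorem Pt3E_ne (x e v t n : Fin 5 → Ω) (hx : x 0 = 1) (he : e 0 = 0) (he' : ∃ l, e l ≠ 0)
    (h1 : dt n x = 0) (h2 : dt n e = 0) (h3 : dt n v = 0) (h4 : dt n t ≠ 0)
    (hv : ¬ Par2 x e v) : ∃ s, Pt3E_W x e v t s ≠ 0 := by
  by_contra hcon
  push Not at hcon
  have key : ∀ s : Fin 5, (Pi.single s 1 : Fin 5 → Ω) ∈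
      Submodule.span Ω (Set.range ![x, e, v, t]) := by
    intro s
    obtain ⟨c, hc0, hc⟩ := Matrix.exists_vecMul_eq_zero_iff.2 (hcon s)
    have hsum : c 0 • x + c 1 • e + c 2 • v + c 3 • t + c 4 • (Pi.single s 1 : Fin 5 → Ω) = 0 := by
      rw [← hc]
      funext l
      rw [Matrix.vecMul, dotProduct, Fin.sum_univ_five]
      rfl
    have hc4 : c 4 ≠ 0 := by
      intro h5
      rw [h5, zero_smul, add_zero] at hsum
      have h6 : dt n (c 0 • x + c 1 • e + c 2 • v + c 3 • t) = 0 := by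
        rw [hsum, Pool.Agent.Helper74.Q8.dt_zero']
      rw [Pool.Agent.Helper74.Q8.dt_add', Pool.Agent.Helper74.Q8.dt_add',
        Pool.Agent.Helper74.Q8.dt_add', Pool.Agent.Helper74.Q8.dt_smul',
        Pool.Agent.Helper74.Q8.dt_smul', Pool.Agent.Helper74.Q8.dt_smul',
        Pool.Agent.Helper74.Q8.dt_smul', h1, h2, h3, mul_zero, mul_zero, mul_zero, add_zero,
        add_zero, zero_add] at h6
      have h7 : c 3 = 0 := (mul_eq_zero.1 h6).resolve_right h4
      rw [h7, zero_smul, add_zero] at hsum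
      have h8 : c 2 = 0 := by
        by_contra h9
        apply hv
        refine ⟨-(c 2)⁻¹ * c 0, -(c 2)⁻¹ * c 1, ?_⟩
        have h10 : c 2 • v = -(c 0 • x + c 1 • e) := by
          rw [eq_neg_iff_add_eq_zero, add_comm]
          exact hsum
        have h11 : v = (c 2)⁻¹ • (c 2 • v) := by rw [inv_smul_smul₀ h9]
        rw [h11, h10, smul_neg, smul_add, smul_smul, smul_smul, neg_mul, neg_mul, neg_smul,
          neg_smul, neg_add]
      rw [h8, zero_smul, add_zero] at hsum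
      have h9 := congrFun hsum 0
      rw [Pi.add_apply, Pi.smul_apply, Pi.smul_apply, hx, he, smul_eq_mul, smul_eq_mul, mul_one,
        mul_zero, add_zero, Pi.zero_apply] at h9
      rw [h9, zero_smul, zero_add] at hsum
      have h10 : c 1 = 0 := by
        obtain ⟨l, hl⟩ := he'
        have h11 := congrFun hsum l
        rw [Pi.smul_apply, smul_eq_mul, Pi.zero_apply] at h11
        exact (mul_eq_zero.1 h11).resolve_right hl
      apply hc0
      funext i
      fin_cases i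
      · exact h9
      · exact h10
      · exact h8
      · exact h7
      · exact h5
    have hm : ∀ i : Fin 4, (![x, e, v, t] : Fin 4 → Fin 5 → Ω) i ∈
        Submodule.span Ω (Set.range ![x, e, v, t]) := fun i => Submodule.subset_span ⟨i, rfl⟩
    have h5 : (Pi.single s 1 : Fin 5 → Ω) =
        -(c 4)⁻¹ • (c 0 • x + c 1 • e + c 2 • v + c 3 • t) := by
      have h6 : c 4 • (Pi.single s 1 : Fin 5 → Ω) =
          -(c 0 • x + c 1 • e + c 2 • v + c 3 • t) := by
        rw [eq_neg_iff_add_eq_zero, add_comm]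
        exact hsum
      have h7 : (Pi.single s 1 : Fin 5 → Ω) = (c 4)⁻¹ • (c 4 • (Pi.single s 1 : Fin 5 → Ω)) := by
        rw [inv_smul_smul₀ hc4]
      rw [h7, h6, smul_neg, neg_smul]
    rw [h5]
    exact Submodule.smul_mem _ _ (Submodule.add_mem _ (Submodule.add_mem _ (Submodule.add_mem _
      (Submodule.smul_mem _ _ (hm 0)) (Submodule.smul_mem _ _ (hm 1)))
      (Submodule.smul_mem _ _ (hm 2))) (Submodule.smul_mem _ _ (hm 3)))
  have htop : Submodule.span Ω (Set.range ![x, e, v, t]) = ⊤ := by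
    rw [eq_top_iff]
    intro y _
    have h5 : y = ∑ s, y s • (Pi.single s 1 : Fin 5 → Ω) := by
      funext l
      rw [Finset.sum_apply, Finset.sum_eq_single l]
      · rw [Pi.smul_apply, Pi.single_eq_same, smul_eq_mul, mul_one]
      · intro s _ hs
        rw [Pi.smul_apply, Pi.single_eq_of_ne (Ne.symm hs), smul_zero]
      · intro hl
        exact absurd (Finset.mem_univ l) hl
    rw [h5]
    exact Submodule.sum_mem _ fun s _ => Submodule.smul_mem _ _ (key s)
  have h5 := finrank_range_le_card (R := Ω) (![x, e, v, t] : Fin 4 → Fin 5 → Ω)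
  rw [Set.finrank, htop, finrank_top, Module.finrank_fin_fun, Fintype.card_fin] at h5
  omega

end Pt3E_det

variable {Ω : Type*} [Field Ω] [CharZero Ω] {q : ℕ}
  {D : Option (Sym (Fin 5) q) → Derivation ℤ Ω Ω} {a : Sym (Fin 5) q → Ω} {B : Subfield Ω}
  {x e n : Fin 5 → Ω}

theorem pt3E (h : PtE D a B x e n) (z : Fin 5 → Ω) (hz : ∀ i, z i ∈ B)
    (hzx : ∃ j l, pl x z j l ≠ 0) (θ : Fin 5 → Ω) (hθx : dt θ x = 0) (hθe : dt θ e = 0)
    (l' : Fin 5 → Ω) (hlx : dt l' x = 0) (hlz : dt l' z = 0) (P1 : MvPolynomial (Fin 5) Ω)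
    (hP1 : RatP B P1) (hne : ¬ Par2 x e (dl (ds D) x P1 l'))
    (hE : ∀ v, dt n v = 0 → dt θ v = 0 →
      ∃ c1 c2 c3 : Ω, v = c1 • x + c2 • e + c3 • dl (ds D) x P1 l')
    (hvan : ∀ f, ev q x f = 0 → ev q z f = 0 → dt θ (dv (ds D) x f) = 0) : ∀ i, x i ∈ B := by
  classical
  obtain ⟨j₀, l₀, hjl⟩ := hzx
  obtain ⟨c, hc⟩ := Pt3E_exists (ds D) x e z l' P1 j₀ l₀ hjl hlx hlz hne
  obtain ⟨m₀, hm₀⟩ : ∃ m₀, m₀ = Pt3E_e x z j₀ l₀ c := ⟨_, rfl⟩
  rw [← hm₀] at hc
  have m0x : dt m₀ x = 0 := by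
    rw [hm₀, Pt3E_dt_e]
    unfold pl
    ring
  have m0z : dt m₀ z = 0 := by
    rw [hm₀, Pt3E_dt_e]
    unfold pl
    ring
  obtain ⟨v, hv⟩ : ∃ v, v = dl (ds D) x P1 m₀ := ⟨_, rfl⟩
  rw [← hv] at hc
  have nv : dt n v = 0 := by rw [hv]; exact tanE h P1 m₀ m0x
  have tv : dt θ v = 0 := by
    rw [hv, Pool.Agent.Helper74.Q8.dl_eq]
    exact hvan _ (Pool.Agent.Helper74.Q8.vol_ev_lf 5 h.hq x m₀ P1 m0x)
      (Pool.Agent.Helper74.Q8.vol_ev_lf 5 h.hq z m₀ P1 m0z)
  -- everything orthogonal to `n` and `θ` is a combination of `x, e, v`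
  have hE' : ∀ t, dt n t = 0 → dt θ t = 0 → ∃ c1 c2 c3 : Ω, t = c1 • x + c2 • e + c3 • v := by
    obtain ⟨b1, b2, b3, hb⟩ := hE v nv tv
    have hb3 : b3 ≠ 0 := by
      intro h0
      apply hc
      refine ⟨b1, b2, ?_⟩
      rw [hb, h0, zero_smul, add_zero]
    intro t h1 h2
    obtain ⟨c1, c2, c3, ht⟩ := hE t h1 h2
    obtain ⟨u, hu⟩ : ∃ u, u = dl (ds D) x P1 l' := ⟨_, rfl⟩
    rw [← hu] at hb ht
    refine ⟨c1 - c3 / b3 * b1, c2 - c3 / b3 * b2, c3 / b3, ?_⟩
    rw [ht, hb]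
    funext i
    simp only [Pi.add_apply, Pi.smul_apply, smul_eq_mul]
    field_simp
    ring
  -- the reference form
  obtain ⟨f, hf⟩ : ∃ f : MvPolynomial (Fin 5) Ω, f = X 0 ^ 5 * lf (Pt3E_r z j₀ l₀) := ⟨_, rfl⟩
  have evf : ev q x f = pl x z j₀ l₀ := by
    rw [hf, Pt3E_ev 5 h.hq, h.one, one_pow, one_mul, Pt3E_dt_r]
  have evfz : ev q z f = 0 := by
    rw [hf, Pt3E_ev 5 h.hq, Pt3E_dt_r]
    unfold pl
    ring
  have hf0 : ev q x f ≠ 0 := by rw [evf]; exact hjl
  have hnf : dt n (dv (ds D) x f) ≠ 0 := by rw [h.nf]; exact neg_ne_zero.2 hf0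
  have he0 : e 0 = 0 := by rw [h.der, h.one, Derivation.map_one_eq_zero]
  obtain ⟨s, hM⟩ := Pt3E_ne x e v (dv (ds D) x f) n h.one he0 h.ne0 h.nx h.ne nv hnf hc
  -- independence of the form
  have indep : ∀ g, ev q z g = 0 → Pt3E_W x e v (dv (ds D) x g) s * ev q x f =
      ev q x g * Pt3E_W x e v (dv (ds D) x f) s := by
    intro g hg
    have e1 : ev q x (ev q x f • g + (-ev q x g) • f) = 0 := by
      rw [map_add, map_smul, map_smul, smul_eq_mul, smul_eq_mul]
      ring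
    have e2 : ev q z (ev q x f • g + (-ev q x g) • f) = 0 := by
      rw [map_add, map_smul, map_smul, hg, evfz, smul_zero, smul_zero, add_zero]
    obtain ⟨c1, c2, c3, h3⟩ := hE' (dv (ds D) x (ev q x f • g + (-ev q x g) • f))
      (by rw [h.nf, e1, neg_zero]) (hvan _ e1 e2)
    have h4 := Pt3E_W_zero x e v c1 c2 c3 s
    rw [← h3, map_add, map_smul, map_smul, Pt3E_W_add, Pt3E_W_smul, Pt3E_W_smul] at h4
    linear_combination h4
  -- the end
  refine rat_ptE h.frame x 0 h.one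
    (Finset.univ.image z ∪ P1.support.image fun m => coeff m P1) ?_
    (Pt3E_W x e v (dv (ds D) x f) s / ev q x f) (div_ne_zero hM hf0) 10 ?_
  · intro b hb
    rcases Finset.mem_union.1 hb with hb | hb
    · obtain ⟨i, -, rfl⟩ := Finset.mem_image.1 hb
      exact hz i
    · obtain ⟨m, -, rfl⟩ := Finset.mem_image.1 hb
      exact hP1 m
  intro O Δ hΔ hsO m hm hxm
  have hzO : ∀ i, Δ * z i ∈ O := fun i => hsO _ (Finset.mem_union_left _
    (Finset.mem_image_of_mem z (Finset.mem_univ i)))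
  have hPO : ∀ m, Δ * coeff m P1 ∈ O := by
    intro m
    by_cases h0 : coeff m P1 = 0
    · rw [h0, mul_zero]
      exact zero_mem O
    · exact hsO _ (Finset.mem_union_right _
        (Finset.mem_image_of_mem _ (mem_support_iff.2 h0)))
  obtain ⟨⟨j, l⟩, hp, hmax⟩ := Pool.Agent.Helper74.LG.exists_max_coord O
    (fun q : Fin 5 × Fin 5 => pl x z q.1 q.2) (j₀, l₀) hjl
  simp only at hp hmax
  have hmax' : ∀ a b, pl x z a b / pl x z j l ∈ O := fun a b => hmax (a, b)
  obtain ⟨p, hpd⟩ : ∃ p, p = pl x z j l := ⟨_, rfl⟩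
  rw [← hpd] at hp hmax'
  obtain ⟨r, hr⟩ : ∃ r : Fin 5 → Ω, r = fun i => m₀ i / p := ⟨_, rfl⟩
  have hep : m₀ = p • r := by
    funext i
    rw [Pi.smul_apply, smul_eq_mul, hr, mul_div_cancel₀ _ hp]
  have hrO : ∀ i, r i ∈ O := by
    intro i
    have h3 : r i = pl x z j₀ l₀ / p * (if i = c then 1 else 0) -
        pl x z j₀ c / p * (if i = l₀ then 1 else 0) +
        pl x z l₀ c / p * (if i = j₀ then 1 else 0) := by
      rw [hr, hm₀]
      simp only [Pt3E_e]
      ring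
    rw [h3]
    exact add_mem (sub_mem (mul_mem (hmax' _ _) (Pt3E_01 O _)) (mul_mem (hmax' _ _)
      (Pt3E_01 O _))) (mul_mem (hmax' _ _) (Pt3E_01 O _))
  obtain ⟨g, hg⟩ : ∃ g : MvPolynomial (Fin 5) Ω, g = X m ^ 5 * lf (Pt3E_r z j l) := ⟨_, rfl⟩
  have evg : ev q x g = x m ^ 5 * p := by rw [hg, Pt3E_ev 5 h.hq, Pt3E_dt_r, hpd]
  have evgz : ev q z g = 0 := by
    rw [hg, Pt3E_ev 5 h.hq, Pt3E_dt_r]
    unfold pl
    ring
  obtain ⟨x', hx'⟩ : ∃ x' : Fin 5 → Ω, x' = fun l => x l / x m := ⟨_, rfl⟩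
  obtain ⟨c2, hc2⟩ := dv_scale (ds D) x m hm (P1 * lf r)
  obtain ⟨c3, hc3⟩ := dv_scale (ds D) x m hm g
  rw [← hx'] at hc2 hc3
  have hxx : x = x m • x' := by
    funext i
    rw [Pi.smul_apply, smul_eq_mul, hx', mul_div_cancel₀ _ hm]
  obtain ⟨e', he'⟩ : ∃ e' : Fin 5 → Ω, e' = fun l => D none (x l / x m) := ⟨_, rfl⟩
  have hee : e = x m • e' + (D none (x m) / x m) • x := by
    rw [he']
    exact e_loc (D none) x e h.der m hm
  have hvv : v = p • (x m • dv (ds D) x' (P1 * lf r) + c2 • x) := by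
    rw [hv, hep, Pool.Agent.Helper74.Q8.dl_smul_right, Pool.Agent.Helper74.Q8.dl_eq, hc2]
  have key := Pt3E_W_scale x e v (dv (ds D) x g) x' e' (dv (ds D) x' (P1 * lf r))
    (dv (ds D) x' g) (x m) p _ c2 c3 hxx hee hvv hc3 s
  have hGm : Pt3E_W x e v (dv (ds D) x f) s / ev q x f * x m =
      Pt3E_W x' e' (dv (ds D) x' (P1 * lf r)) (dv (ds D) x' g) s := by
    have h3 := indep g evgz
    rw [key, evg] at h3
    have hne : p * x m ^ 4 ≠ 0 := mul_ne_zero hp (pow_ne_zero _ hm)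
    rw [div_mul_eq_mul_div, div_eq_iff hf0]
    apply mul_left_cancel₀ hne
    linear_combination - h3
  rw [hGm]
  -- bounds
  have hΔO : Δ ∈ O := hΔ.1
  have hx'O : ∀ l, x' l ∈ O := by
    intro l
    rw [hx']
    exact hxm l
  have b0 : ∀ i, Δ ^ 2 * x' i ∈ O := fun i => mul_mem (pow_mem hΔO 2) (hx'O i)
  have b1 : ∀ i, Δ ^ 2 * e' i ∈ O := by
    intro i
    have h3 : Δ * D none (x' i) ∈ O := hΔ.2 none _ (hx'O i)
    have h4 : e' i = D none (x' i) := by rw [he', hx']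
    rw [h4, pow_two, mul_assoc]
    exact mul_mem hΔO h3
  have b2 : ∀ i, Δ ^ 2 * dv (ds D) x' (P1 * lf r) i ∈ O := by
    intro i
    refine dv_bdd (ds D) x' O Δ (ds_bdd hΔ) hx'O (P1 * lf r) 1 ?_ i
    intro mm
    rw [pow_one, mul_comm P1]
    refine Pt3E_int_mul O Δ (lf r) P1 ?_ hPO mm
    intro mm
    have h3 := Pt3E_int_lf O 1 r (fun i => by rw [one_mul]; exact hrO i) mm
    rwa [one_mul] at h3
  have b3 : ∀ i, Δ ^ 2 * dv (ds D) x' g i ∈ O := by
    intro i
    refine dv_bdd (ds D) x' O Δ (ds_bdd hΔ) hx'O g 1 ?_ i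
    intro mm
    rw [pow_one, hg]
    refine Pt3E_int_mul O Δ _ _ (Pt3E_int_pow O 5 m) (Pt3E_int_lf O Δ _ ?_) mm
    intro i
    unfold Pt3E_r
    rw [mul_sub, ← mul_assoc, ← mul_assoc]
    exact sub_mem (mul_mem (hzO _) (Pt3E_01 O _)) (mul_mem (hzO _) (Pt3E_01 O _))
  have h5 := Pt3E_W_bdd O (Δ ^ 2) (pow_mem hΔO 2) x' e' (dv (ds D) x' (P1 * lf r))
    (dv (ds D) x' g) s b0 b1 b2 b3
  rw [← pow_mul] at h5
  exact h5

end Pool.Agent.Helper10.Q46
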