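import Pool.Agent.Helper10.Q46.AnnPtE
import Pool.Agent.Helper10.Q46.Pt3E
import Pool.Agent.Helper10.Q46.MatsE
import Pool.Agent.Helper6.QS.Rat
import Pool.Agent.Helper74.Q8.Tri
import Pool.Agent.Helper74.Q8.Tri

/-!
# Q46-CASETE: the triangular case

Write `A_P = um (ds D) x l θ P`. `w . A_P v = 0 = w . v` (dimension 2): `A_P v = f(P) v` and
`w A_P = g(P) w` with linear functionals `f, g` (`tri_eig` of `Helper74/Q8/Tri.lean` if it helps);
`f(P) + g(P)` = trace, `f(P) g(P)` = determinant, in `B` for rational `P` (`tracesE`), so `f(P)` is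
algebraic over `B`, so in `B` (`rat_alg`, `m.pl.pt.frame.frame`). `f(P1) = 1`. `f` only sees the part of
degree 5 (`dv_part`, `q = 5 + 1`). `A_(C k_i) = 0`: `θ_j . D_(C k_i l_i') x = θ_j . D_(C l_i' k_i) x = 0`
(`dl_comm`, `kp`, `tx`, `te`), so `f(C k_i) = 0`. Let `l' = w_0 l_0 + w_1 l_1` (not in the span of `k`):
`(A_(C l'))_ij = θ_j . D_(C l_i l') x = (w A_(C l_i))_j = g(C l_i) w_j`, so `A_(C l') v = 0` and
`f(C l') = 0`. `ann_ptE`: `x` rational, or a rational `z ≠ 0` with `k_i . z = 0 = l' . z` and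
`f(P) = 0` if the part of degree 5 of `P` vanishes at `z`. If `z` is a multiple of `x`, then `x` is
rational (`x_0 = 1`). Otherwise `pt3E` with `θ' = v_0 θ_0 + v_1 θ_1`:
for `l'' = ∑ α_i l_i + ..k` in `R`: `θ' . D_(P l'') x = α . (A_P v) = f(P) (α . v)` (*).
`(l_0 . z, l_1 . z)` is orthogonal to `w`, so it is `λ v`; `λ ≠ 0` (otherwise all of `R` kills `z` and
`z` is a multiple of `x`); `l'' . z = λ (α . v)`. `hvan`: modulo degrees different from `q`, `ev q x f = 0`
gives `f = ∑_b P_b lf(rr x 0 b)` (`X_b = lf (rr x 0 b) + x_b X_0`; induction on monomials), so by (*)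
`λ θ' . D_f x = ∑ f(P_b) (rr x 0 b . z)`, and `f(P) = c ev 5 z P` for a constant `c` (from the last
property of `z`), so this is `c ev q z f = 0`. `hne`: the coordinates `θ_j . D_(P1 l') x` are
`(w A_(P1))_j = w_j`, not both zero. `hE`: if `n . v' = 0 = θ' . v'`, the vector `(θ_0 . v', θ_1 . v')` is
orthogonal to `v`, like `w`, so it is a multiple `c3 w`, and `v' - c3 D_(P1 l') x` is in `(x, e)` by `tp`.
-/

set_option autoImplicit false

namespace Pool.Agent.Helper10.Q46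

open scoped BigOperators
open MvPolynomial
open Pool.Agent.Helper8.LG (Bdd form mon)
open Pool.Agent.Helper49.LN (cP mo hf pl)
open Pool.Agent.Helper6.QS
open Pool.Agent.Helper74.Q8 (dl rr dl_comm dl_add dl_smul dl_add_right dl_smul_right dt_add' dt_smul'
  dt_comm' dt_zero' dt_sum' dl_eq dlm dlm_apply)

section CaseTE_gen

variable {Ω : Type*} [Field Ω] {σ : Type*} [Fintype σ] [DecidableEq σ] {q : ℕ}

/-- the matrices of `C lf k` vanish when `k` does not move `x` modulo `e` -/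
theorem CaseTE_k (D : Sym σ q → Derivation ℤ Ω Ω) (x e : σ → Ω) (l : Fin 2 → σ → Ω)
    (θ : Fin 2 → σ → Ω) (htx : ∀ j, dt (θ j) x = 0) (hte : ∀ j, dt (θ j) e = 0) (k : σ → Ω)
    (hk : ∀ P, Par2 x e (dl D x P k)) (C : MvPolynomial σ Ω) : um D x l θ (C * lf k) = 0 := by
  ext i j
  rw [um_apply, dl_comm, (hk (C * lf (l i))).dt (θ j) (htx j) (hte j), Matrix.zero_apply]

open scoped Matrix in
/-- the matrices of `C lf l'`, `l' = w_0 l_0 + w_1 l_1` -/
theorem CaseTE_l (D : Sym σ q → Derivation ℤ Ω Ω) (x : σ → Ω) (l : Fin 2 → σ → Ω)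
    (θ : Fin 2 → σ → Ω) (w : Fin 2 → Ω) (C : MvPolynomial σ Ω)
    (i j : Fin 2) : um D x l θ (C * lf (w 0 • l 0 + w 1 • l 1)) i j =
      (w ᵥ* um D x l θ (C * lf (l i))) j := by
  rw [um_apply, dl_comm, dl_add_right, dl_smul_right, dl_smul_right, dt_add', dt_smul', dt_smul',
    Matrix.vecMul, dotProduct, Fin.sum_univ_two, um_apply, um_apply]

/-- only one part counts -/
theorem CaseTE_part (D : Sym σ q → Derivation ℤ Ω Ω) (x : σ → Ω) (l : Fin 2 → σ → Ω)
    (θ : Fin 2 → σ → Ω) (n : ℕ) (hq : n + 1 = q) (P : MvPolynomial σ Ω) :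
    um D x l θ P = um D x l θ (homogeneousComponent n P) := by
  ext i j
  rw [um_apply, um_apply, dl_eq, dl_eq, dv_part D x n 1 hq P (lf (l i)) (lf_hom (l i))]

omit [Fintype σ] [DecidableEq σ] in
theorem CaseTE_alg {B : Subfield Ω} (f g : Ω) (ht : f + g ∈ B) (hd : f * g ∈ B) :
    IsAlgebraic B f := by
  obtain ⟨t, ht'⟩ : ∃ t : B, (t : Ω) = f + g := ⟨⟨_, ht⟩, rfl⟩
  obtain ⟨d, hd'⟩ : ∃ d : B, (d : Ω) = f * g := ⟨⟨_, hd⟩, rfl⟩
  refine ⟨Polynomial.X ^ 2 - Polynomial.C t * Polynomial.X + Polynomial.C d, ?_, ?_⟩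
  · intro h
    have h1 := congrArg (fun p => Polynomial.coeff p 2) h
    simp at h1
  · have h1 : algebraMap B Ω t = f + g := ht'
    have h2 : algebraMap B Ω d = f * g := hd'
    simp only [map_add, map_sub, map_mul, map_pow, Polynomial.aeval_X, Polynomial.aeval_C, h1, h2]
    ring

open scoped Matrix in
/-- the eigenvalue functional -/
theorem CaseTE_fun (D : Sym σ q → Derivation ℤ Ω Ω) (x e : σ → Ω) (l : Fin 2 → σ → Ω)
    (θ : Fin 2 → σ → Ω) (v w : Fin 2 → Ω) (hv : v ≠ 0) (hwv : w ⬝ᵥ v = 0)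
    (f g : MvPolynomial σ Ω →ₗ[Ω] Ω) (hf : ∀ P, um D x l θ P *ᵥ v = f P • v)
    (hg : ∀ P, w ᵥ* um D x l θ P = g P • w) {ι : Type*} (k : ι → σ → Ω)
    (htx : ∀ j, dt (θ j) x = 0) (hte : ∀ j, dt (θ j) e = 0)
    (hk : ∀ P i, Par2 x e (dl D x P (k i))) (n : ℕ) (hq : n + 1 = q) :
    (∀ P, f P = f (homogeneousComponent n P)) ∧ (∀ C i, f (C * lf (k i)) = 0) ∧
      ∀ C, f (C * lf (w 0 • l 0 + w 1 • l 1)) = 0 := by
  have hv' : ∀ a b : Ω, a • v = b • v → a = b := fun a b h => smul_left_injective Ω hv h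
  refine ⟨fun P => ?_, fun C i => ?_, fun C => ?_⟩
  · apply hv'
    rw [← hf, ← hf, ← CaseTE_part D x l θ n hq P]
  · apply hv'
    rw [← hf, CaseTE_k D x e l θ htx hte (k i) (fun P => hk P i) C, Matrix.zero_mulVec, zero_smul]
  · apply hv'
    rw [← hf, zero_smul]
    funext i
    rw [Matrix.mulVec, dotProduct, Fin.sum_univ_two, CaseTE_l, CaseTE_l, hg, Pi.smul_apply,
      Pi.smul_apply, smul_eq_mul, smul_eq_mul, Pi.zero_apply]
    rw [dotProduct, Fin.sum_univ_two] at hwv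
    linear_combination (g (C * lf (l i))) * hwv

theorem CaseTE_lf_rr (x : σ → Ω) (o : σ) (hx : x o = 1) (b : σ) :
    (lf (rr x o b) : MvPolynomial σ Ω) = X b - x b • X o := by
  unfold lf rr
  simp [hx, sub_smul, Finset.sum_sub_distrib]

/-- the induction on monomials -/
theorem CaseTE_mo (x : σ → Ω) (o : σ) (hx : x o = 1) (L : MvPolynomial σ Ω →ₗ[Ω] Ω)
    (hL : ∀ P b, L (P * lf (rr x o b)) = 0) (K : Multiset σ) (r : ℕ) :
    L (mo Ω K * X o ^ r) = (K.map x).prod * L (X o ^ (Multiset.card K + r)) := by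
  induction K using Multiset.induction_on generalizing r with
  | empty => simp [mo]
  | cons b K ih =>
    have h1 : mo Ω (b ::ₘ K) = X b * mo Ω K := by
      rw [mo, mo, Multiset.map_cons, Multiset.prod_cons]
    have h2 := hL (mo Ω K * X o ^ r) b
    rw [CaseTE_lf_rr x o hx, mul_sub, map_sub, mul_smul_comm, map_smul, sub_eq_zero,
      smul_eq_mul] at h2
    have h3 : mo Ω K * X o ^ r * X o = mo Ω K * X o ^ (r + 1) := by
      rw [pow_succ, mul_assoc]
    rw [h3, ih (r + 1)] at h2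
    have h4 : mo Ω (b ::ₘ K) * X o ^ r = mo Ω K * X o ^ r * X b := by
      rw [h1]
      ring
    rw [h4, h2, Multiset.map_cons, Multiset.prod_cons, Multiset.card_cons,
      show Multiset.card K + (r + 1) = Multiset.card K + 1 + r by ring]
    ring

/-- a functional which kills the forms vanishing at `x` is a multiple of the value at `x` -/
theorem CaseTE_eval (x : σ → Ω) (o : σ) (hx : x o = 1) (L : MvPolynomial σ Ω →ₗ[Ω] Ω)
    (hL : ∀ P b, L (P * lf (rr x o b)) = 0)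
    (hdeg : ∀ f k, f.IsHomogeneous k → k ≠ q → L f = 0) (F : MvPolynomial σ Ω) :
    L F = ev q x F * L (X o ^ q) := by
  have h1 : ∀ K : Multiset σ, L (mo Ω K) = ev q x (mo Ω K) * L (X o ^ q) := by
    intro K
    by_cases hK : Multiset.card K = q
    · have h2 := CaseTE_mo x o hx L hL K 0
      rw [pow_zero, mul_one, add_zero, hK] at h2
      rw [h2, ev_hom q x _ (hK ▸ Pool.Agent.Helper49.LN.mo_hom K), ev_eval_mo]
    · rw [hdeg _ _ (Pool.Agent.Helper49.LN.mo_hom K) hK]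
      have h3 : ev q x (mo Ω K) = 0 :=
        Pool.Agent.Helper49.LN.cP_hom_ne _ _ _ (Pool.Agent.Helper49.LN.mo_hom K) hK
      rw [h3, zero_mul]
  rw [Pool.Agent.Helper49.LN.mo_span F, map_sum, map_sum, Finset.sum_mul]
  refine Finset.sum_congr rfl fun m _ => ?_
  rw [map_smul, map_smul, h1, smul_eq_mul, smul_eq_mul, mul_assoc]

end CaseTE_gen

theorem CaseTE_dt_left {Ω : Type*} [Field Ω] {σ : Type*} [Fintype σ] (l : Fin 2 → σ → Ω)
    (w : Fin 2 → Ω) (x : σ → Ω) :
    dt (w 0 • l 0 + w 1 • l 1) x = w 0 * dt (l 0) x + w 1 * dt (l 1) x := by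
  rw [dt_comm', dt_add', dt_smul', dt_smul', dt_comm' x, dt_comm' x]

/-- `l'` is not in the span of `k` -/
theorem CaseTE_ind {Ω : Type*} [Field Ω] {σ : Type*} {m : ℕ} (k : Fin m → σ → Ω)
    (l : Fin 2 → σ → Ω) (hind : LinearIndependent Ω (Sum.elim k l)) (w : Fin 2 → Ω) (hw : w ≠ 0) :
    w 0 • l 0 + w 1 • l 1 ∉ Submodule.span Ω (Set.range k) := by
  intro h
  obtain ⟨-, h2, h3⟩ := linearIndependent_sum.1 hind
  rw [Sum.elim_comp_inl, Sum.elim_comp_inr] at h3
  rw [Sum.elim_comp_inr] at h2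
  have h4 : w 0 • l 0 + w 1 • l 1 ∈ Submodule.span Ω (Set.range l) :=
    Submodule.add_mem _ (Submodule.smul_mem _ _ (Submodule.subset_span ⟨0, rfl⟩))
      (Submodule.smul_mem _ _ (Submodule.subset_span ⟨1, rfl⟩))
  have h5 := Submodule.disjoint_def.1 h3 _ h h4
  have h6 := Fintype.linearIndependent_iff.1 h2 w (by rw [Fin.sum_univ_two]; exact h5)
  exact hw (funext h6)

theorem CaseTE_rr {Ω : Type*} [Field Ω] {σ : Type*} [Fintype σ] [DecidableEq σ] (x z : σ → Ω)
    (o b : σ) : dt (rr x o b) z = pl x z o b := by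
  unfold dt rr pl
  simp only [sub_mul, mul_assoc, ite_mul, one_mul, zero_mul, Finset.sum_sub_distrib,
    mul_ite, mul_zero, Finset.sum_ite_eq', Finset.mem_univ, if_true]

/-- two vectors orthogonal to `w` are proportional -/
theorem CaseTE_mult {Ω : Type*} [Field Ω] (v w : Fin 2 → Ω) (hv : v ≠ 0) (hw : w ≠ 0)
    (hwv : w 0 * v 0 + w 1 * v 1 = 0) (u0 u1 : Ω) (hu : w 0 * u0 + w 1 * u1 = 0) :
    ∃ c, u0 = c * v 0 ∧ u1 = c * v 1 := by
  have hcross : u0 * v 1 = u1 * v 0 := by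
    have h0 : w 0 * (u0 * v 1 - u1 * v 0) = 0 := by
      linear_combination v 1 * hu - u1 * hwv
    have h1 : w 1 * (u0 * v 1 - u1 * v 0) = 0 := by
      linear_combination -v 0 * hu + u0 * hwv
    by_contra hne
    have hne' : u0 * v 1 - u1 * v 0 ≠ 0 := sub_ne_zero.mpr hne
    apply hw
    funext i
    fin_cases i
    · exact (mul_eq_zero.1 h0).resolve_right hne'
    · exact (mul_eq_zero.1 h1).resolve_right hne'
  by_cases h0 : v 0 = 0
  · have h1 : v 1 ≠ 0 := by
      intro h1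
      apply hv
      funext i
      fin_cases i
      · exact h0
      · exact h1
    refine ⟨u1 / v 1, ?_, ?_⟩
    · rw [h0, mul_zero] at hcross
      rw [h0, mul_zero]
      exact (mul_eq_zero.1 hcross).resolve_right h1
    · rw [div_mul_cancel₀ _ h1]
  · refine ⟨u0 / v 0, ?_, ?_⟩
    · rw [div_mul_cancel₀ _ h0]
    · rw [div_mul_eq_mul_div, hcross, mul_div_assoc, div_self h0, mul_one]

variable {Ω : Type*} [Field Ω] [CharZero Ω] {q : ℕ}
  {D : Option (Sym (Fin 5) q) → Derivation ℤ Ω Ω} {a : Sym (Fin 5) q → Ω} {B : Subfield Ω}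
  {x e n : Fin 5 → Ω}

open scoped Matrix in
theorem case_tE {k : Fin 2 → Fin 5 → Ω} {l : Fin 2 → Fin 5 → Ω} {θ : Fin 2 → Fin 5 → Ω}
    {P1 : MvPolynomial (Fin 5) Ω} (m : MtE D a B x e n k l θ P1) (v w : Fin 2 → Ω) (hv : v ≠ 0)
    (hw : w ≠ 0) (hwv : w ⬝ᵥ v = 0) (hM : ∀ P, w ⬝ᵥ (um (ds D) x l θ P *ᵥ v) = 0) :
    ∀ i, x i ∈ B := by
  have pl' := m.pl
  have hq : 5 + 1 = q := pl'.pt.hq.symm
  obtain ⟨f, g, hf, hg, ht⟩ := Pool.Agent.Helper74.Q8.tri_eig (um (ds D) x l θ) v w hv hw hwv hM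
  have hB : ∀ P, RatP B P → f P ∈ B := fun P hP => by
    obtain ⟨h1, h2, -⟩ := tracesE (um (ds D) x l θ) P1 m.r1 m.a1 m.det P P hP hP
    exact rat_alg pl'.pt.frame.frame _ (CaseTE_alg (f P) (g P) (by rw [← (ht P).1]; exact h1)
      (by rw [← (ht P).2]; exact h2))
  obtain ⟨p0, k0, l0⟩ := CaseTE_fun (ds D) x e l θ v w hv hwv f g hf hg k m.tx m.te pl'.kp 5 hq
  have hv' : ∀ a b : Ω, a • v = b • v → a = b := fun a b h => smul_left_injective Ω hv h
  have e01 : f P1 = 1 := hv' _ _ (by rw [← hf, m.a1, Matrix.one_mulVec, one_smul])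
  have hwv2 : w 0 * v 0 + w 1 * v 1 = 0 := by
    rw [dotProduct, Fin.sum_univ_two] at hwv
    exact hwv
  obtain ⟨l', hl'⟩ : ∃ l', l' = w 0 • l 0 + w 1 • l 1 := ⟨_, rfl⟩
  rw [← hl'] at l0
  have hldt : ∀ y, dt l' y = w 0 * dt (l 0) y + w 1 * dt (l 1) y := fun y => by
    rw [hl', CaseTE_dt_left]
  have hlx : dt l' x = 0 := by
    rw [hldt, pl'.lx, pl'.lx, mul_zero, mul_zero, add_zero]
  have hli : l' ∉ Submodule.span Ω (Set.range k) := by
    rw [hl']
    exact CaseTE_ind k l pl'.ind w hw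
  rcases ann_ptE pl' l' hlx hli f (fun h => by rw [h] at e01; exact zero_ne_one e01) hB p0 k0 l0
    with h | ⟨z, hzB, hz0, hzk, hzl, hzf⟩
  · exact h
  by_cases hzx : ∃ j l, pl x z j l ≠ 0
  swap
  · push Not at hzx
    have h1 : ∀ i, z i = x i * z 0 := by
      intro i
      have h2 := hzx 0 i
      unfold pl at h2
      rw [pl'.pt.one, one_mul, sub_eq_zero] at h2
      exact h2
    have h3 : z 0 ≠ 0 := by
      intro h3
      apply hz0
      funext i
      rw [h1, h3, mul_zero]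
      rfl
    intro i
    have h4 : x i = z i / z 0 := by
      rw [h1 i, mul_div_assoc, div_self h3, mul_one]
    rw [h4]
    exact B.div_mem (hzB i) (hzB 0)
  -- the functional
  obtain ⟨θ', hθ'⟩ : ∃ θ', θ' = v 0 • θ 0 + v 1 • θ 1 := ⟨_, rfl⟩
  have hθdt : ∀ y, dt θ' y = v 0 * dt (θ 0) y + v 1 * dt (θ 1) y := fun y => by
    rw [hθ', CaseTE_dt_left]
  have hθl : ∀ P i, dt θ' (dl (ds D) x P (l i)) = f P * v i := by
    intro P i
    have h1 := congrFun (hf P) i
    rw [Matrix.mulVec, dotProduct, Fin.sum_univ_two, um_apply, um_apply, Pi.smul_apply,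
      smul_eq_mul] at h1
    rw [hθdt, ← h1]
    ring
  have hθk : ∀ P i, dt θ' (dl (ds D) x P (k i)) = 0 := by
    intro P i
    rw [hθdt, (pl'.kp P i).dt (θ 0) (m.tx 0) (m.te 0), (pl'.kp P i).dt (θ 1) (m.tx 1) (m.te 1),
      mul_zero, mul_zero, add_zero]
  have hlzs : w 0 * dt (l 0) z + w 1 * dt (l 1) z = 0 := by
    rw [← hldt]
    exact hzl
  obtain ⟨lam, hlam0, hlam1⟩ := CaseTE_mult v w hv hw hwv2 _ _ hlzs
  have hlam : ∀ i, dt (l i) z = lam * v i := by
    intro i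
    fin_cases i
    · exact hlam0
    · exact hlam1
  -- (**)
  have hstar : ∀ P l'', dt l'' x = 0 → lam * dt θ' (dl (ds D) x P l'') = f P * dt l'' z := by
    intro P l'' hl''
    obtain ⟨α, β, rfl⟩ := pl'.span l'' hl''
    have h1 : dl (ds D) x P (∑ i, α i • k i + ∑ i, β i • l i) =
        ∑ i, α i • dl (ds D) x P (k i) + ∑ i, β i • dl (ds D) x P (l i) := by
      have h2 := (dlm (ds D) x P).map_add (∑ i, α i • k i) (∑ i, β i • l i)
      rw [map_sum, map_sum] at h2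
      simp only [map_smul, dlm_apply] at h2
      exact h2
    have h3 : dt (∑ i, α i • k i + ∑ i, β i • l i) z = ∑ i, β i * (lam * v i) := by
      rw [dt_comm', dt_add', dt_sum', dt_sum']
      simp only [dt_smul']
      rw [Finset.sum_eq_zero fun i _ => by rw [dt_comm', hzk i, mul_zero], zero_add]
      refine Finset.sum_congr rfl fun i _ => ?_
      rw [dt_comm', hlam]
    rw [h1, h3, dt_add', dt_sum', dt_sum']
    simp only [dt_smul', hθl, hθk, mul_zero, Finset.sum_const_zero, zero_add]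
    rw [Finset.mul_sum, Finset.mul_sum]
    refine Finset.sum_congr rfl fun i _ => ?_
    ring
  have hlam_ne : lam ≠ 0 := by
    intro h0
    obtain ⟨j, i, hji⟩ := hzx
    apply hji
    rw [← CaseTE_rr]
    obtain ⟨α, β, hαβ⟩ := pl'.span (rr x j i) (by
      rw [CaseTE_rr]
      unfold pl
      ring)
    rw [hαβ, dt_comm', dt_add', dt_sum', dt_sum']
    simp only [dt_smul']
    rw [Finset.sum_eq_zero fun i _ => by rw [dt_comm', hzk i, mul_zero], zero_add]
    refine Finset.sum_eq_zero fun i _ => ?_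
    rw [dt_comm', hlam, h0, zero_mul, mul_zero]
  -- `f = c ev 5 z`
  obtain ⟨y1, hy1⟩ : ∃ y1, y1 = eval z (homogeneousComponent 5 P1) := ⟨_, rfl⟩
  have hy1ne : y1 ≠ 0 := by
    intro h0
    have h1 := hzf P1 (by rw [← hy1, h0])
    rw [e01] at h1
    exact one_ne_zero h1
  have hfz : ∀ P, y1 * f P = ev 5 z P := by
    intro P
    have h1 := hzf (y1 • P - (eval z (homogeneousComponent 5 P)) • P1) (by
      rw [map_sub, map_smul, map_smul, map_sub, smul_eval, smul_eval, ← hy1]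
      ring)
    rw [map_sub, map_smul, map_smul, e01, smul_eq_mul, smul_eq_mul, mul_one, sub_eq_zero] at h1
    rw [h1, ev_part]
  have hevlf : ∀ (y : Fin 5 → Ω) (P : MvPolynomial (Fin 5) Ω) (l'' : Fin 5 → Ω),
      ev q y (P * lf l'') = ev 5 y P * dt l'' y := by
    intro y P l''
    rw [← ev_lf]
    exact congrArg (fun r => ev r y (P * lf l'')) hq.symm
  have h1 : ∀ j, dt (θ j) (dl (ds D) x P1 l') = w j := by
    have h2 : ∀ j, dt (θ j) (dl (ds D) x P1 l') = w 0 * (1 : Matrix (Fin 2) (Fin 2) Ω) 0 j +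
        w 1 * (1 : Matrix (Fin 2) (Fin 2) Ω) 1 j := by
      intro j
      rw [hl', dl_add_right, dl_smul_right, dl_smul_right, dt_add', dt_smul', dt_smul',
        ← um_apply (ds D) x l θ P1 0 j, ← um_apply (ds D) x l θ P1 1 j, m.a1]
    refine Fin.forall_fin_two.2 ⟨?_, ?_⟩
    · rw [h2, Matrix.one_apply_eq, Matrix.one_apply_ne (by decide : (1 : Fin 2) ≠ 0), mul_one,
        mul_zero, add_zero]
    · rw [h2, Matrix.one_apply_eq, Matrix.one_apply_ne (by decide : (0 : Fin 2) ≠ 1), mul_one,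
        mul_zero, zero_add]
  refine pt3E pl'.pt z hzB hzx θ' ?_ ?_ l' hlx hzl P1 m.r1 ?_ ?_ ?_
  · rw [hθdt, m.tx, m.tx, mul_zero, mul_zero, add_zero]
  · rw [hθdt, m.te, m.te, mul_zero, mul_zero, add_zero]
  · intro hpar
    apply hw
    funext j
    rw [← h1 j, hpar.dt (θ j) (m.tx j) (m.te j)]
    rfl
  · intro v' hnv hθv
    rw [hθdt] at hθv
    have hvw : v 0 * w 0 + v 1 * w 1 = 0 := by linear_combination hwv2
    obtain ⟨c3, hc0, hc1⟩ := CaseTE_mult w v hw hv hvw _ _ hθv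
    have hpar : Par2 x e (v' + (-c3) • dl (ds D) x P1 l') := by
      apply m.tp
      · rw [dt_add', dt_smul', hnv, dl_eq, pl'.pt.nf, hevlf, hlx]
        ring
      · intro j
        rw [dt_add', dt_smul', h1]
        fin_cases j
        · show dt (θ 0) v' + -c3 * w 0 = 0
          rw [hc0]
          ring
        · show dt (θ 1) v' + -c3 * w 1 = 0
          rw [hc1]
          ring
    obtain ⟨c1, c2, h2⟩ := hpar
    refine ⟨c1, c2, c3, ?_⟩
    rw [← h2, neg_smul]
    abel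
  · intro F hFx hFz
    obtain ⟨L, hL⟩ : ∃ L : MvPolynomial (Fin 5) Ω →ₗ[Ω] Ω, ∀ G, L G =
        y1 * lam * dt θ' (dv (ds D) x G) - ev q z G := by
      refine ⟨{ toFun := fun G => y1 * lam * dt θ' (dv (ds D) x G) - ev q z G
                map_add' := fun G G' => ?_
                map_smul' := fun c G => ?_ }, fun G => rfl⟩
      · rw [map_add, map_add, dt_add']
        ring
      · rw [map_smul, map_smul, dt_smul', smul_eq_mul, RingHom.id_apply, smul_eq_mul]
        ring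
    have hL1 : ∀ P b, L (P * lf (rr x 0 b)) = 0 := by
      intro P b
      have h1 := hstar P (rr x 0 b) (by
        rw [CaseTE_rr]
        unfold pl
        ring)
      rw [hL, ← dl_eq, hevlf, ← hfz P]
      linear_combination y1 * h1
    have hdeg : ∀ f k, f.IsHomogeneous k → k ≠ q → L f = 0 := by
      intro f k hfk hk
      have h1 : dv (ds D) x f = 0 := Pool.Agent.Helper49.LN.cP_hom_ne _ _ k hfk hk
      have h2 : ev q z f = 0 := Pool.Agent.Helper49.LN.cP_hom_ne _ _ k hfk hk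
      rw [hL, h1, h2, dt_zero', mul_zero, sub_zero]
    have h3 := CaseTE_eval x 0 pl'.pt.one L hL1 hdeg F
    rw [hFx, zero_mul, hL, hFz, sub_zero] at h3
    exact (mul_eq_zero.1 h3).resolve_left (mul_ne_zero hy1ne hlam_ne)

end Pool.Agent.Helper10.Q46
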