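import Pool.Agent.Helper10.Q46.Defs
import Pool.Agent.Helper74.Q8.ConicCount8

/-!
# Q46-CONICCOUNTE: a generic sextic threefold contains no plane conic (as a component of a section)

Copy of `Helper74/Q8/ConicCount8.lean` (most lemmas there are general) with `q = 6`, two forms `k_i` in
five variables, `deg A_i = 5`, `deg C = 4`, `deg Q = 2`: all forms of degree 6 in 3 variables
(dimension 28) would be combinations `∑ M_i A_i' + N C' + Q' E`, `M_i` linear (dimension 3 each),
`N` quadratic (6), `E` of degree 4 (15): `3 * 2 + 6 + 15 = 27 < 28`. Keep `q` a variable.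
-/

set_option autoImplicit false

namespace Pool.Agent.Helper10.Q46

open scoped BigOperators
open MvPolynomial
open Pool.Agent.Helper8.LG (Bdd form mon)
open Pool.Agent.Helper49.LN (cP mo hf pl)
open Pool.Agent.Helper6.QS
open Pool.Agent.Helper74.Q8 (dl rr conicCount8_phi conicCount8_phi_lf conicCount8_phi_hom
  conicCount8_surj lf_zero')

section CCE

variable {Ω : Type*} [Field Ω]

/-- a surjection with given kernel vectors -/
theorem ConicCountE_ex (k : Fin 2 → Fin 5 → Ω) (hk : LinearIndependent Ω k) :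
    ∃ g : (Fin 5 → Ω) →ₗ[Ω] (Fin 3 → Ω), Function.Surjective g ∧ ∀ i, g (k i) = 0 := by
  have h1 : Module.finrank Ω ((Fin 5 → Ω) ⧸ Submodule.span Ω (Set.range k)) =
      Module.finrank Ω (Fin 3 → Ω) := by
    have h2 := Submodule.finrank_quotient_add_finrank (Submodule.span Ω (Set.range k))
    rw [finrank_span_eq_card hk, Fintype.card_fin, Module.finrank_fintype_fun_eq_card,
      Fintype.card_fin] at h2
    rw [Module.finrank_fintype_fun_eq_card, Fintype.card_fin]
    omega
  let e := LinearEquiv.ofFinrankEq _ _ h1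
  refine ⟨e.toLinearMap ∘ₗ (Submodule.span Ω (Set.range k)).mkQ, ?_, fun i => ?_⟩
  · intro y
    obtain ⟨z, hz⟩ := Submodule.mkQ_surjective _ (e.symm y)
    refine ⟨z, ?_⟩
    rw [LinearMap.comp_apply, hz]
    exact e.apply_symm_apply y
  · rw [LinearMap.comp_apply, Submodule.mkQ_apply,
      (Submodule.Quotient.mk_eq_zero _).2 (Submodule.subset_span (Set.mem_range_self i)), map_zero]

/-- the combinations `∑ M_i A_i + N C + Q E` -/
noncomputable def ConicCountE_psi (A : Fin 2 → MvPolynomial (Fin 3) Ω)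
    (C Q : MvPolynomial (Fin 3) Ω) :
    ((Fin 2 × Sym (Fin 3) 1 → Ω) × (Sym (Fin 3) 2 → Ω) × (Sym (Fin 3) 4 → Ω)) →ₗ[Ω]
      MvPolynomial (Fin 3) Ω where
  toFun w := (∑ i, (∑ J, w.1 (i, J) • Pool.Agent.Helper49.LN.mo Ω (J : Multiset (Fin 3))) * A i) +
    (∑ J, w.2.1 J • Pool.Agent.Helper49.LN.mo Ω (J : Multiset (Fin 3))) * C +
    Q * ∑ J, w.2.2 J • Pool.Agent.Helper49.LN.mo Ω (J : Multiset (Fin 3))
  map_add' w w' := by
    simp only [Prod.fst_add, Prod.snd_add, Pi.add_apply, add_smul, Finset.sum_add_distrib,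
      add_mul]
    ring
  map_smul' t w := by
    simp only [Prod.smul_fst, Prod.smul_snd, Pi.smul_apply, smul_eq_mul, mul_smul,
      ← Finset.smul_sum, RingHom.id_apply, smul_add, smul_mul_assoc, mul_smul_comm]

end CCE

theorem conic_countE {Ω : Type*} [Field Ω] {q : ℕ} (hq : q = 6)
    (D : Sym (Fin 5) q → Derivation ℤ Ω Ω) (a : Sym (Fin 5) q → Ω)
    (hD : ∀ I J, D J (a I) = if I = J then 1 else 0) (k : Fin 2 → Fin 5 → Ω)
    (hk : LinearIndependent Ω k) (Q C : MvPolynomial (Fin 5) Ω)
    (A : Fin 2 → MvPolynomial (Fin 5) Ω) (hQ : Q.IsHomogeneous 2)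
    (hA : ∀ i, (A i).IsHomogeneous 5) (hC : C.IsHomogeneous 4)
    (hF : ∑ J : Sym (Fin 5) q, a J • Pool.Agent.Helper49.LN.mo Ω (J : Multiset (Fin 5)) =
      ∑ i, lf (k i) * A i + Q * C) : False := by
  obtain ⟨g, hg, hgk⟩ := ConicCountE_ex k hk
  have key : ∀ J : Sym (Fin 5) q, conicCount8_phi g (Pool.Agent.Helper49.LN.mo Ω
      (J : Multiset (Fin 5))) ∈ LinearMap.range (ConicCountE_psi
        (fun i => conicCount8_phi g (A i)) (conicCount8_phi g C) (conicCount8_phi g Q)) := by
    intro J
    have h1 := cc_form D a hD J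
    rw [hF, Fin.sum_univ_two, cc_add, cc_add, cc_mul, cc_mul, cc_mul] at h1
    rw [← h1]
    simp only [map_add, map_mul, conicCount8_phi_lf, hgk, lf_zero', zero_mul, add_zero]
    refine ⟨(fun x => coeff (Multiset.toFinsupp (x.2 : Multiset (Fin 3)))
        (conicCount8_phi g (cc_der (D J) (lf (k x.1)))),
      fun I => coeff (Multiset.toFinsupp (I : Multiset (Fin 3)))
        (conicCount8_phi g (cc_der (D J) Q)),
      fun I => coeff (Multiset.toFinsupp (I : Multiset (Fin 3)))
        (conicCount8_phi g (cc_der (D J) C))), ?_⟩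
    rw [ConicCountE_psi]
    simp only [LinearMap.coe_mk, AddHom.coe_mk]
    rw [Fin.sum_univ_two, cc_sum (conicCount8_phi_hom g (cc_hom (D J) (lf_hom (k 0)))),
      cc_sum (conicCount8_phi_hom g (cc_hom (D J) (lf_hom (k 1)))),
      cc_sum (conicCount8_phi_hom g (cc_hom (D J) hQ)),
      cc_sum (conicCount8_phi_hom g (cc_hom (D J) hC)), add_assoc]
  have key2 : ∀ J : Sym (Fin 3) q, ∃ w, ConicCountE_psi
        (fun i => conicCount8_phi g (A i)) (conicCount8_phi g C) (conicCount8_phi g Q) w =
      Pool.Agent.Helper49.LN.mo Ω (J : Multiset (Fin 3)) := by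
    intro J
    obtain ⟨P, hP, hPJ⟩ := conicCount8_surj g hg J
    rw [← hPJ, ← cc_sum hP, map_sum]
    refine Submodule.sum_mem (LinearMap.range _) fun I _ => ?_
    rw [map_smul]
    exact Submodule.smul_mem _ _ (key I)
  choose w hw using key2
  have hli : LinearIndependent Ω w := by
    refine LinearIndependent.of_comp (ConicCountE_psi
        (fun i => conicCount8_phi g (A i)) (conicCount8_phi g C) (conicCount8_phi g Q)) ?_
    have h3 : (ConicCountE_psi (fun i => conicCount8_phi g (A i)) (conicCount8_phi g C)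
        (conicCount8_phi g Q)) ∘ w =
        fun J : Sym (Fin 3) q => Pool.Agent.Helper49.LN.mo Ω (J : Multiset (Fin 3)) :=
      funext hw
    rw [h3]
    exact cc_indep q
  have h4 := hli.fintype_card_le_finrank
  rw [Module.finrank_prod, Module.finrank_prod, Module.finrank_fintype_fun_eq_card,
    Module.finrank_fintype_fun_eq_card, Module.finrank_fintype_fun_eq_card, Fintype.card_prod,
    Sym.card_sym_eq_choose, Sym.card_sym_eq_choose, Sym.card_sym_eq_choose,
    Sym.card_sym_eq_choose, Fintype.card_fin] at h4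
  have h5 : (3 + 6 - 1).choose 6 ≤ 2 * (3 + 1 - 1).choose 1 + ((3 + 2 - 1).choose 2 +
      (3 + 4 - 1).choose 4) := by
    rw [hq] at h4
    exact h4
  revert h5
  decide

end Pool.Agent.Helper10.Q46
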