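import Pool.Agent.Helper10.Q46.Defs
import Pool.Agent.Helper74.Q8.ConicDiv8

/-!
# Q46-CONICDIVE: a point on a rational conic in the plane `k_0 = k_1 = 0` in `P^4`

Copy of `Helper74/Q8/ConicDiv8.lean` (`conic_div8`, there three forms `k_i` in six variables) with two
forms `k_i` in five variables. (It may be possible to deduce it from `conic_div8`: add a variable
`X_5` and `k_2 = X_5`, `x_5 = 0`.)
-/

set_option autoImplicit false

namespace Pool.Agent.Helper10.Q46

open scoped BigOperators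
open MvPolynomial
open Pool.Agent.Helper8.LG (Bdd form mon)
open Pool.Agent.Helper49.LN (cP mo hf pl)
open Pool.Agent.Helper6.QS
open Pool.Agent.Helper74.Q8 (dl rr)

section lin

variable {K : Type*} [Field K]

theorem ConicDivE_compl (k : Fin 2 → Fin 5 → K) (hk : LinearIndependent K k) :
    ∃ b : Module.Basis (Fin 2 ⊕ Fin 3) K (Fin 5 → K), ∀ i, b (Sum.inl i) = k i := by
  obtain ⟨W', hW'⟩ := Submodule.exists_isCompl (Submodule.span K (Set.range k))
  have h1 : Module.finrank K (Submodule.span K (Set.range k)) = 2 := by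
    rw [finrank_span_eq_card hk, Fintype.card_fin]
  have h2 := Submodule.finrank_add_eq_of_isCompl hW'
  rw [h1, Module.finrank_fintype_fun_eq_card, Fintype.card_fin] at h2
  have h3 : Module.finrank K W' = 3 := by omega
  obtain ⟨bW⟩ : Nonempty (Module.Basis (Fin 3) K W') := ⟨Module.finBasisOfFinrankEq K W' h3⟩
  refine ⟨((Module.Basis.span hk).prod bW).map (Submodule.prodEquivOfIsCompl _ _ hW'), ?_⟩
  intro i
  simp [Module.Basis.span_apply]

theorem ConicDivE_basis (k : Fin 2 → Fin 5 → K) (hk : LinearIndependent K k) :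
    ∃ (E G : Fin 3 → Fin 5 → K) (c : Fin 5 → Fin 2 → K),
      (∀ m r, ∑ i, k m i * E r i = 0) ∧
      (∀ r l, ∑ i, G r i * E l i = if r = l then 1 else 0) ∧
      (∀ i l, (if i = l then 1 else 0) - ∑ r, E r i * G r l = ∑ m, c i m * k m l) := by
  classical
  obtain ⟨b, hb⟩ := ConicDivE_compl k hk
  have e1 : ∀ j m, ∑ i, b j i * b.repr (Pi.single i 1) m = if j = m then 1 else 0 := by
    intro j m
    have h1 : b j = ∑ i, b j i • (Pi.single i (1 : K) : Fin 5 → K) := by
      rw [← Finset.univ_sum_single (b j)]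
      refine Finset.sum_congr rfl fun i _ => ?_
      funext l
      simp [Pi.single_apply]
    have h2 : b.repr (b j) m = if j = m then 1 else 0 := by
      rw [b.repr_self, Finsupp.single_apply]
    rw [← h2]
    conv_rhs => rw [h1]
    rw [map_sum, Finsupp.finsetSum_apply]
    refine Finset.sum_congr rfl fun i _ => ?_
    rw [map_smul, Finsupp.smul_apply, smul_eq_mul]
  have e2 : ∀ i l, ∑ j, b.repr (Pi.single i 1) j * b j l = if i = l then 1 else 0 := by
    intro i l
    have h1 := congrFun (b.sum_repr (Pi.single i (1 : K))) l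
    rw [Finset.sum_apply] at h1
    simp only [Pi.smul_apply, smul_eq_mul] at h1
    rw [h1, Pi.single_apply]
    by_cases h : i = l
    · rw [if_pos h, if_pos h.symm]
    · rw [if_neg h, if_neg (Ne.symm h)]
  refine ⟨fun r i => b.repr (Pi.single i 1) (Sum.inr r), fun r i => b (Sum.inr r) i,
    fun i m => b.repr (Pi.single i 1) (Sum.inl m), ?_, ?_, ?_⟩
  · intro m r
    have := e1 (Sum.inl m) (Sum.inr r)
    rw [hb, if_neg (by simp)] at this
    exact this
  · intro r l
    have := e1 (Sum.inr r) (Sum.inr l)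
    rw [this]
    simp
  · intro i l
    have := e2 i l
    rw [Fintype.sum_sum_type] at this
    rw [← this]
    simp only [hb]
    ring

end lin


theorem ConicDivE_main {Ω : Type*} [Field Ω] [CharZero Ω] {B : Subfield Ω}
    (halg : ∀ y : Ω, IsAlgebraic B y → y ∈ B) (x : Fin 5 → Ω) (hx0 : x 0 = 1)
    (k : Fin 2 → Fin 5 → Ω) (hkx : ∀ i, dt (k i) x = 0)
    (hk : LinearIndependent Ω k) (E G : Fin 3 → Fin 5 → Ω) (c : Fin 5 → Fin 2 → Ω)
    (hEB : ∀ r i, E r i ∈ B) (hGB : ∀ r i, G r i ∈ B)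
    (h1 : ∀ m r, ∑ i, k m i * E r i = 0)
    (h2 : ∀ r l, ∑ i, G r i * E l i = if r = l then 1 else 0)
    (h3 : ∀ i l, (if i = l then 1 else 0) - ∑ r, E r i * G r l = ∑ m, c i m * k m l)
    (y : Fin 3 → Ω) (hyd : ∀ r, y r = ∑ i, G r i * x i) (hy0 : y 0 ≠ 0)
    (Q F : MvPolynomial (Fin 5) Ω)
    (hQ : RatP B Q) (hF : RatP B F) (d : ℕ) (hQ2 : Q.IsHomogeneous 2)
    (hFd : F.IsHomogeneous (d + 2)) (hy : ∃ y, (∀ i, dt (k i) y = 0) ∧ eval y Q ≠ 0)
    (hQx : eval x Q = 0) (hFx : eval x F = 0) :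
    (∀ i, x i ∈ B) ∨
    (∃ h' : Fin 5 → Ω, (∀ i, h' i ∈ B) ∧ LinearIndependent Ω (Matrix.vecCons h' k) ∧
      dt h' x = 0) ∨
    ∃ (A : Fin 2 → MvPolynomial (Fin 5) Ω) (C : MvPolynomial (Fin 5) Ω),
      (∀ i, (A i).IsHomogeneous (d + 1)) ∧ C.IsHomogeneous d ∧
      F = ∑ i, lf (k i) * A i + Q * C := by
  classical
  -- coordinates of a point of the plane
  have hco : ∀ z : Fin 5 → Ω, (∀ i, dt (k i) z = 0) → ∀ i, z i = ∑ r, E r i * ∑ l, G r l * z l := by
    intro z hz i
    have e1 : ∑ l, ((if i = l then 1 else 0) - ∑ r, E r i * G r l) * z l = 0 := by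
      simp only [h3, Finset.sum_mul, mul_assoc]
      rw [Finset.sum_comm]
      simp only [← Finset.mul_sum]
      refine Finset.sum_eq_zero fun m _ => ?_
      have := hz m
      unfold dt at this
      rw [this, mul_zero]
    simp only [sub_mul, Finset.sum_sub_distrib, Finset.sum_mul, mul_assoc] at e1
    rw [Finset.sum_comm] at e1
    simp only [← Finset.mul_sum] at e1
    rw [sub_eq_zero] at e1
    rw [← e1]
    simp
  obtain ⟨g, hg⟩ : ∃ g : Fin 5 → MvPolynomial (Fin 4) Ω, g = fun i => C (E 0 i) * X 0 +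
    C (E 1 i) * X 1 + C (E 2 i) * X 2 := ⟨_, rfl⟩
  have hgh : ∀ i, (g i).IsHomogeneous 1 := by
    intro i
    rw [hg]
    have e1 : ∀ (a : Ω) (j : Fin 4), (C a * X j : MvPolynomial (Fin 4) Ω).IsHomogeneous 1 :=
      fun a j => by simpa using (isHomogeneous_C (Fin 4) a).mul (isHomogeneous_X Ω j)
    exact ((e1 _ _).add (e1 _ _)).add (e1 _ _)
  have hgB : ∀ i, RatP B (g i) := by
    intro i m
    rw [hg]
    simp only [coeff_add, coeff_C_mul, coeff_X]
    refine B.add_mem (B.add_mem (B.mul_mem (hEB _ _) ?_) (B.mul_mem (hEB _ _) ?_))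
      (B.mul_mem (hEB _ _) ?_)
    all_goals
      split_ifs
      · exact B.one_mem
      · exact B.zero_mem
  have hge : ∀ (z : Fin 4 → Ω) (P : MvPolynomial (Fin 5) Ω), eval z (aeval g P) =
      eval (fun i => E 0 i * z 0 + E 1 i * z 1 + E 2 i * z 2) P := by
    intro z P
    have e1 : ∀ {τ : Type} (w : τ → Ω) (R : MvPolynomial τ Ω), eval w R = aeval w R := by
      intro τ w R
      rw [← coe_aeval_eq_eval]
      rfl
    rw [e1, e1, ← AlgHom.comp_apply, comp_aeval]
    congr 2
    funext i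
    rw [hg]
    simp
  have hhom : ∀ (P : MvPolynomial (Fin 5) Ω) (n : ℕ), P.IsHomogeneous n →
      (aeval g P : MvPolynomial (Fin 4) Ω).IsHomogeneous n := by
    intro P n hP
    have := hP.aeval g (n := 1) hgh
    simpa using this
  have hsc : ∀ (P : MvPolynomial (Fin 5) Ω) (n : ℕ), P.IsHomogeneous n → eval x P = 0 →
      eval (fun i => (y 0)⁻¹ * x i) P = 0 := by
    intro P n hP hPx
    have e1 : ∀ {τ : Type} (w : τ → Ω) (R : MvPolynomial τ Ω), eval w R = aeval w R := by
      intro τ w R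
      rw [← coe_aeval_eq_eval]
      rfl
    rw [e1] at hPx ⊢
    rw [ConicDiv_scale hP, hPx, mul_zero]
  obtain ⟨x', hx'⟩ : ∃ x' : Fin 4 → Ω, x' = ![1, y 1 / y 0, y 2 / y 0, 0] := ⟨_, rfl⟩
  have hxe : (fun i => E 0 i * x' 0 + E 1 i * x' 1 + E 2 i * x' 2) =
      fun i => (y 0)⁻¹ * x i := by
    funext i
    rw [hco x hkx i, Fin.sum_univ_three, ← hyd, ← hyd, ← hyd, hx']
    simp
    field_simp
  obtain ⟨yy, hyy, hyQ⟩ := hy
  rcases conic_div halg x' (by rw [hx']; rfl) ![0, 0, 0, 1]
    (by intro i; fin_cases i <;> simp [B.one_mem, B.zero_mem])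
    (by intro h; have := congrFun h 3; simp at this)
    (by rw [hx']; simp [dt, Fin.sum_univ_four])
    (aeval g Q) (aeval g F) (Pool.Agent.Helper74.Q8.ConicDiv8_rat g hgB Q hQ) (Pool.Agent.Helper74.Q8.ConicDiv8_rat g hgB F hF) d
    (hhom Q 2 hQ2) (hhom F (d + 2) hFd)
    ⟨![∑ l, G 0 l * yy l, ∑ l, G 1 l * yy l, ∑ l, G 2 l * yy l, 0],
      by simp [dt, Fin.sum_univ_four], by
        rw [hge]
        have : (fun i => E 0 i * (![∑ l, G 0 l * yy l, ∑ l, G 1 l * yy l, ∑ l, G 2 l * yy l, 0] :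
            Fin 4 → Ω) 0 + E 1 i * (![∑ l, G 0 l * yy l, ∑ l, G 1 l * yy l, ∑ l, G 2 l * yy l, 0] :
            Fin 4 → Ω) 1 + E 2 i * (![∑ l, G 0 l * yy l, ∑ l, G 1 l * yy l, ∑ l, G 2 l * yy l, 0] :
            Fin 4 → Ω) 2) = yy := by
          funext i
          rw [hco yy hyy i, Fin.sum_univ_three]
          rfl
        rw [this]
        exact hyQ⟩
    (by rw [hge, hxe]; exact hsc Q 2 hQ2 hQx) (by rw [hge, hxe]; exact hsc F (d + 2) hFd hFx)
    with h4 | ⟨w, hwB, hwi, hwx⟩ | ⟨A, C', hA, hC', hFF⟩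
  · left
    have e1 : ∀ i, (y 0)⁻¹ * x i ∈ B := by
      intro i
      rw [← congrFun hxe i]
      exact B.add_mem (B.add_mem (B.mul_mem (hEB _ _) (h4 _)) (B.mul_mem (hEB _ _) (h4 _)))
        (B.mul_mem (hEB _ _) (h4 _))
    have e2 : (y 0)⁻¹ ∈ B := by
      have := e1 0
      rwa [hx0, mul_one] at this
    intro i
    have e3 : x i = ((y 0)⁻¹)⁻¹ * ((y 0)⁻¹ * x i) := by
      field_simp
    rw [e3]
    exact B.mul_mem (B.inv_mem e2) (e1 i)
  · right
    left
    refine ⟨fun i => w 0 * G 0 i + w 1 * G 1 i + w 2 * G 2 i, ?_, ?_, ?_⟩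
    · intro i
      exact B.add_mem (B.add_mem (B.mul_mem (hwB _) (hGB _ _)) (B.mul_mem (hwB _) (hGB _ _)))
        (B.mul_mem (hwB _) (hGB _ _))
    · have hdot : ∀ l : Fin 3, ∑ i, (w 0 * G 0 i + w 1 * G 1 i + w 2 * G 2 i) * E l i =
          w 0 * (if 0 = l then 1 else 0) + w 1 * (if 1 = l then 1 else 0) +
            w 2 * (if 2 = l then 1 else 0) := by
        intro l
        rw [← h2 0 l, ← h2 1 l, ← h2 2 l, Finset.mul_sum, Finset.mul_sum, Finset.mul_sum,
          ← Finset.sum_add_distrib, ← Finset.sum_add_distrib]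
        exact Finset.sum_congr rfl fun i _ => by ring
      refine linearIndependent_finCons.mpr ⟨hk, ?_⟩
      intro hmem
      rw [Submodule.mem_span_range_iff_exists_fun] at hmem
      obtain ⟨a, ha⟩ := hmem
      have hz : ∀ l : Fin 3, w 0 * (if 0 = l then 1 else 0) + w 1 * (if 1 = l then 1 else 0) +
            w 2 * (if 2 = l then 1 else 0) = 0 := by
        intro l
        rw [← hdot l]
        have e1 : ∀ i, w 0 * G 0 i + w 1 * G 1 i + w 2 * G 2 i = ∑ m, a m * k m i := by
          intro i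
          have := congrFun ha i
          simp only [Finset.sum_apply, Pi.smul_apply, smul_eq_mul] at this
          exact this.symm
        simp only [e1, Finset.sum_mul, mul_assoc]
        rw [Finset.sum_comm]
        simp only [← Finset.mul_sum, h1, mul_zero, Finset.sum_const_zero]
      have w0 : w 0 = 0 := by simpa using hz 0
      have w1 : w 1 = 0 := by simpa using hz 1
      have w2 : w 2 = 0 := by simpa using hz 2
      rw [LinearIndependent.pair_iff] at hwi
      have := hwi (w 3) (-1) (by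
        funext i
        fin_cases i <;> simp [w0, w1, w2])
      simp at this
    · have e1 : dt w x' = w 0 + w 1 * (y 1 / y 0) + w 2 * (y 2 / y 0) := by
        rw [hx']
        simp [dt, Fin.sum_univ_four]
      rw [e1] at hwx
      have e2 : dt (fun i => w 0 * G 0 i + w 1 * G 1 i + w 2 * G 2 i) x =
          w 0 * y 0 + w 1 * y 1 + w 2 * y 2 := by
        rw [hyd, hyd, hyd, Finset.mul_sum, Finset.mul_sum, Finset.mul_sum,
          ← Finset.sum_add_distrib, ← Finset.sum_add_distrib]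
        unfold dt
        exact Finset.sum_congr rfl fun i _ => by ring
      rw [e2]
      field_simp at hwx
      linear_combination hwx
  · right
    right
    obtain ⟨I, hI⟩ : ∃ I : Ideal (MvPolynomial (Fin 5) Ω),
      I = Ideal.span (Set.range fun m => lf (k m)) := ⟨_, rfl⟩
    obtain ⟨pi, hpi⟩ : ∃ pi : MvPolynomial (Fin 4) Ω →ₐ[Ω] MvPolynomial (Fin 5) Ω,
      pi = aeval ![lf (G 0), lf (G 1), lf (G 2), 0] := ⟨_, rfl⟩
    have hX : ∀ i : Fin 5, (X i : MvPolynomial (Fin 5) Ω) - (C (E 0 i) * lf (G 0) +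
        C (E 1 i) * lf (G 1) + C (E 2 i) * lf (G 2)) = ∑ m, C (c i m) * lf (k m) := by
      intro i
      have e1 : (X i : MvPolynomial (Fin 5) Ω) =
          ∑ l, C (if i = l then (1 : Ω) else 0) * X l := by
        simp [apply_ite (C : Ω → MvPolynomial (Fin 5) Ω)]
      have e2 : C (E 0 i) * lf (G 0) + C (E 1 i) * lf (G 1) + C (E 2 i) * lf (G 2) =
          ∑ l, C (∑ r, E r i * G r l) * (X l : MvPolynomial (Fin 5) Ω) := by
        simp only [Fin.sum_univ_three, map_add, map_mul, add_mul, Finset.sum_add_distrib, lf,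
          smul_eq_C_mul, Finset.mul_sum, mul_assoc]
      have e3 : ∑ m, C (c i m) * lf (k m) =
          ∑ l, C (∑ m, c i m * k m l) * (X l : MvPolynomial (Fin 5) Ω) := by
        simp only [Fin.sum_univ_two, map_add, map_mul, add_mul, Finset.sum_add_distrib, lf,
          smul_eq_C_mul, Finset.mul_sum, mul_assoc]
      rw [e1, e2, e3, ← Finset.sum_sub_distrib]
      refine Finset.sum_congr rfl fun l _ => ?_
      rw [← h3 i l, map_sub, sub_mul]
    have hmod : ∀ P : MvPolynomial (Fin 5) Ω, P - pi (aeval g P) ∈ I := by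
      intro P
      rw [← Ideal.Quotient.eq_zero_iff_mem, map_sub, sub_eq_zero]
      have e1 : (Ideal.Quotient.mkₐ Ω I) = (Ideal.Quotient.mkₐ Ω I).comp (pi.comp (aeval g)) := by
        apply MvPolynomial.algHom_ext
        intro i
        simp only [AlgHom.comp_apply, aeval_X]
        rw [← sub_eq_zero, ← map_sub, Ideal.Quotient.mkₐ_eq_mk, Ideal.Quotient.eq_zero_iff_mem, hI]
        have e2 : pi (g i) = C (E 0 i) * lf (G 0) + C (E 1 i) * lf (G 1) + C (E 2 i) * lf (G 2) := by
          rw [hpi, hg]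
          simp [algebraMap_eq]
        rw [e2, hX i]
        exact Ideal.sum_mem _ fun m _ => Ideal.mul_mem_left _ _
          (Ideal.subset_span (Set.mem_range_self m))
      exact DFunLike.congr_fun e1 P
    have e3 : F - Q * pi C' ∈ I := by
      have f1 := hmod F
      have f2 := hmod Q
      have f3 : pi (lf ![0, 0, 0, 1]) = 0 := by
        rw [hpi]
        simp [lf, Fin.sum_univ_four]
      rw [hFF, map_add, map_mul, map_mul, f3, zero_mul, zero_add] at f1
      have e3 := I.add_mem f1 (I.mul_mem_left (-pi C') f2)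
      have e4 : F - pi (aeval g Q) * pi C' + -pi C' * (Q - pi (aeval g Q)) = F - Q * pi C' := by
        ring
      rwa [e4] at e3
    rw [hI, Ideal.mem_span_range_iff_exists_fun] at e3
    obtain ⟨a, ha⟩ := e3
    refine ⟨fun m => homogeneousComponent (d + 1) (a m), homogeneousComponent d (pi C'),
      fun m => homogeneousComponent_isHomogeneous _ _, homogeneousComponent_isHomogeneous _ _, ?_⟩
    have h5 : F = ∑ m, lf (k m) * a m + Q * pi C' := by
      have : ∑ m, lf (k m) * a m = ∑ m, a m * lf (k m) :=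
        Finset.sum_congr rfl fun m _ => mul_comm _ _
      rw [this, ha]
      ring
    have h6 := congrArg (homogeneousComponent (d + 2)) h5
    rw [homogeneousComponent_eq_self hFd, map_add, map_sum] at h6
    have h7 : ∀ m, homogeneousComponent (d + 2) (lf (k m) * a m) =
        lf (k m) * homogeneousComponent (d + 1) (a m) := by
      intro m
      rw [show d + 2 = 1 + (d + 1) by omega, ConicDiv_comp (ConicDiv_lf_hom (k m))]
    have h8 : homogeneousComponent (d + 2) (Q * pi C') = Q * homogeneousComponent d (pi C') := by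
      rw [show d + 2 = 2 + d by omega, ConicDiv_comp hQ2]
    simp only [h7, h8] at h6
    exact h6

theorem conic_divE {Ω : Type*} [Field Ω] [CharZero Ω] {B : Subfield Ω}
    (halg : ∀ y : Ω, IsAlgebraic B y → y ∈ B) (x : Fin 5 → Ω) (hx0 : x 0 = 1)
    (k : Fin 2 → Fin 5 → Ω) (hkB : ∀ i j, k i j ∈ B) (hkx : ∀ i, dt (k i) x = 0)
    (hk : LinearIndependent Ω k) (Q F : MvPolynomial (Fin 5) Ω)
    (hQ : RatP B Q) (hF : RatP B F) (d : ℕ) (hQ2 : Q.IsHomogeneous 2)
    (hFd : F.IsHomogeneous (d + 2)) (hy : ∃ y, (∀ i, dt (k i) y = 0) ∧ eval y Q ≠ 0)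
    (hQx : eval x Q = 0) (hFx : eval x F = 0) :
    (∀ i, x i ∈ B) ∨
    (∃ h' : Fin 5 → Ω, (∀ i, h' i ∈ B) ∧ LinearIndependent Ω (Matrix.vecCons h' k) ∧
      dt h' x = 0) ∨
    ∃ (A : Fin 2 → MvPolynomial (Fin 5) Ω) (C : MvPolynomial (Fin 5) Ω),
      (∀ i, (A i).IsHomogeneous (d + 1)) ∧ C.IsHomogeneous d ∧
      F = ∑ i, lf (k i) * A i + Q * C := by
  classical
  obtain ⟨kB, hkB'⟩ : ∃ kB : Fin 2 → Fin 5 → B, ∀ i j, algebraMap B Ω (kB i j) = k i j :=
    ⟨fun i j => ⟨k i j, hkB i j⟩, fun i j => rfl⟩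
  have hkBi : LinearIndependent B kB := by
    rw [Fintype.linearIndependent_iff] at hk ⊢
    intro t ht i
    have h1 := hk (fun m => algebraMap B Ω (t m)) (by
      funext j
      have := congrArg (algebraMap B Ω) (congrFun ht j)
      simp only [Finset.sum_apply, Pi.smul_apply, smul_eq_mul, map_sum, map_mul, hkB',
        Pi.zero_apply, map_zero] at this ⊢
      exact this) i
    exact (map_eq_zero _).mp h1
  obtain ⟨E, G, c, h1, h2, h3⟩ := ConicDivE_basis kB hkBi
  obtain ⟨f, hf⟩ : ∃ f : B →+* Ω, f = algebraMap B Ω := ⟨_, rfl⟩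
  have hfB : ∀ b, f b ∈ B := by
    intro b
    rw [hf]
    exact b.2
  rw [← hf] at hkB'
  have h1' : ∀ m r, ∑ i, k m i * f (E r i) = 0 := by
    intro m r
    have := congrArg f (h1 m r)
    simpa only [map_sum, map_mul, hkB', map_zero] using this
  have h2' : ∀ r l, ∑ i, f (G r i) * f (E l i) = if r = l then 1 else 0 := by
    intro r l
    have := congrArg f (h2 r l)
    simpa only [map_sum, map_mul, apply_ite f, map_zero, map_one] using this
  have h3' : ∀ i l, (if i = l then 1 else 0) - ∑ r, f (E r i) * f (G r l) =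
      ∑ m, f (c i m) * k m l := by
    intro i l
    have := congrArg f (h3 i l)
    simpa only [map_sub, map_sum, map_mul, apply_ite f, map_zero, map_one, hkB'] using this
  obtain ⟨r, hr⟩ : ∃ r, ∑ l, f (G r l) * x l ≠ 0 := by
    by_contra hcon
    push Not at hcon
    have e1 : ∑ l, ((if (0 : Fin 5) = l then 1 else 0) - ∑ r, f (E r 0) * f (G r l)) * x l = 0 := by
      simp only [h3', Finset.sum_mul, mul_assoc]
      rw [Finset.sum_comm]
      simp only [← Finset.mul_sum]
      refine Finset.sum_eq_zero fun m _ => ?_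
      have := hkx m
      unfold dt at this
      rw [this, mul_zero]
    simp only [sub_mul, Finset.sum_sub_distrib, Finset.sum_mul, mul_assoc] at e1
    rw [Finset.sum_comm] at e1
    simp only [← Finset.mul_sum, hcon, mul_zero, Finset.sum_const_zero, sub_zero] at e1
    simp [hx0] at e1
  obtain ⟨s, hs⟩ : ∃ s : Equiv.Perm (Fin 3), s 0 = r := ⟨Equiv.swap 0 r, by simp⟩
  refine ConicDivE_main halg x hx0 k hkx hk (fun r i => f (E (s r) i)) (fun r i => f (G (s r) i))
    (fun i m => f (c i m)) (fun r i => hfB _) (fun r i => hfB _) (fun m r => h1' m (s r))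
    (fun r l => by rw [h2' (s r) (s l)]; simp)
    (fun i l => by rw [← h3' i l, ← Equiv.sum_comp s (fun r => f (E r i) * f (G r l))])
    (fun r => ∑ i, f (G (s r) i) * x i) (fun r => rfl) (by rw [hs]; exact hr)
    Q F hQ hF d hQ2 hFd hy hQx hFx

end Pool.Agent.Helper10.Q46
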