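import Pool.Agent.Helper6.QS.Ev
import Pool.Agent.Helper6.QS.Line
import Pool.Agent.Helper74.Q8.Defs

/-!
# Q46: sextic threefolds, points which are not rigid: definitions

`FrameE D a B`: derivations `D (some J)` dual to the coefficients `a_J`, one more derivation
`D none` which kills the `a_J`, and a subfield `B` which contains everything bounded at the valuation
rings where all these derivations are bounded. `KeyE N q`: every point `x` of the hypersurface with
`x_0 = 1` which is not killed by `D none` has its coordinates in `B`.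

The degree `q` is a VARIABLE in all statements (`q = 6` is a field of `PtE`): with the numeral `6`
the kernel and the unifier try to enumerate `Sym (Fin 5) 6`. Keep it a variable in all proofs.

`e = D none x`; `Par2 x e v`: `v` is a combination of `x` and `e`. `vol D x e u v` is the
determinant with rows `x, e, D_(X_0^q) x, u, v`: a volume form on `n^⊥ / (x, e)` (dimension 2).
`T2 D x e P l l' = vol (D_(P l) x, D_(P l') x)`.
-/

set_option autoImplicit false

namespace Pool.Agent.Helper10.Q46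

open scoped BigOperators
open MvPolynomial
open Pool.Agent.Helper8.LG (Bdd form mon)
open Pool.Agent.Helper49.LN (cP mo hf pl)
open Pool.Agent.Helper6.QS
open Pool.Agent.Helper74.Q8 (dl rr)

section general

variable {Ω : Type*} [Field Ω] {σ : Type*} [Fintype σ] [DecidableEq σ] {q : ℕ}

/-- the dual derivations -/
def ds {P : Type*} (D : Option P → Derivation ℤ Ω Ω) : P → Derivation ℤ Ω Ω := fun J => D (some J)

/-- the frame with one more derivation -/
structure FrameE (D : Option (Sym σ q) → Derivation ℤ Ω Ω) (a : Sym σ q → Ω) (B : Subfield Ω) :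
    Prop where
  dual : ∀ I J, D (some J) (a I) = if I = J then 1 else 0
  fix : ∀ I, D none (a I) = 0
  mem : ∀ J, a J ∈ B
  rat : ∀ (s : Finset Ω), (∀ b ∈ s, b ∈ B) → ∀ (y : Ω) (M : ℕ),
    (∀ (O : ValuationSubring Ω) (Δ : Ω), Bdd D Δ O → (∀ b ∈ s, Δ * b ∈ O) → Δ ^ M * y ∈ O) →
    y ∈ B

theorem ds_bdd {P : Type*} {D : Option P → Derivation ℤ Ω Ω} {Δ : Ω} {O : ValuationSubring Ω}
    (h : Bdd D Δ O) : Bdd (ds D) Δ O := ⟨h.1, fun p f hf => h.2 (some p) f hf⟩

theorem FrameE.frame {D : Option (Sym σ q) → Derivation ℤ Ω Ω} {a : Sym σ q → Ω} {B : Subfield Ω}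
    (h : FrameE D a B) : Frame (ds D) a B :=
  ⟨h.dual, h.mem, fun s hs y M hy => h.rat s hs y M fun O Δ hO hb => hy O Δ (ds_bdd hO) hb⟩

/-- `v` is a combination of `x` and `e` -/
def Par2 (x e v : σ → Ω) : Prop := ∃ c d : Ω, v = c • x + d • e

omit [Fintype σ] [DecidableEq σ] in
theorem Par2.zero (x e : σ → Ω) : Par2 x e 0 := ⟨0, 0, by simp⟩

omit [Fintype σ] [DecidableEq σ] in
theorem Par2.add {x e u v : σ → Ω} (hu : Par2 x e u) (hv : Par2 x e v) : Par2 x e (u + v) := by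
  obtain ⟨c, d, rfl⟩ := hu
  obtain ⟨c', d', rfl⟩ := hv
  refine ⟨c + c', d + d', ?_⟩
  rw [add_smul, add_smul]
  abel

omit [Fintype σ] [DecidableEq σ] in
theorem Par2.smul {x e u : σ → Ω} (r : Ω) (hu : Par2 x e u) : Par2 x e (r • u) := by
  obtain ⟨c, d, rfl⟩ := hu
  exact ⟨r * c, r * d, by rw [smul_add, mul_smul, mul_smul]⟩

omit [Fintype σ] [DecidableEq σ] in
theorem Par2.sum {ι : Type*} (s : Finset ι) {x e : σ → Ω} (u : ι → σ → Ω)
    (hu : ∀ i ∈ s, Par2 x e (u i)) : Par2 x e (∑ i ∈ s, u i) := by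
  classical
  induction s using Finset.induction_on with
  | empty => simpa using Par2.zero x e
  | insert a s ha ih =>
    rw [Finset.sum_insert ha]
    exact (hu a (Finset.mem_insert_self _ _)).add
      (ih fun i hi => hu i (Finset.mem_insert_of_mem hi))

omit [Fintype σ] [DecidableEq σ] in
theorem Par2.sub {x e u v : σ → Ω} (hu : Par2 x e u) (hv : Par2 x e v) : Par2 x e (u - v) := by
  have h := hu.add (hv.smul (-1))
  rwa [neg_one_smul, ← sub_eq_add_neg] at h

omit [DecidableEq σ] in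
theorem Par2.dt {x e v : σ → Ω} (hv : Par2 x e v) (θ : σ → Ω) (h1 : dt θ x = 0)
    (h2 : dt θ e = 0) : Pool.Agent.Helper6.QS.dt θ v = 0 := by
  obtain ⟨c, d, rfl⟩ := hv
  rw [Pool.Agent.Helper74.Q8.dt_add', Pool.Agent.Helper74.Q8.dt_smul',
    Pool.Agent.Helper74.Q8.dt_smul', h1, h2, mul_zero, mul_zero, add_zero]

/-- the matrices `θ_j(D_(P l_i) x)` -/
noncomputable def um (D : Sym σ q → Derivation ℤ Ω Ω) (x : σ → Ω)
    (l : Fin 2 → σ → Ω) (θ : Fin 2 → σ → Ω) :
    MvPolynomial σ Ω →ₗ[Ω] Matrix (Fin 2) (Fin 2) Ω where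
  toFun P := Matrix.of fun i j => dt (θ j) (dl D x P (l i))
  map_add' P P' := by
    ext i j
    show dt (θ j) (dl D x (P + P') (l i)) = dt (θ j) (dl D x P (l i)) +
      dt (θ j) (dl D x P' (l i))
    rw [Pool.Agent.Helper74.Q8.dl_add, Pool.Agent.Helper74.Q8.dt_add']
  map_smul' c P := by
    ext i j
    show dt (θ j) (dl D x (c • P) (l i)) = c * dt (θ j) (dl D x P (l i))
    rw [Pool.Agent.Helper74.Q8.dl_smul, Pool.Agent.Helper74.Q8.dt_smul']

theorem um_apply (D : Sym σ q → Derivation ℤ Ω Ω) (x : σ → Ω)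
    (l : Fin 2 → σ → Ω) (θ : Fin 2 → σ → Ω) (P : MvPolynomial σ Ω) (i j : Fin 2) :
    um D x l θ P i j = dt (θ j) (dl D x P (l i)) := rfl

/-- the family of matrices: `1` and the matrices of the monomials -/
noncomputable def fam (D : Sym σ q → Derivation ℤ Ω Ω) (x : σ → Ω)
    (l : Fin 2 → σ → Ω) (θ : Fin 2 → σ → Ω) : Option (σ →₀ ℕ) → Matrix (Fin 2) (Fin 2) Ω
  | none => 1
  | some p => um D x l θ (monomial p 1)

end general

universe u

/-- **The key statement** for `(N, q)`. -/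
def KeyE (N q : ℕ) : Prop :=
  ∀ (Ω : Type u) [Field Ω] [CharZero Ω] (D : Option (Sym (Fin (N + 1)) q) → Derivation ℤ Ω Ω)
    (a : Sym (Fin (N + 1)) q → Ω) (B : Subfield Ω), FrameE D a B →
    ∀ x : Fin (N + 1) → Ω, x 0 = 1 → form a x = 0 → (∃ l, D none (x l) ≠ 0) → ∀ l, x l ∈ B

variable {Ω : Type*} [Field Ω] {q : ℕ}

/-- the volume form on `n^⊥ / (x, e)`: the determinant with rows `x, e, D_(X_0^q) x, u, v` -/
noncomputable def vol (D : Sym (Fin 5) q → Derivation ℤ Ω Ω) (x e u v : Fin 5 → Ω) : Ω :=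
  Matrix.det (Matrix.of ![x, e, dv D x (X 0 ^ q), u, v])

/-- one block: the volume of `D_(P l) x`, `D_(P l') x` -/
noncomputable def T2 (D : Sym (Fin 5) q → Derivation ℤ Ω Ω) (x e : Fin 5 → Ω)
    (P : MvPolynomial (Fin 5) Ω) (l l' : Fin 5 → Ω) : Ω :=
  vol D x e (dl D x P l) (dl D x P l')

/-- the point `x`, its derivative `e` and the normal vector `n` -/
structure PtE (D : Option (Sym (Fin 5) q) → Derivation ℤ Ω Ω) (a : Sym (Fin 5) q → Ω)
    (B : Subfield Ω) (x e n : Fin 5 → Ω) : Prop where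
  hq : q = 6
  frame : FrameE D a B
  one : x 0 = 1
  zero : form a x = 0
  der : ∀ l, e l = D none (x l)
  ne0 : ∃ l, e l ≠ 0
  nx : dt n x = 0
  ne : dt n e = 0
  nf : ∀ f, dt n (dv (ds D) x f) = - ev q x f

/-- **The plane case.** `k` are two rational linear forms vanishing at `x` which do not move `x`
modulo `e`; `l` completes them to a basis of the linear forms vanishing at `x`. -/
structure PlE (D : Option (Sym (Fin 5) q) → Derivation ℤ Ω Ω) (a : Sym (Fin 5) q → Ω)
    (B : Subfield Ω) (x e n : Fin 5 → Ω) (k : Fin 2 → Fin 5 → Ω) (l : Fin 2 → Fin 5 → Ω) :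
    Prop where
  pt : PtE D a B x e n
  kB : ∀ i j, k i j ∈ B
  kx : ∀ i, dt (k i) x = 0
  kp : ∀ P i, Par2 x e (dl (ds D) x P (k i))
  lx : ∀ i, dt (l i) x = 0
  ind : LinearIndependent Ω (Sum.elim k l)
  span : ∀ m, dt m x = 0 → ∃ (α : Fin 2 → Ω) (β : Fin 2 → Ω), m = ∑ i, α i • k i + ∑ i, β i • l i
  rat : ∀ P, RatP B P → T2 (ds D) x e P (l 0) (l 1) ∈ B

/-- **The matrices.** `θ_j` are the coordinates of `n^⊥ / (x, e)` in the basis
`D_(P_1 l_0) x`, `D_(P_1 l_1) x`. -/
structure MtE (D : Option (Sym (Fin 5) q) → Derivation ℤ Ω Ω) (a : Sym (Fin 5) q → Ω)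
    (B : Subfield Ω) (x e n : Fin 5 → Ω) (k : Fin 2 → Fin 5 → Ω) (l : Fin 2 → Fin 5 → Ω)
    (θ : Fin 2 → Fin 5 → Ω) (P1 : MvPolynomial (Fin 5) Ω) : Prop where
  pl : PlE D a B x e n k l
  r1 : RatP B P1
  tx : ∀ j, dt (θ j) x = 0
  te : ∀ j, dt (θ j) e = 0
  tp : ∀ v, dt n v = 0 → (∀ j, dt (θ j) v = 0) → Par2 x e v
  a1 : um (ds D) x l θ P1 = 1
  det : ∀ P, RatP B P → (um (ds D) x l θ P).det ∈ B

end Pool.Agent.Helper10.Q46
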