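import Pool.Agent.Helper49.LN.DetPoint
import Pool.Agent.Helper10.Q46.Defs

/-!
# Q46-G1E: the determinants of a point at one valuation ring, with one more column of weight one

Copy of `g1_det`, `g1_fan` (`Helper49/LN/DetPoint.lean`) with the base family `pe x ε, w`.
-/

set_option autoImplicit false

namespace Pool.Agent.Helper10.Q46

open scoped BigOperators
open MvPolynomial
open Pool.Agent.Helper8.LG (Bdd)
open Pool.Agent.Helper49.LN

variable {E : Type*} [Field E] {σ : Type*} {κ : Type*} {n : ℕ}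

section

variable {O : ValuationSubring E} {Δ : E} {D : Sym σ (n + 1) → Derivation ℤ E E}
  {x y : σ → E} {m j : σ} {g g' : Sym σ (n + 1) → κ → E} {ε : κ → E}

theorem base_sub (w : σ ⊕ κ → E) : Submodule.span E (Set.range fun _ : Fin 1 => pe x ε) ≤
    Submodule.span E (Set.range ![pe x ε, w]) := by
  refine Submodule.span_mono ?_
  rintro _ ⟨_, rfl⟩
  exact ⟨0, rfl⟩

theorem base_le (w : σ ⊕ κ → E) {v : σ ⊕ κ → E}
    (hv : v ∈ Submodule.span E (Set.range fun _ : Fin 1 => pe x ε)) :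
    v ∈ Submodule.span E (Set.range ![pe x ε, w]) := base_sub w hv

theorem base_trans (hm : x m ≠ 0) (w w' : σ ⊕ κ → E)
    (hw : w - gp (x m) w' ∈ Submodule.span E (Set.range fun _ : Fin 1 => pe x ε)) (t : Fin 2) :
    (![pe x ε, w] : Fin 2 → σ ⊕ κ → E) t - (1 : E) • gp (x m)
      ((![pe (xt x m) ε, w'] : Fin 2 → σ ⊕ κ → E) t) ∈
      Submodule.span E ((![pe x ε, w] : Fin 2 → σ ⊕ κ → E) '' {t' | (t' : ℕ) < (t : ℕ)}) := by
  fin_cases t
  · show pe x ε - (1 : E) • gp (x m) (pe (xt x m) ε) ∈ _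
    rw [one_smul, ← pe_trans x m hm ε, sub_self]
    exact Submodule.zero_mem _
  · show w - (1 : E) • gp (x m) w' ∈ _
    rw [one_smul]
    refine Submodule.span_mono ?_ hw
    rintro _ ⟨_, rfl⟩
    exact ⟨0, Nat.zero_lt_one, rfl⟩

theorem base_bdd {u w' : σ ⊕ κ → E} (h : ∀ l, Δ * u l ∈ O) (hw' : ∀ l, Δ * w' l ∈ O) (t : Fin 2)
    (l : σ ⊕ κ) : Δ * (![u, w'] : Fin 2 → σ ⊕ κ → E) t l ∈ O := by
  fin_cases t
  · exact h l
  · exact hw' l

variable [Fintype σ] [DecidableEq σ] [Fintype κ] [DecidableEq κ]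

/-- **The determinant of a point at one valuation ring**, simple version -/
theorem g1_detE (hG : LocG O Δ D x m g g' ε) (hm : x m ≠ 0) (hxm : ∀ l, xt x m l ∈ O) {i₀ : σ}
    (hx : x i₀ = 1)
    (w w' : σ ⊕ κ → E) (hw : w - gp (x m) w' ∈ Submodule.span E (Set.range fun _ : Fin 1 => pe x ε))
    (hw' : ∀ l, Δ * w' l ∈ O) {i t p u : ℕ} (β : Fin i → (Sym σ n × Sym σ n) × (σ × σ))
    (f : Fin t → Sym σ n × σ) (e : Fin p → σ) (f' : Fin u → σ ⊕ κ)
    (rr : TT (Fin 2) (Fin i) (Fin t) (Fin 0) (Fin 1 ⊕ Fin p) (Fin u) ≃ σ ⊕ κ)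
    (hJ : ∀ p ∈ Ipt x, cP (pv D x g) p ∈ Submodule.span E
        ((Set.range ![pe x ε, w]) ∪
        (Set.range fun p : Fin i × Fin 2 => bl (pv D x g) x i₀ (β p.1) p.2) ∪
        Set.range fun s => sg (pv D x g) x i₀ (f s))) :
    ∃ N ∈ O, Δ ^ Fintype.card (σ ⊕ κ) * dt rr (vv ![pe x ε, w]
      (fun p => bl (pv D x g) x i₀ (β p.1) p.2) (fun s => sg (pv D x g) x i₀ (f s)) Fin.elim0
      (Sum.elim (fun _ => la (E := E) (pv D x g) i₀) fun s => uv (Sum.inl (e s)))
      fun s => uv (f' s)) * x m ^ (n + 1 + p) =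
      x m ^ (Fintype.card σ + i + t) * N := by
  classical
  have hxi : (x m)⁻¹ ∈ O := by
    have h1 := hxm i₀
    unfold xt at h1
    rw [hx, one_div] at h1
    exact h1
  obtain ⟨N, hN, eq⟩ := det_left (T2 := Fin 0) (U2 := Fin 0) O Δ rr (gp (x m))
    ![pe x ε, w] ![pe (xt x m) ε, w'] (fun _ => 1) (fun t => (t : ℕ)) (fun t => by omega)
    (base_trans (x := x) hm w w' hw)
    (fun p => bl (pv D x g) x i₀ (β p.1) p.2)
    (fun p => wb (pv D (xt x m) g') i₀ (β p.1) p.2)
    (fun k s => x (if s = 0 then (β k).2.1 else (β k).2.2))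
    (fun k s => base_le w (bl_trans hG hm hx (β k) s)) (x m) hm hxi
    (fun k s => by
      have h1 := hxm (if s = 0 then (β k).2.1 else (β k).2.2)
      unfold xt at h1
      rwa [div_eq_inv_mul] at h1)
    (fun s => sg (pv D x g) x i₀ (f s))
    (fun s => sg (pv D (xt x m) g') (xt x m) i₀ (f s)) (fun _ => x m)
    (fun s => base_le w (sg_trans hG hm i₀ (f s)))
    Fin.elim0 Fin.elim0 (fun _ s => s.elim0) 1
    (by
      intro g _
      refine ⟨1, one_mem O, ?_⟩
      simp) (fun s => s.elim0)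
    (Sum.elim (fun _ => la (E := E) (pv D x g) i₀) fun s => uv (Sum.inl (e s)))
    (Sum.elim (fun _ => la (E := E) (pv D (xt x m) g') m) fun s => uv (Sum.inl (e s)))
    (Sum.elim (fun _ => (x m ^ (n + 1))⁻¹) fun _ => (x m)⁻¹)
    (by
      rintro (s | s)
      · exact la_trans hG hm hx _ _
          ((base_sub w).trans (Submodule.span_mono (fun v hv => Or.inl (Or.inl (Or.inl hv))))) hJ
          (Submodule.span_mono (by
            rintro v ((hv | hv) | hv)
            · exact Or.inl (Or.inl (Or.inl hv))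
            · exact Or.inl (Or.inl (Or.inr hv))
            · exact Or.inl (Or.inr hv)))
      · show uv (Sum.inl (e s)) - (x m)⁻¹ • gp (x m) (uv (Sum.inl (e s))) ∈ _
        have h1 := uv_trans (κ := κ) (x m) hm (Sum.inl (e s))
        have h2 : au (κ := κ) (x m) (Sum.inl (e s)) = (x m)⁻¹ := rfl
        rw [h2] at h1
        rw [← h1, sub_self]
        exact Submodule.zero_mem _)
    (fun s => uv (f' s)) (fun s => uv (f' s)) (fun s => au (x m) (f' s))
    (fun s => au_mem hxm hx (f' s)) (fun s => uv_trans (x m) hm (f' s))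
    (base_bdd (fun l => pe_bdd hG hxm l) hw') (fun p l => wb_bdd hG hxm i₀ (β p.1) p.2 l)
    (fun s l => sg_bdd hG hxm i₀ (f s) l) (fun s => s.elim0)
    (by
      rintro (s | s) l
      · exact cPp_bdd hG hxm _ ((IntP.X O m).pow _) l
      · exact uv_bdd hG.bdd.1 _ l)
    (fun s l => uv_bdd hG.bdd.1 (f' s) l)
  refine ⟨N, hN, ?_⟩
  rw [eq, det_gp]
  simp only [Finset.prod_const, Finset.card_univ, Fintype.card_fin, one_pow, one_mul, pow_one,
    Fintype.prod_sum_type, Sum.elim_inl, Sum.elim_inr]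
  have h3 : x m ^ (n + 1) ≠ 0 := pow_ne_zero _ hm
  have h4 : x m ^ p ≠ 0 := pow_ne_zero _ hm
  rw [inv_pow, pow_add (x m) (n + 1) p, pow_add, pow_add]
  generalize hA1 : x m ^ (n + 1) = A1 at *
  generalize hA2 : x m ^ p = A2 at *
  field_simp
  ring

/-- **The determinant of a point at one valuation ring**, with the fan -/
theorem g1_fanE (hG : LocG O Δ D x m g g' ε) (h : Loc O x y m j) {i₀ a : σ} (hx : x i₀ = 1)
    (ha : pl x y i₀ a ≠ 0)
    (w w' : σ ⊕ κ → E) (hw : w - gp (x m) w' ∈ Submodule.span E (Set.range fun _ : Fin 1 => pe x ε))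
    (hw' : ∀ l, Δ * w' l ∈ O) {i r p u : ℕ} (β : Fin i → (Sym σ n × Sym σ n) × (σ × σ))
    (K : Fin r → ℕ) (hK : ∀ s, K s ≤ n) (e : Fin p → σ) (f' : Fin u → σ ⊕ κ)
    (rr : TT (Fin 2) (Fin i) (Fin 0) (Fin r) (Fin 1 ⊕ Fin p) (Fin u) ≃ σ ⊕ κ)
    (hI : ∀ p ∈ Il (pl x y), cP (pv D x g) p ∈ Submodule.span E
        ((Set.range ![pe x ε, w]) ∪
        Set.range fun p : Fin i × Fin 2 => bl (pv D x g) x i₀ (β p.1) p.2))
    (hJ : ∀ p ∈ Ipt x, cP (pv D x g) p ∈ Submodule.span E
        ((Set.range ![pe x ε, w]) ∪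
        (Set.range fun p : Fin i × Fin 2 => bl (pv D x g) x i₀ (β p.1) p.2) ∪
        Set.range fun s => fn (pv D x g) x i₀ a (K s))) :
    ∃ N ∈ O, Δ ^ Fintype.card (σ ⊕ κ) * dt rr (vv ![pe x ε, w]
      (fun p => bl (pv D x g) x i₀ (β p.1) p.2) Fin.elim0 (fun s => fn (pv D x g) x i₀ a (K s))
      (Sum.elim (fun _ => la (E := E) (pv D x g) i₀) fun s => uv (Sum.inl (e s)))
      fun s => uv (f' s)) * x m ^ (n + 1 + p) =
      x m ^ (Fintype.card σ + i + r) *
        pl (xt x m) (yt x y m j) i₀ a ^ (r * (r + 1) / 2) * N := by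
  classical
  have hm := h.xm
  have hxm := h.hx
  have hxi : (x m)⁻¹ ∈ O := by
    have h1 := hxm i₀
    unfold xt at h1
    rw [hx, one_div] at h1
    exact h1
  obtain ⟨A, G, hA, hGi, hAG⟩ := fanJ h i₀ a ha n K hK
  rw [Fintype.card_fin] at hA
  obtain ⟨N, hN, eq⟩ := det_left O Δ rr (gp (x m))
    ![pe x ε, w] ![pe (xt x m) ε, w'] (fun _ => 1) (fun t => (t : ℕ)) (fun t => by omega)
    (base_trans (x := x) hm w w' hw)
    (fun p => bl (pv D x g) x i₀ (β p.1) p.2)
    (fun p => wb (pv D (xt x m) g') i₀ (β p.1) p.2)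
    (fun k s => x (if s = 0 then (β k).2.1 else (β k).2.2))
    (fun k s => base_le w (bl_trans hG hm hx (β k) s)) (x m) hm hxi
    (fun k s => by
      have h1 := hxm (if s = 0 then (β k).2.1 else (β k).2.2)
      unfold xt at h1
      rwa [div_eq_inv_mul] at h1)
    Fin.elim0 Fin.elim0 (fun _ => 1) (fun s => s.elim0)
    (fun s => fn (pv D x g) x i₀ a (K s))
    (fun i => cP (pv D (xt x m) g') (G i)) A _ hA
    (by
      intro s
      have h1 : cP (pv D x g) (X i₀ ^ (n - K s) * X a ^ K s * hf x i₀ a : MvPolynomial σ E) -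
          gp (x m) (∑ u, A u s • cP (pv D (xt x m) g') (G u)) =
          cP (pv D x g) ((X i₀ ^ (n - K s) * X a ^ K s * hf x i₀ a : MvPolynomial σ E) -
            ∑ i, A i s • G i) + (cP (pv D x g) (∑ i, A i s • G i) -
            gp (x m) (cP (pv D (xt x m) g') (∑ i, A i s • G i))) := by
        rw [map_sub]
        simp only [map_sum, map_smul]
        abel
      show cP (pv D x g) (X i₀ ^ (n - K s) * X a ^ K s * hf x i₀ a : MvPolynomial σ E) - _ ∈ _
      rw [h1]
      refine add_mem ?_ (Submodule.span_mono (fun v hv => Or.inl (Or.inl hv))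
        (base_sub w (cPp_trans hG hm _)))
      exact Submodule.span_mono (fun v hv => Or.inl hv) (hI _ (hAG s)))
    (Sum.elim (fun _ => la (E := E) (pv D x g) i₀) fun s => uv (Sum.inl (e s)))
    (Sum.elim (fun _ => la (E := E) (pv D (xt x m) g') m) fun s => uv (Sum.inl (e s)))
    (Sum.elim (fun _ => (x m ^ (n + 1))⁻¹) fun _ => (x m)⁻¹)
    (by
      rintro (s | s)
      · exact la_trans hG hm hx _ _
          ((base_sub w).trans (Submodule.span_mono (fun v hv => Or.inl (Or.inl (Or.inl hv))))) hJ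
          (Submodule.span_mono (by
            rintro v ((hv | hv) | hv)
            · exact Or.inl (Or.inl (Or.inl hv))
            · exact Or.inl (Or.inl (Or.inr hv))
            · exact Or.inr hv))
      · show uv (Sum.inl (e s)) - (x m)⁻¹ • gp (x m) (uv (Sum.inl (e s))) ∈ _
        have h1 := uv_trans (κ := κ) (x m) hm (Sum.inl (e s))
        have h2 : au (κ := κ) (x m) (Sum.inl (e s)) = (x m)⁻¹ := rfl
        rw [h2] at h1
        rw [← h1, sub_self]
        exact Submodule.zero_mem _)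
    (fun s => uv (f' s)) (fun s => uv (f' s)) (fun s => au (x m) (f' s))
    (fun s => au_mem hxm hx (f' s)) (fun s => uv_trans (x m) hm (f' s))
    (base_bdd (fun l => pe_bdd hG hxm l) hw') (fun p l => wb_bdd hG hxm i₀ (β p.1) p.2 l)
    (fun s => s.elim0) (fun i l => cPp_bdd hG hxm _ (hGi i) l)
    (by
      rintro (s | s) l
      · exact cPp_bdd hG hxm _ ((IntP.X O m).pow _) l
      · exact uv_bdd hG.bdd.1 _ l)
    (fun s l => uv_bdd hG.bdd.1 (f' s) l)
  refine ⟨N, hN, ?_⟩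
  rw [eq, det_gp]
  simp only [Finset.prod_const, Finset.card_univ, Fintype.card_fin, one_pow, one_mul, pow_one,
    Finset.univ_eq_empty, Finset.prod_empty, Fintype.prod_sum_type, Sum.elim_inl, Sum.elim_inr]
  have h3 : x m ^ (n + 1) ≠ 0 := pow_ne_zero _ hm
  have h4 : x m ^ p ≠ 0 := pow_ne_zero _ hm
  rw [inv_pow, pow_add (x m) (n + 1) p, pow_add, pow_add]
  generalize hA1 : x m ^ (n + 1) = A1 at *
  generalize hA2 : x m ^ p = A2 at *
  field_simp
  ring

end

end Pool.Agent.Helper10.Q46
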