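import Pool.Agent.Helper10.Q46.Defs

/-!
# Q46-NORME: the normal vector is orthogonal to `e`
-/

set_option autoImplicit false

namespace Pool.Agent.Helper10.Q46

open scoped BigOperators
open MvPolynomial
open Pool.Agent.Helper8.LG (Bdd form mon)
open Pool.Agent.Helper49.LN (cP mo hf pl)
open Pool.Agent.Helper6.QS

variable {Ω : Type*} [Field Ω] {σ : Type*} [Fintype σ] [DecidableEq σ] {q : ℕ}

theorem dvE_normal (D : Option (Sym σ q) → Derivation ℤ Ω Ω) (a : Sym σ q → Ω)
    (hD : ∀ I J, D (some J) (a I) = if I = J then 1 else 0) (hD0 : ∀ I, D none (a I) = 0)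
    (x e : σ → Ω) (he : ∀ l, e l = D none (x l)) (hF : form a x = 0) :
    ∃ n : σ → Ω, dt n x = 0 ∧ dt n e = 0 ∧ ∀ f, dt n (dv (ds D) x f) = - ev q x f := by
  refine ⟨fun l => ∑ I : Sym σ q, a I * eval x (pderiv l (mo Ω (I : Multiset σ))), ?_, ?_, ?_⟩
  · have h1 : dt (fun l => ∑ I : Sym σ q, a I * eval x (pderiv l (mo Ω (I : Multiset σ)))) x =
        (q : Ω) * form a x := by
      rw [dt, form, Finset.mul_sum]
      simp only [Finset.sum_mul]
      rw [Finset.sum_comm]
      refine Finset.sum_congr rfl fun I _ => ?_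
      simp only [mul_assoc]
      rw [← Finset.mul_sum, ev_euler, Sym.card_coe, ev_mon_eq]
      ring
    rw [h1, hF, mul_zero]
  · have h3 : D none (form a x) = 0 := by rw [hF, map_zero]
    rw [form, map_sum] at h3
    have h4 : ∀ I : Sym σ q, D none (a I * mon x I) =
        ∑ l, a I * eval x (pderiv l (mo Ω (I : Multiset σ))) * e l := by
      intro I
      rw [Derivation.leibniz, smul_eq_mul, smul_eq_mul, hD0, ev_mon_eq, ev_der_mo,
        Finset.mul_sum, mul_zero, add_zero]
      simp only [mul_assoc, he]
    simp only [h4] at h3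
    rw [Finset.sum_comm] at h3
    rw [dt]
    simp only [Finset.sum_mul]
    exact h3
  · intro f
    have h2 : ∀ J, dt (fun l => ∑ I : Sym σ q, a I * eval x (pderiv l (mo Ω (I : Multiset σ))))
        (fun l => ds D J (x l)) = - mon x J := by
      intro J
      have h3 : ds D J (form a x) = 0 := by rw [hF, map_zero]
      rw [form, map_sum] at h3
      have h4 : ∀ I : Sym σ q, ds D J (a I * mon x I) =
          (if I = J then mon x I else 0) +
            ∑ l, a I * eval x (pderiv l (mo Ω (I : Multiset σ))) * ds D J (x l) := by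
        intro I
        have h5 : ds D J (a I) = if I = J then 1 else 0 := hD I J
        rw [Derivation.leibniz, smul_eq_mul, smul_eq_mul, h5, ev_mon_eq, ev_der_mo,
          Finset.mul_sum, add_comm]
        simp only [mul_assoc]
        congr 1
        split_ifs
        · rw [mul_one]
        · rw [mul_zero]
      simp only [h4] at h3
      rw [Finset.sum_add_distrib, Finset.sum_ite_eq' Finset.univ J, if_pos (Finset.mem_univ J),
        Finset.sum_comm] at h3
      rw [dt]
      simp only [Finset.sum_mul]
      rw [eq_neg_iff_add_eq_zero, add_comm]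
      exact h3
    rw [dv, ev, Pool.Agent.Helper49.LN.cP_apply, Pool.Agent.Helper49.LN.cP_apply,
      ← Finset.sum_neg_distrib, dt]
    simp only [Finset.sum_apply, Pi.smul_apply, smul_eq_mul, Finset.mul_sum]
    rw [Finset.sum_comm]
    refine Finset.sum_congr rfl fun J _ => ?_
    rw [← mul_neg, ← h2 J, dt, Finset.mul_sum]
    refine Finset.sum_congr rfl fun l _ => ?_
    ring

end Pool.Agent.Helper10.Q46
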