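import Pool.Agent.Helper10.Q46.ExistE
import Pool.Agent.Helper10.Q46.G1E
import Pool.Agent.Helper10.Q46.RatE
import Pool.Agent.Helper10.Q46.NormE
import Pool.Agent.Helper6.QS.KeyDich

/-!
# Q46-DICHE: the dichotomy for points of sextic threefolds which are not rigid

Copy of `key_dich` (`Helper6/QS/KeyDich.lean`) with the base family `x, e`, `e = D none x`.
-/

set_option autoImplicit false

namespace Pool.Agent.Helper10.Q46

open scoped BigOperators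
open MvPolynomial
open Pool.Agent.Helper8.LG (Bdd form mon col)
open Pool.Agent.Helper49.LN hiding dt
open Pool.Agent.Helper6.QS
open Pool.Agent.Helper74.LN (Moves KeyL)

variable {Ω : Type*} [Field Ω] {σ : Type*} [Fintype σ] [DecidableEq σ] {n : ℕ}

/-- the base columns -/
def bE (x e : σ → Ω) : Fin 2 → σ ⊕ K0 → Ω := ![pe x (ε0 Ω), pe e (ε0 Ω)]

omit [Fintype σ] [DecidableEq σ] in
theorem bE_mem (x e : σ → Ω) (S : Submodule Ω (σ → Ω)) (hx : x ∈ S) (he : e ∈ S) (t : Fin 2) :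
    (fun l => bE x e t (Sum.inl l)) ∈ S := by
  fin_cases t
  · exact hx
  · exact he

/-- the additional column at one valuation ring -/
theorem bE_loc {D : Option (Sym σ (n + 1)) → Derivation ℤ Ω Ω} (x e : σ → Ω)
    (he : ∀ l, e l = D none (x l)) (m : σ) (hm : x m ≠ 0) :
    pe e (ε0 Ω) - gp (x m) (pe (fun l => D none (x l / x m)) (ε0 Ω)) ∈
      Submodule.span Ω (Set.range fun _ : Fin 1 => pe x (ε0 Ω)) := by
  have h1 := e_loc (D none) x e he m hm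
  have h2 : pe e (ε0 Ω) - gp (x m) (pe (fun l => D none (x l / x m)) (ε0 Ω)) =
      (D none (x m) / x m) • pe x (ε0 Ω) := by
    funext r
    rcases r with l | (k | k)
    · have h3 := congrFun h1 l
      rw [Pi.add_apply, Pi.smul_apply, Pi.smul_apply, smul_eq_mul, smul_eq_mul] at h3
      show e l - x m * D none (x l / x m) = D none (x m) / x m * x l
      rw [h3]
      ring
    · exact k.elim0
    · exact k.elim0
  rw [h2]
  exact Submodule.smul_mem _ _ (Submodule.subset_span ⟨0, rfl⟩)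

theorem bE_bdd {D : Option (Sym σ (n + 1)) → Derivation ℤ Ω Ω} {O : ValuationSubring Ω} {Δ : Ω}
    (hΔ : Bdd D Δ O) (x : σ → Ω) (m : σ) (hxm : ∀ l, xt x m l ∈ O) (r : σ ⊕ K0) :
    Δ * pe (fun l => D none (x l / x m)) (ε0 Ω) r ∈ O := by
  rcases r with l | (k | k)
  · exact hΔ.2 none _ (hxm l)
  · exact k.elim0
  · exact k.elim0

/-- the rank is the number of columns -/
theorem rankE (D : Option (Sym σ (n + 1)) → Derivation ℤ Ω Ω) (x e : σ → Ω)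
    (he : ∀ l, e l = D none (x l)) (i₀ : σ) (hx : x i₀ = 1)
    {A : Type*} [Fintype A] (v : A → σ ⊕ K0 → Ω)
    (h1 : ∀ g ∈ Ipt x, cP (pv (ds D) x (g0 n σ Ω)) g ∈ Submodule.span Ω (Set.range v))
    (h2 : pe x (ε0 Ω) ∈ Submodule.span Ω (Set.range v))
    (h3 : pe e (ε0 Ω) ∈ Submodule.span Ω (Set.range v)) :
    Module.finrank Ω (Submodule.span Ω (Set.range (col D x))) ≤ Fintype.card A + 1 := by
  classical
  obtain ⟨u, hu⟩ : ∃ u, u = la (E := Ω) (pv (ds D) x (g0 n σ Ω)) i₀ := ⟨_, rfl⟩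
  obtain ⟨p, hp⟩ : ∃ p : (σ ⊕ K0 → Ω) →ₗ[Ω] (σ → Ω), p = LinearMap.funLeft Ω Ω Sum.inl :=
    ⟨_, rfl⟩
  have h4 : Submodule.span Ω (Set.range v) ≤
      Submodule.span Ω (Set.range (Sum.elim v fun _ : Fin 1 => u)) := by
    refine Submodule.span_mono ?_
    rintro _ ⟨a, rfl⟩
    exact ⟨Sum.inl a, rfl⟩
  have h5 : Submodule.span Ω (Set.range (col D x)) ≤
      (Submodule.span Ω (Set.range (Sum.elim v fun _ : Fin 1 => u))).map p := by
    rw [Submodule.span_le]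
    rintro _ ⟨_ | (_ | J), rfl⟩
    · refine ⟨pe x (ε0 Ω), h4 h2, ?_⟩
      rw [hp]
      rfl
    · refine ⟨pe e (ε0 Ω), h4 h3, ?_⟩
      rw [hp]
      funext l
      exact he l
    · refine ⟨pv (ds D) x (g0 n σ Ω) J, ?_, ?_⟩
      · have h5 := mo_mod x i₀ hx (J : Multiset σ)
        rw [Sym.card_coe] at h5
        have h6 := h1 _ h5
        rw [map_sub, map_smul, cP_mo] at h6
        have h7 : pv (ds D) x (g0 n σ Ω) J = (pv (ds D) x (g0 n σ Ω) J -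
            ((J : Multiset σ).map x).prod • cP (pv (ds D) x (g0 n σ Ω))
              ((X i₀ : MvPolynomial σ Ω) ^ (n + 1))) +
            ((J : Multiset σ).map x).prod • u := by
          rw [hu]
          unfold la
          abel
        rw [h7]
        exact add_mem (h4 h6) (Submodule.smul_mem _ _ (Submodule.subset_span ⟨Sum.inr 0, rfl⟩))
      · rw [hp]
        rfl
  refine (Submodule.finrank_mono h5).trans ((Submodule.finrank_map_le _ _).trans ?_)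
  refine (finrank_range_le_card _).trans ?_
  rw [Fintype.card_sum, Fintype.card_fin]

/-- copy of `point_complete` with an arbitrary base family -/
theorem point_completeE {κ : Type*} [Fintype κ] [DecidableEq κ] (V : Sym σ (n + 1) → σ ⊕ κ → Ω)
    (v0 : Fin 2 → σ ⊕ κ → Ω) (x : σ → Ω) (i₀ : σ)
    (lam : (σ ⊕ κ → Ω) →ₗ[Ω] Ω) (hl0 : ∀ t, lam (v0 t) = 0) (hl1 : ∀ g ∈ Ipt x, lam (cP V g) = 0)
    (hu : lam (la (E := Ω) V i₀) ≠ 0) (S : Submodule Ω (σ → Ω))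
    (hS0 : ∀ t, (fun l => v0 t (Sum.inl l)) ∈ S) (hSV : ∀ J, (fun l => V J (Sum.inl l)) ∈ S)
    {i t r : ℕ} (β : Fin i → (Sym σ n × Sym σ n) × (σ × σ)) (v1 : Fin t → σ ⊕ κ → Ω)
    (h1 : ∀ s, ∃ g ∈ Ipt x, v1 s = cP V g) (v2 : Fin r → σ ⊕ κ → Ω)
    (h2 : ∀ s, ∃ g ∈ Ipt x, v2 s = cP V g)
    (hlin : LinearIndependent Ω (Sum.elim (Sum.elim (Sum.elim v0
      (fun p : Fin i × Fin 2 => bl V x i₀ (β p.1) p.2)) v1) v2)) :
    ∃ (p u : ℕ) (e : Fin p → σ) (f' : Fin u → σ ⊕ κ)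
      (rr : TT (Fin 2) (Fin i) (Fin t) (Fin r) (Fin 1 ⊕ Fin p) (Fin u) ≃ σ ⊕ κ),
      p + Module.finrank Ω S = Fintype.card σ ∧
      Pool.Agent.Helper49.LN.dt rr (vv v0 (fun p => bl V x i₀ (β p.1) p.2) v1 v2
        (Sum.elim (fun _ => la (E := Ω) V i₀) fun s => uv (Sum.inl (e s)))
        fun s => uv (f' s)) ≠ 0 := by
  have hbl : ∀ p : Fin i × Fin 2, ∃ g ∈ Ipt x, bl V x i₀ (β p.1) p.2 = cP V g := fun p =>
    ⟨_, bl_mem x i₀ (β p.1) p.2, rfl⟩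
  have hP : ∀ v, (∃ g ∈ Ipt x, v = cP V g) → (fun l => v (Sum.inl l)) ∈ S := by
    rintro _ ⟨g, -, rfl⟩
    exact cP_proj V S hSV g
  have hL : ∀ v, (∃ g ∈ Ipt x, v = cP V g) → lam v = 0 := by
    rintro _ ⟨g, hg, rfl⟩
    exact hl1 g hg
  obtain ⟨p, u, e, f, rr, e1, e2⟩ := rk3 _ hlin lam (by
    rintro (((s | s) | s) | s)
    · exact hl0 s
    · exact hL _ (hbl s)
    · exact hL _ (h1 s)
    · exact hL _ (h2 s)) (la (E := Ω) V i₀) hu S (by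
    rintro (((s | s) | s) | s)
    · exact hS0 s
    · exact hP _ (hbl s)
    · exact hP _ (h1 s)
    · exact hP _ (h2 s)) (cP_proj V S hSV _)
  exact ⟨p, u, e, f, rr, e1, e2⟩

/-- the numbers -/
theorem numE (b r : ℕ) (hr : r ≤ 3) (hb : b + r + 4 ≤ 5 + 5) :
    ∃ B C m s : ℕ, C + m = C * (5 + b) ∧
      m + s = B * (2 * (2 + 1) / 2) + C * (r * (r + 1) / 2) ∧
      B * (5 + 0 + 2) + C * (2 + r) + 1 ≤ 6 * (B + C) := by
  by_cases hB : 4 + b ≤ r * (r + 1) / 2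
  · refine ⟨0, 1, 4 + b, r * (r + 1) / 2 - (4 + b), by omega, by omega, by omega⟩
  · refine ⟨4 + b - r * (r + 1) / 2, 3, 3 * (4 + b), 0, by omega, ?_, ?_⟩
    · interval_cases r <;> norm_num at hB ⊢ <;> omega
    · interval_cases r <;> norm_num at hB ⊢ <;> omega

/-- the special case `r = 4`: the line is bounded -/
theorem lnE {E : Type*} [Field E] (b : ℕ) (hb : b ≤ 5)
    (O : ValuationSubring E) (G₂ lam rho Δ P z : E) (k₂ : ℕ) (hlam : lam ≠ 0)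
    (hrho : rho ≠ 0) (hP : P ≠ 0) (hy : P / rho ∈ O) (hz : z / rho ∈ O)
    (h2 : ∃ w ∈ O, Δ ^ k₂ * G₂ * lam ^ 6 * rho =
          lam ^ (2 + 4) * rho ^ (5 + b) * (P / rho) ^ 10 * w) :
    Δ ^ k₂ * (G₂ / P ^ (5 + b) * z) ∈ O := by
  obtain ⟨w, hw, h⟩ := h2
  have h5 : lam ^ 6 ≠ 0 := pow_ne_zero _ hlam
  have h3 : Δ ^ k₂ * G₂ * rho = rho ^ (5 + b) * (P / rho) ^ 10 * w := by
    refine mul_right_cancel₀ h5 ?_
    calc Δ ^ k₂ * G₂ * rho * lam ^ 6 = Δ ^ k₂ * G₂ * lam ^ 6 * rho := by ring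
      _ = _ := by rw [h]; ring
  have h4 : Δ ^ k₂ * (G₂ / P ^ (5 + b) * z) = (P / rho) ^ (5 - b) * (z / rho) * w := by
    have h6 : P ^ (5 + b) = (P / rho) ^ (5 + b) * rho ^ (5 + b) := by
      rw [← mul_pow, div_mul_cancel₀ _ hrho]
    have h7 : (P / rho) ^ 10 = (P / rho) ^ (5 - b) * (P / rho) ^ (5 + b) := by
      rw [← pow_add]
      congr 1
      omega
    have h8 : (P / rho) ^ (5 + b) ≠ 0 := pow_ne_zero _ (div_ne_zero hP hrho)
    have h9 : rho ^ (5 + b) ≠ 0 := pow_ne_zero _ hrho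
    have h10 : Δ ^ k₂ * (G₂ / P ^ (5 + b) * z) =
        (Δ ^ k₂ * G₂ * rho) * (z / rho) / P ^ (5 + b) := by
      field_simp
    rw [h10, h3, h6, h7]
    field_simp
  rw [h4]
  exact mul_mem (mul_mem (pow_mem hy _) hz) hw

/-- the block -/
theorem blkE (D : Option (Sym σ (n + 1)) → Derivation ℤ Ω Ω) (x e : σ → Ω) (i₀ : σ) {i t : ℕ}
    (hi : 0 < i) (β : Fin i → (Sym σ n × Sym σ n) × (σ × σ)) (v : Fin t → σ ⊕ K0 → Ω)
    (hlin : LinearIndependent Ω (Sum.elim (Sum.elim (bE x e)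
      (fun p : Fin i × Fin 2 => bl (pv (ds D) x (g0 n σ Ω)) x i₀ (β p.1) p.2)) v)) :
    LinearIndependent Ω ![x, e,
      dv (ds D) x ((mo Ω ((β ⟨0, hi⟩).1.1 : Multiset σ) +
        mo Ω ((β ⟨0, hi⟩).1.2 : Multiset σ)) *
        Pool.Agent.Helper49.LN.hf x i₀ (β ⟨0, hi⟩).2.1),
      dv (ds D) x ((mo Ω ((β ⟨0, hi⟩).1.1 : Multiset σ) +
        mo Ω ((β ⟨0, hi⟩).1.2 : Multiset σ)) *
        Pool.Agent.Helper49.LN.hf x i₀ (β ⟨0, hi⟩).2.2)] := by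
  obtain ⟨z, hz⟩ : ∃ z : Fin i, z = ⟨0, hi⟩ := ⟨_, rfl⟩
  rw [← hz]
  have h1 := hlin.comp (fun s : Fin 4 => (![Sum.inl (Sum.inl 0), Sum.inl (Sum.inl 1),
      Sum.inl (Sum.inr (z, 0)), Sum.inl (Sum.inr (z, 1))] s :
        (Fin 2 ⊕ (Fin i × Fin 2)) ⊕ Fin t)) (by
      intro s s' h
      fin_cases s <;> fin_cases s' <;> simp_all)
  have h2 : LinearMap.ker (LinearMap.funLeft Ω Ω (Sum.inl : σ → σ ⊕ K0)) = ⊥ := by
    rw [LinearMap.ker_eq_bot']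
    intro v hv
    funext r
    rcases r with r | (r | r)
    · exact congrFun hv r
    · exact r.elim0
    · exact r.elim0
  have h3 := h1.map' _ h2
  have h4 : (LinearMap.funLeft Ω Ω (Sum.inl : σ → σ ⊕ K0)) ∘
      (Sum.elim (Sum.elim (bE x e)
        (fun p : Fin i × Fin 2 => bl (pv (ds D) x (g0 n σ Ω)) x i₀ (β p.1) p.2)) v ∘
      fun s : Fin 4 => (![Sum.inl (Sum.inl 0), Sum.inl (Sum.inl 1), Sum.inl (Sum.inr (z, 0)),
      Sum.inl (Sum.inr (z, 1))] s : (Fin 2 ⊕ (Fin i × Fin 2)) ⊕ Fin t)) =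
      ![x, e, dv (ds D) x ((mo Ω ((β z).1.1 : Multiset σ) + mo Ω ((β z).1.2 : Multiset σ)) *
        Pool.Agent.Helper49.LN.hf x i₀ (β z).2.1),
        dv (ds D) x ((mo Ω ((β z).1.1 : Multiset σ) + mo Ω ((β z).1.2 : Multiset σ)) *
        Pool.Agent.Helper49.LN.hf x i₀ (β z).2.2)] := by
    funext s l
    fin_cases s
    · rfl
    · rfl
    · exact cP_dv (ds D) x _ l
    · exact cP_dv (ds D) x _ l
  rw [← h4]
  exact h3

theorem arE1 (K q i t fr : ℕ) (hK : K = 5) (hq : q = 6) (hit : 2 * i + t + 3 = fr)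
    (hA : ¬ fr + i + t + 1 ≤ q) (hi : ¬ 0 < i) (hfr : fr ≤ K) : i = 0 ∧ t = 2 ∧ fr = 5 := by
  omega

/-- **The dichotomy.** -/
theorem dich_e [CharZero Ω] {D : Option (Sym σ (n + 1)) → Derivation ℤ Ω Ω}
    {a : Sym σ (n + 1) → Ω} {B : Subfield Ω} (hB : FrameE D a B) (x e : σ → Ω) (i₀ : σ)
    (hx : x i₀ = 1) (hF : form a x = 0) (he : ∀ l, e l = D none (x l)) (hne : ∃ l, e l ≠ 0)
    (hK : Fintype.card σ = 5) (hq : n + 1 = 6) :
    (∀ l, x l ∈ B) ∨ ∃ (I I' : Sym σ n) (j l : σ),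
      LinearIndependent Ω ![x, e, dv (ds D) x ((mo Ω (I : Multiset σ) + mo Ω (I' : Multiset σ)) *
        Pool.Agent.Helper49.LN.hf x i₀ j), dv (ds D) x ((mo Ω (I : Multiset σ) +
          mo Ω (I' : Multiset σ)) * Pool.Agent.Helper49.LN.hf x i₀ l)] := by
  classical
  have hq4 : 2 * Fintype.card σ ≤ n + 1 + 4 := by omega
  have hK0 : Fintype.card K0 = 0 := rfl
  obtain ⟨nn, hn1, hne1, hn2⟩ := dvE_normal D a hB.dual hB.fix x e he hF
  obtain ⟨lam, hlam⟩ : ∃ lam : (σ ⊕ K0 → Ω) →ₗ[Ω] Ω,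
      lam = ∑ l, nn l • (LinearMap.proj (Sum.inl l) : (σ ⊕ K0 → Ω) →ₗ[Ω] Ω) := ⟨_, rfl⟩
  have hlam' : ∀ v, lam v = ∑ l, nn l * v (Sum.inl l) := by
    intro v
    rw [hlam, LinearMap.sum_apply]
    rfl
  have hl0' : lam (pe x (ε0 Ω)) = 0 := by
    rw [hlam']
    exact hn1
  have hl0 : ∀ t, lam (bE x e t) = 0 := by
    intro t
    fin_cases t
    · exact hl0'
    · show lam (pe e (ε0 Ω)) = 0
      rw [hlam']
      exact hne1
  have hlc : ∀ f, lam (cP (pv (ds D) x (g0 n σ Ω)) f) = - ev (n + 1) x f := by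
    intro f
    rw [hlam', ← hn2 f]
    unfold dt
    exact Finset.sum_congr rfl fun l _ => by rw [cP_dv]
  have hl1 : ∀ f ∈ Ipt x, lam (cP (pv (ds D) x (g0 n σ Ω)) f) = 0 := by
    intro f hf
    rw [hlc, ev_ipt x f hf, neg_zero]
  have hu : lam (la (E := Ω) (pv (ds D) x (g0 n σ Ω)) i₀) ≠ 0 := by
    unfold la
    rw [hlc, neg_ne_zero]
    have h1 : ev (n + 1) x (X i₀ ^ (n + 1)) = eval x (X i₀ ^ (n + 1)) :=
      ev_hom _ _ _ (by
        have h2 := (isHomogeneous_X Ω i₀).pow (n + 1)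
        rwa [one_mul] at h2)
    rw [h1, map_pow, eval_X, hx, one_pow]
    exact one_ne_zero
  have he0 : LinearIndependent Ω (bE x e) := by
    have h0 : e i₀ = 0 := by
      rw [he, hx]
      exact Derivation.map_one_eq_zero (D none)
    refine LinearIndependent.pair_iff.2 fun s t hst => ?_
    have h1 : s = 0 := by
      have h2 := congrFun hst (Sum.inl i₀)
      have h3 : s * x i₀ + t * e i₀ = 0 := h2
      rwa [hx, h0, mul_one, mul_zero, add_zero] at h3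
    obtain ⟨l, hl⟩ := hne
    refine ⟨h1, ?_⟩
    have h2 := congrFun hst (Sum.inl l)
    have h3 : s * x l + t * e l = 0 := h2
    rw [h1, zero_mul, zero_add] at h3
    exact (mul_eq_zero.1 h3).resolve_right hl
  obtain ⟨S, hSd⟩ : ∃ S, S = Submodule.span Ω (Set.range (col D x)) := ⟨_, rfl⟩
  have hxS : x ∈ S := by
    rw [hSd]
    exact Submodule.subset_span ⟨none, rfl⟩
  have heS : e ∈ S := by
    rw [hSd]
    refine Submodule.subset_span ⟨some none, ?_⟩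
    funext l
    exact (he l).symm
  have hSV : ∀ J, (fun l => pv (ds D) x (g0 n σ Ω) J (Sum.inl l)) ∈ S := by
    intro J
    rw [hSd]
    exact Submodule.subset_span ⟨some (some J), rfl⟩
  obtain ⟨i, t, β, f, hlin, hspan, hline⟩ := ex_pointE (pv (ds D) x (g0 n σ Ω)) (bE x e) he0 x i₀ hx
  have hlin' := indep_right _ hlin (Fin.elim0 : Fin 0 → σ ⊕ K0 → Ω)
  obtain ⟨p, u, e', f', rr, hp, hdt⟩ := point_completeE (pv (ds D) x (g0 n σ Ω)) (bE x e) x i₀ lam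
    hl0 hl1 hu S (bE_mem x e S hxS heS) hSV β _ (fun s => ⟨_, sg_mem x i₀ (f s), rfl⟩) _
    (fun s => s.elim0) hlin'
  have hcard := Fintype.card_congr rr
  simp only [Fintype.card_sum, Fintype.card_prod, Fintype.card_fin] at hcard
  have hrank := rankE D x e he i₀ hx _ hspan (Submodule.subset_span ⟨Sum.inl (Sum.inl 0), rfl⟩)
    (Submodule.subset_span ⟨Sum.inl (Sum.inl 1), rfl⟩)
  simp only [Fintype.card_sum, Fintype.card_prod, Fintype.card_fin] at hrank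
  rw [← hSd] at hrank
  have hit : 2 * i + t + 3 = Module.finrank Ω S := by omega
  have hSK : Module.finrank Ω S ≤ Fintype.card σ := by omega
  obtain ⟨kw, hkw⟩ : ∃ kw, kw = Module.finrank Ω S := ⟨_, rfl⟩
  have hxi : ∀ (O : ValuationSubring Ω) (m : σ), (∀ l, xt x m l ∈ O) → (x m)⁻¹ ∈ O := by
    intro O m hxm
    have h1 := hxm i₀
    unfold xt at h1
    rwa [hx, one_div] at h1
  by_cases hi : 0 < i
  · right
    exact ⟨_, _, _, _, blkE D x e i₀ hi β _ hlin⟩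
  left
  by_cases hA : kw + i + t + 1 ≤ n + 1
  · refine rat_ptE hB x i₀ hx ∅ (fun b hb => absurd hb (Finset.notMem_empty b)) _ hdt
      (Fintype.card (σ ⊕ K0)) ?_
    intro O Δ hΔ _ m hm hxm
    have hl := hxi O m hxm
    obtain ⟨N, hN, eq⟩ := g1_detE (locG0 (n := n) (ds_bdd hΔ) x m) hm hxm hx
      (pe e (ε0 Ω)) (pe (fun l => D none (x l / x m)) (ε0 Ω)) (bE_loc x e he m hm)
      (bE_bdd hΔ x m hxm) β f e' f' rr (by
      intro q hq
      have h1 := hspan q hq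
      rw [Set.Sum.elim_range, Set.Sum.elim_range] at h1
      exact h1)
    rw [add_assoc (Fintype.card σ) i t] at eq
    have h2 := ka_w _ _ _ hm (n + 1) p (Fintype.card σ) (Module.finrank Ω S) kw (i + t) eq hp
      hkw.ge
    rw [← add_assoc] at h2
    have h3 := ka_easy O _ (x m) Δ kw i t (n + 1) _ hA hm hl
      ⟨_, mul_mem (pow_mem hl _) hN, h2⟩
    rw [← mul_assoc]
    exact h3
  obtain ⟨hi0, ht, hkw5⟩ := arE1 _ _ i t kw hK hq (by rw [hit, hkw]) hA hi (by rw [hkw]; exact hSK)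
  obtain ⟨y, b₀, ha, hI⟩ := hline (by omega)
  -- the fan
  obtain ⟨K, hKn, -, hlinK, hspanK⟩ := ex_fan (pv (ds D) x (g0 n σ Ω)) _ f x y i₀ b₀ hx ha hlin
    hspan hI
  have hlinK' := indep_mid _ _ hlinK (Fin.elim0 : Fin 0 → σ ⊕ K0 → Ω)
  obtain ⟨p₁, u₁, e₁, f₁, rr₁, hp₁, hdt₁⟩ := point_completeE (pv (ds D) x (g0 n σ Ω)) (bE x e) x i₀
    lam hl0 hl1 hu S (bE_mem x e S hxS heS) hSV β _ (fun s => s.elim0) _
    (fun s => ⟨_, fn_mem x i₀ b₀ (K s), rfl⟩) hlinK'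
  -- the flag
  have hcomp : ∀ q : MvPolynomial σ Ω, fp (cP (fv (ds D) x y (g0 n σ Ω)) q) =
      cP (pv (ds D) x (g0 n σ Ω)) q := by
    intro q
    have h1 : (fun J => fp (fv (ds D) x y (g0 n σ Ω) J)) = pv (ds D) x (g0 n σ Ω) :=
      funext fun J => fp_fv (ds D) x y (g0 n σ Ω) J
    rw [ka_comp, h1]
  obtain ⟨b, r, t', f₂, K₂, f₂', rr₂, hK₂, -, hdt₂, hI₂, hJ₂, hd1, hd2, hd3, hc2⟩ :=
    ex_flag (fv (ds D) x y (g0 n σ Ω)) x y (ε0 Ω) i₀ b₀ hx ha (lam.comp fp) (by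
      intro s
      fin_cases s
      · show lam (fp (tr 0 x 0)) = 0
        rw [fp_tr]
        have : (Sum.elim (0 : σ → Ω) (0 : K0 → Ω)) = 0 := by
          funext r
          rcases r with l | k <;> rfl
        rw [this, map_zero]
      · show lam (fp (tr x 0 (ε0 Ω))) = 0
        rw [fp_tr]
        exact hl0'
      · show lam (fp (tr 0 y 0)) = 0
        rw [fp_tr]
        have : (Sum.elim (0 : σ → Ω) (0 : K0 → Ω)) = 0 := by
          funext r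
          rcases r with l | k <;> rfl
        rw [this, map_zero]) (by
      intro q hq
      show lam (fp (cP (fv (ds D) x y (g0 n σ Ω)) q)) = 0
      rw [hcomp]
      exact hl1 q hq) (by
      show lam (fp (cP (fv (ds D) x y (g0 n σ Ω)) _)) ≠ 0
      rw [hcomp]
      exact hu)
  have hrk := rk4 (ds D) x y (g0 n σ Ω) (ε0 Ω)
  have hle : Module.finrank Ω (Submodule.span Ω (Set.range (col (ds D) x))) ≤
      Module.finrank Ω S := by
    refine Submodule.finrank_mono ?_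
    rw [Submodule.span_le]
    rintro _ ⟨_ | J, rfl⟩
    · exact hxS
    · exact hSV J
  rw [hK0] at hrk
  have hbr : b + r + 4 ≤ 5 + 5 := by omega
  by_cases hT : 5 ≤ r
  · have hmv : Moves 5 (ds D) (fun (j : Fin 0) _ => j.elim0) ![x, y] := by
      refine moves_of_flag (z := Fin 0) 5 (ds D) (fun (j : Fin 0) _ => j.elim0) x y (g0 n σ Ω)
        (fun _ j => j.elim0) (ε0 Ω) (fun j => j.elim0) ?_
      rw [hd1, Fintype.card_fin]
      exact (kd_ar1 b 5 r hT).trans hd3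
    obtain ⟨G, hG, hKL⟩ := Pool.Agent.Helper74.LN.k2 (ds D) (fun (j : Fin 0) _ => j.elim0) ![x, y]
      ⟨i₀, b₀, ha⟩ 5 hmv (by rw [hK, Fintype.card_fin]; norm_num)
    exact line_mem_G hB.frame hq4 x i₀ hx hF y ⟨i₀, b₀, ha⟩ G hG _ fun O Δ hΔ m _ _ j l =>
      hKL O Δ hΔ (fun j => j.elim0) j l
  obtain ⟨G₂, hG₂⟩ : ∃ G₂, G₂ = Pool.Agent.Helper49.LN.dt rr₂ (vv (b3 x y (ε0 Ω)) (vb0 _)
      (fun s => lv (fv (ds D) x y (g0 n σ Ω)) (pl x y) (f₂ s))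
      (fun s => fn (fv (ds D) x y (g0 n σ Ω)) x i₀ b₀ (K₂ s))
      (fun _ => la (E := Ω) (fv (ds D) x y (g0 n σ Ω)) i₀) fun s => kv x y (f₂' s)) := ⟨_, rfl⟩
  rw [← hG₂] at hdt₂
  by_cases h4 : r = 4
  · -- the special case
    subst h4
    refine line_mem_G hB.frame hq4 x i₀ hx hF y ⟨i₀, b₀, ha⟩
      (G₂ / pl x y i₀ b₀ ^ (5 + b))
      (div_ne_zero hdt₂ (pow_ne_zero _ ha)) (Fintype.card ((σ ⊕ σ) ⊕ K0)) ?_
    intro O Δ hΔ m hm hxm j' l'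
    obtain ⟨j, hL⟩ := exists_j O x y i₀ b₀ ha m hm hxm
    have hδ : pl x y i₀ b₀ / pl x y m j = pl (xt x m) (yt x y m j) i₀ b₀ := by
      rw [hL.pl_eq i₀ b₀, mul_div_cancel_left₀ _ hL.hρ]
    have hδ' : pl x y j' l' / pl x y m j = pl (xt x m) (yt x y m j) j' l' := by
      rw [hL.pl_eq j' l', mul_div_cancel_left₀ _ hL.hρ]
    obtain ⟨N₂, hN₂, eq₂⟩ := g2_det (locG0 (n := n) hΔ x m) hL i₀ b₀ hx ha f₂ K₂ hK₂ f₂' rr₂
      hI₂ hJ₂
    rw [← hG₂] at eq₂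
    refine lnE b (by omega) O _ (x m) (pl x y m j) Δ (pl x y i₀ b₀) (pl x y j' l') _ hm hL.hρ ha
      (by rw [hδ]; exact hL.pl_mem i₀ b₀) (by rw [hδ']; exact hL.pl_mem j' l') ⟨N₂, hN₂, ?_⟩
    rw [hδ]
    rw [hK, hq] at eq₂
    rw [mul_assoc (Δ ^ _ * _)]
    exact eq₂
  -- the numbers
  subst ht
  subst hi0
  obtain ⟨B', C, m', s, n1, n2, n3⟩ := numE b r (by omega) hbr
  obtain ⟨G₁, hG₁⟩ : ∃ G₁, G₁ = Pool.Agent.Helper49.LN.dt rr₁ (vv (bE x e)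
      (fun p => bl (pv (ds D) x (g0 n σ Ω)) x i₀ (β p.1) p.2) Fin.elim0
      (fun s => fn (pv (ds D) x (g0 n σ Ω)) x i₀ b₀ (K s))
      (Sum.elim (fun _ => la (E := Ω) (pv (ds D) x (g0 n σ Ω)) i₀) fun s => uv (Sum.inl (e₁ s)))
      fun s => uv (f₁ s)) := ⟨_, rfl⟩
  have hdt₁' : G₁ ≠ 0 := by
    rw [hG₁]
    exact hdt₁
  refine rat_ptE hB x i₀ hx ∅ (fun b hb => absurd hb (Finset.notMem_empty b))
    (G₁ ^ B' * G₂ ^ C / pl x y i₀ b₀ ^ m')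
    (div_ne_zero (mul_ne_zero (pow_ne_zero _ hdt₁') (pow_ne_zero _ hdt₂)) (pow_ne_zero _ ha))
    (B' * Fintype.card (σ ⊕ K0) + C * Fintype.card ((σ ⊕ σ) ⊕ K0)) ?_
  intro O Δ hΔ _ m hm hxm
  have hl := hxi O m hxm
  obtain ⟨j, hL⟩ := exists_j O x y i₀ b₀ ha m hm hxm
  have hδ : pl x y i₀ b₀ / pl x y m j = pl (xt x m) (yt x y m j) i₀ b₀ := by
    rw [hL.pl_eq i₀ b₀, mul_div_cancel_left₀ _ hL.hρ]
  obtain ⟨N₁, hN₁, eq₁⟩ := g1_fanE (locG0 (n := n) (ds_bdd hΔ) x m) hL hx ha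
    (pe e (ε0 Ω)) (pe (fun l => D none (x l / x m)) (ε0 Ω)) (bE_loc x e he m hm)
    (bE_bdd hΔ x m hxm) β K hKn e₁ f₁ rr₁ (by
    intro q hq
    have h1 := hI q hq
    rw [Set.Sum.elim_range] at h1
    exact h1) (by
    intro q hq
    have h1 := hspanK q hq
    rw [Set.Sum.elim_range, Set.Sum.elim_range] at h1
    exact h1)
  obtain ⟨N₂, hN₂, eq₂⟩ := g2_det (locG0 (n := n) (ds_bdd hΔ) x m) hL i₀ b₀ hx ha f₂ K₂ hK₂ f₂'
    rr₂ hI₂ hJ₂
  have hG₁' : Pool.Agent.Helper49.LN.dt rr₁ (vv ![pe x (ε0 Ω), pe e (ε0 Ω)]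
      (fun p => bl (pv (ds D) x (g0 n σ Ω)) x i₀ (β p.1) p.2) Fin.elim0
      (fun s => fn (pv (ds D) x (g0 n σ Ω)) x i₀ b₀ (K s))
      (Sum.elim (fun _ => la (E := Ω) (pv (ds D) x (g0 n σ Ω)) i₀) fun s => uv (Sum.inl (e₁ s)))
      fun s => uv (f₁ s)) = G₁ := by
    rw [hG₁]
    rfl
  rw [hG₁', add_assoc (Fintype.card σ) 0 2, mul_assoc (x m ^ _)] at eq₁
  rw [← hG₂] at eq₂
  have h2 := ka_w _ _ _ hm (n + 1) p₁ (Fintype.card σ) (Module.finrank Ω S) kw (0 + 2)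
    eq₁ hp₁ hkw.ge
  rw [← add_assoc] at h2
  have h6 : Δ ^ Fintype.card (σ ⊕ K0) * G₁ * x m ^ 6 = x m ^ (5 + 0 + 2) *
      (pl x y i₀ b₀ / pl x y m j) ^ (2 * (2 + 1) / 2) *
        ((x m)⁻¹ ^ (kw - Module.finrank Ω S) * N₁) := by
    rw [← hq, h2, hδ, hkw5]
    ring
  have h7 : Δ ^ Fintype.card ((σ ⊕ σ) ⊕ K0) * G₂ * x m ^ 6 * pl x y m j =
      x m ^ (2 + r) * pl x y m j ^ (5 + b) *
        (pl x y i₀ b₀ / pl x y m j) ^ (r * (r + 1) / 2) * N₂ := by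
    rw [hK, hq] at eq₂
    rw [hδ, ← eq₂]
    ring
  have h8 := kd_pt 5 5 6 0 2 b r B' C m' s n1 n2 n3 O G₁ G₂ (x m)
    (pl x y m j) Δ (pl x y i₀ b₀) (Fintype.card (σ ⊕ K0)) (Fintype.card ((σ ⊕ σ) ⊕ K0)) hm hL.hρ
    ha (by rw [hδ]; exact hL.pl_mem i₀ b₀) hl
    ⟨_, mul_mem (pow_mem hl _) hN₁, h6⟩ ⟨_, hN₂, h7⟩
  rw [← mul_assoc]
  exact h8

end Pool.Agent.Helper10.Q46
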