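import Pool.Agent.Helper10.Q46.StageOneE
import Pool.Agent.Helper10.Q46.StageTwoE
import Pool.Agent.Helper6.QS.EngQ

/-!
# Q46-ENGE: finiteness from the key statement

Copy of `Helper6/QS/EngQ.lean` with one more derivation.
-/

set_option autoImplicit false

namespace Pool.Agent.Helper10.Q46

open scoped BigOperators
open MvPolynomial
open Pool.Agent.Helper8.LG
open Pool.Agent.Helper49.LN (cP mo hf pl)
open Pool.Agent.Helper6.QS

universe u v

theorem core_qE {N q : ℕ} (hK : KeyE.{u} N q) {k : Type v} {L Ω : Type u} [Field k] [Field L]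
    [Field Ω] [CharZero Ω] [Algebra k L] [Algebra L Ω] [Algebra k Ω] [IsScalarTower k L Ω]
    (K : Subring Ω) (hkK : ∀ b : k, algebraMap k Ω b ∈ K) (hLD : UlDisj k (L := L) K)
    {n : ℕ} (c : Fin n → Ω) (hcK : ∀ r, c r ∈ K) (a : Sym (Fin (N + 1)) q → L)
    (D : Option (Sym (Fin (N + 1)) q) → Derivation ℤ Ω Ω)
    (hD : ∀ I J, D (some J) (algebraMap L Ω (a I)) = if I = J then 1 else 0)
    (hD0 : ∀ I, D none (algebraMap L Ω (a I)) = 0)
    (hDL : ∀ p b, ∃ b', D p (algebraMap L Ω b) = algebraMap L Ω b')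
    (hDk : ∀ p (b : k), D p (algebraMap k Ω b) = 0) (hDc : ∀ p r, D p (c r) = 0)
    (x : Fin (N + 1) → Ω) (hx : x 0 = 1) (G : Ω) (hG : G ≠ 0)
    (hGx : ∀ l, G * x l ∈ Algebra.adjoin L (Set.range c))
    (hF : form (fun J => algebraMap L Ω (a J)) x = 0) (hne : ∃ l, D none (x l) ≠ 0) :
    ∀ l, IsAlgebraic L (x l) := by
  classical
  set F : IntermediateField L Ω := IntermediateField.adjoin L (Set.range c) with hFdef
  have hsub : ∀ z ∈ Algebra.adjoin L (Set.range c), z ∈ F := fun z hz =>
    IntermediateField.algebra_adjoin_le_adjoin L _ hz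
  have hFcl : F.toSubfield = Subfield.closure (Set.range (algebraMap L Ω) ∪ Set.range c) :=
    IntermediateField.adjoin_toSubfield L _
  -- the generators
  set c' : Fin n → F := fun r => ⟨c r, IntermediateField.subset_adjoin L _ ⟨r, rfl⟩⟩ with hc'
  have himg : ∀ B : Set (Fin n), (F.val : F → Ω) '' (c' '' B) = c '' B := by
    intro B
    rw [← Set.image_comp]
    rfl
  have hrange : (F.val : F → Ω) '' (Set.range c') = Set.range c := by
    rw [← Set.image_univ, himg, Set.image_univ]
  have hgen : IntermediateField.adjoin L (Set.range c') = ⊤ := by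
    apply IntermediateField.lift_injective F
    rw [IntermediateField.lift_adjoin, IntermediateField.lift_top]
    have h1 : (Subtype.val : F → Ω) '' (Set.range c') = Set.range c := hrange
    rw [h1]
  obtain ⟨B, hB1, hB2⟩ := ul_basis (k := k) c'
  have hB3 : AlgebraicIndependent k (fun b : B => c b) :=
    (AlgHom.algebraicIndependent_iff (x := fun b : B => c' b) ((F.val).restrictScalars k)
      Subtype.val_injective).2 hB1
  have hB4 : AlgebraicIndependent L (fun b : B => c b) :=
    ul_algInd K hkK hLD _ (fun b => hcK b) hB3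
  have hB5 : AlgebraicIndependent L (fun b : B => c' b) :=
    (AlgHom.algebraicIndependent_iff (x := fun b : B => c' b) F.val Subtype.val_injective).1 hB4
  have halg : ∀ r, IsAlgebraic (IntermediateField.adjoin k (c' '' B)) (c' r) := by
    intro r
    have h1 := hB2 r
    obtain ⟨p, hp0, hp⟩ := h1
    set φ : Algebra.adjoin k (c' '' B) →+* IntermediateField.adjoin k (c' '' B) :=
      { toFun := fun z => ⟨z, IntermediateField.algebra_adjoin_le_adjoin k _ z.2⟩
        map_one' := rfl
        map_mul' := fun _ _ => rfl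
        map_zero' := rfl
        map_add' := fun _ _ => rfl } with hφ
    have hφi : Function.Injective φ := by
      intro u v huv
      apply Subtype.ext
      exact congrArg (fun z : IntermediateField.adjoin k (c' '' B) => (z : F)) huv
    refine ⟨p.map φ, ?_, ?_⟩
    · rwa [Ne, Polynomial.map_eq_zero_iff hφi]
    · rw [Polynomial.aeval_def, Polynomial.eval₂_map]
      exact hp
  -- the derivations
  have hst : ∀ p, ∀ f ∈ F, D p f ∈ F := by
    intro p f hf
    have hf' : f ∈ F.toSubfield := hf
    rw [hFcl] at hf'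
    have h1 := rg_stable (D p) (Set.range (algebraMap L Ω) ∪ Set.range c) ?_ f hf'
    · rw [← hFcl] at h1
      exact h1
    · rintro g (⟨z, rfl⟩ | ⟨r, rfl⟩)
      · obtain ⟨z', hz'⟩ := hDL p z
        rw [hz']
        exact Subfield.subset_closure (Or.inl ⟨z', rfl⟩)
      · rw [hDc]
        exact zero_mem _
  set δ : Option (Sym (Fin (N + 1)) q) → Derivation ℤ F F := fun p =>
    Derivation.mk' (AddMonoidHom.toIntLinearMap
      { toFun := fun f => (⟨D p f, hst p f f.2⟩ : F)
        map_zero' := Subtype.ext (map_zero (D p))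
        map_add' := fun f g => Subtype.ext (map_add (D p) (f : Ω) g) })
      (fun f g => Subtype.ext ((D p).leibniz (f : Ω) g)) with hδ
  have hδv : ∀ p (f : F), ((δ p f : F) : Ω) = D p f := fun p f => rfl
  have hamap : ∀ b : L, ((algebraMap L F b : F) : Ω) = algebraMap L Ω b := fun b => rfl
  -- the point
  have hxF : ∀ l, x l ∈ F := by
    intro l
    have h1 : G ∈ F := by
      have := hsub _ (hGx 0)
      rwa [hx, mul_one] at this
    have h2 : x l = G * x l / G := by field_simp
    rw [h2]
    exact div_mem (hsub _ (hGx l)) h1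
  set x' : Fin (N + 1) → F := fun l => ⟨x l, hxF l⟩ with hx'
  have hform : ((form (fun J => algebraMap L F (a J)) x' : F) : Ω) =
      form (fun J => algebraMap L Ω (a J)) x :=
    ul_map_form (F.val : F →+* Ω) _ _
  have hcz : CharZero F := inferInstance
  have key := stage_twoE (k := k) (L := L) (E := F) hK c' hgen B hB5 halg a δ ?_ ?_ ?_ ?_ ?_ x'
    (Subtype.ext hx) (Subtype.ext (hform.trans hF)) ?_
  · exact fun l => (key l).algHom F.val
  · intro I J
    apply Subtype.ext
    rw [hδv, hamap, hD I J]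
    split_ifs <;> rfl
  · intro I
    apply Subtype.ext
    rw [hδv, hamap, hD0 I]
    rfl
  · intro p b
    obtain ⟨b', hb'⟩ := hDL p b
    exact ⟨b', Subtype.ext hb'⟩
  · intro p b
    exact Subtype.ext (hDk p b)
  · intro p r
    exact Subtype.ext (hDc p r)
  · obtain ⟨l, hl⟩ := hne
    refine ⟨l, fun h0 => hl ?_⟩
    exact congrArg (fun z : F => (z : Ω)) h0

theorem ultra_qE {N q : ℕ} (hK : KeyE.{u} N q) {k : Type v} {L : Type u} [Field k] [Field L]
    [CharZero L] [Algebra k L] (a : Sym (Fin (N + 1)) q → L)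
    (D : Option (Sym (Fin (N + 1)) q) → Derivation ℤ L L)
    (hD : ∀ I J, D (some J) (a I) = if I = J then 1 else 0) (hD0 : ∀ I, D none (a I) = 0)
    (hDk : ∀ J (c : k), D J (algebraMap k L c) = 0) (V : Submodule k L) [FiniteDimensional k V]
    (S : Set (Fin (N + 1) → L))
    (hS : ∀ x ∈ S, x 0 = 1 ∧ form a x = 0 ∧ (∃ l, D none (x l) ≠ 0) ∧
      ∃ G : L, G ≠ 0 ∧ ∀ l, G * x l ∈ V) :
    S.Finite := by
  classical
  by_contra hnf
  have hinf : S.Infinite := hnf
  set X : ℕ → Fin (N + 1) → L := fun m => (hinf.natEmbedding S m : Fin (N + 1) → L) with hX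
  have hXS : ∀ m, X m ∈ S := fun m => (hinf.natEmbedding S m).2
  have hXi : Function.Injective X := fun u v huv =>
    (hinf.natEmbedding S).injective (Subtype.ext huv)
  have hS' := fun m => hS (X m) (hXS m)
  choose hX0 hXF hXne G hG0 hGx using hS'
  obtain ⟨Ω, instΩ, Q, hQ, hker⟩ := ul_exists L
  let algLΩ : Algebra L Ω := (Q.comp (Pi.constRingHom ℕ L)).toAlgebra
  let algkΩ : Algebra k Ω := ((algebraMap L Ω).comp (algebraMap k L)).toAlgebra
  have : IsScalarTower k L Ω := IsScalarTower.of_algebraMap_eq fun _ => rfl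
  have : CharZero Ω := charZero_of_injective_algebraMap (algebraMap L Ω).injective
  have halgL : ∀ b : L, algebraMap L Ω b = Q fun _ => b := fun _ => rfl
  have halgk : ∀ b : k, algebraMap k Ω b = Q fun _ => algebraMap k L b := fun _ => rfl
  -- the constants
  set K : Subring Ω := (Q.comp ((algebraMap k L).compLeft ℕ)).range with hKdef
  have hQK : ∀ g : ℕ → k, Q (fun m => algebraMap k L (g m)) ∈ K := fun g => ⟨g, rfl⟩
  have hLD : UlDisj k (L := L) K := by
    intro J hJ T z hz hsum
    choose g hg using hz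
    have hg' : ∀ b, Q (fun m => algebraMap k L (g b m)) = z b := fun b => hg b
    have h1 := ul_disj Q hker J hJ T g (by
      rw [← hsum]
      exact Finset.sum_congr rfl fun b _ => by rw [hg', halgL])
    intro b hb
    rw [← hg']
    exact h1 b hb
  -- the sequences
  set bV := Module.finBasis k V with hbV
  set r := Module.finrank k V with hr
  set h : Fin (N + 1) → ℕ → L := fun l m' => G m' * X m' l with hh
  have hhV : ∀ l m', h l m' ∈ V := fun l m' => hGx m' l
  set c₀ : Fin (N + 1) × Fin r → Ω := fun ηj => Q fun m' =>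
    algebraMap k L (bV.repr ⟨h ηj.1 m', hhV ηj.1 m'⟩ ηj.2) with hc₀
  set eqv := (Fintype.equivFin (Fin (N + 1) × Fin r)).symm with heqv
  set c : Fin (Fintype.card (Fin (N + 1) × Fin r)) → Ω := fun s => c₀ (eqv s) with hc
  have hcmem : ∀ ηj, c₀ ηj ∈ Algebra.adjoin L (Set.range c) := fun ηj =>
    Algebra.subset_adjoin ⟨eqv.symm ηj, by rw [hc]; simp⟩
  have hhc : ∀ l, Q (h l) ∈ Algebra.adjoin L (Set.range c) := by
    intro l
    have h1 : Q (h l) = ∑ j, algebraMap L Ω (bV j : L) * c₀ (l, j) := by
      have h2 : h l = ∑ j, (fun _ => (bV j : L)) *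
          (fun m' => algebraMap k L (bV.repr ⟨h l m', hhV l m'⟩ j)) := by
        funext m'
        rw [Finset.sum_apply]
        have h3 := congrArg (Subtype.val : V → L) (bV.sum_repr ⟨h l m', hhV l m'⟩)
        rw [Submodule.coe_sum] at h3
        have h4 : ((⟨h l m', hhV l m'⟩ : V) : L) = h l m' := rfl
        rw [h4] at h3
        rw [← h3]
        refine Finset.sum_congr rfl fun j _ => ?_
        show _ = (bV j : L) * algebraMap k L (bV.repr ⟨h l m', hhV l m'⟩ j)
        rw [Submodule.coe_smul, Algebra.smul_def, mul_comm]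
      conv_lhs => rw [h2]
      rw [map_sum]
      exact Finset.sum_congr rfl fun j _ => by rw [map_mul]; rfl
    rw [h1]
    exact sum_mem fun j _ => mul_mem (Subalgebra.algebraMap_mem _ _) (hcmem _)
  -- the core
  have hform : form (fun J => algebraMap L Ω (a J)) (fun l => Q fun m' => X m' l) =
      Q fun m' => form a (X m') := (ul_Q_form Q a X).symm
  have hcore := core_qE hK (k := k) (L := L) K (fun b => by rw [halgk]; exact hQK fun _ => b)
    hLD c (fun s => hQK _) a (fun p => ulDer Q hQ hker (D p)) ?_ ?_ ?_ ?_ ?_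
    (fun l => Q fun m' => X m' l) ?_ (Q G) ?_ ?_ ?_ ?_
  · -- conclusion
    have hconst : ∀ z : Ω, IsAlgebraic L z → ∃ b : L, algebraMap L Ω b = z := by
      rintro z ⟨p, hp0, hp⟩
      obtain ⟨f, rfl⟩ := hQ z
      have h1 : ∀ᶠ m' in (Filter.hyperfilter ℕ : Filter ℕ), p.eval (f m') = 0 := by
        rw [← hker (fun m' => p.eval (f m')), ul_Q_eval Q]
        exact hp
      have h2 : ∃ b ∈ (p.roots.toFinset : Set L),
          ∀ᶠ m' in (Filter.hyperfilter ℕ : Filter ℕ), f m' = b := by
        refine (Ultrafilter.eventually_exists_mem_iff p.roots.toFinset.finite_toSet).mp ?_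
        filter_upwards [h1] with m' hm'
        refine ⟨f m', ?_, rfl⟩
        rw [Finset.mem_coe, Multiset.mem_toFinset, Polynomial.mem_roots hp0]
        exact hm'
      obtain ⟨b, -, hb⟩ := h2
      refine ⟨b, ?_⟩
      rw [halgL, ← sub_eq_zero, ← map_sub, hker]
      filter_upwards [hb] with m' hm'
      show b - f m' = 0
      rw [hm', sub_self]
    choose b hb using fun l => hconst _ (hcore l)
    have hrel : ∀ l, ∀ᶠ m' in (Filter.hyperfilter ℕ : Filter ℕ), X m' l = b l := by
      intro l
      have h1 : (Q fun m' => X m' l - b l) = 0 := by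
        have h2 : (Q fun m' => X m' l - b l) = (Q fun m' => X m' l) - algebraMap L Ω (b l) := by
          rw [halgL, ← map_sub]
          rfl
        rw [h2, hb l, sub_self]
      rw [hker] at h1
      filter_upwards [h1] with m' hm'
      exact sub_eq_zero.mp hm'
    have hrel' : ∀ᶠ m' in (Filter.hyperfilter ℕ : Filter ℕ), ∀ l, X m' l = b l :=
      Filter.eventually_all.2 hrel
    have hinf' : {m' : ℕ | ∀ l, X m' l = b l}.Infinite := by
      intro hfin
      exact Filter.notMem_hyperfilter_of_finite hfin hrel'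
    apply hinf'
    refine Set.Subsingleton.finite ?_
    intro m₁ h₁ m₂ h₂
    apply hXi
    funext l
    exact (h₁ l).trans (h₂ l).symm
  · intro I J
    show ulDer Q hQ hker (D (some J)) (Q fun _ => a I) = _
    rw [ulDer_apply]
    have h2 : (Q fun _ => D (some J) (a I)) = algebraMap L Ω (D (some J) (a I)) := rfl
    rw [h2, hD I J]
    split_ifs
    · rw [map_one]
    · rw [map_zero]
  · intro I
    show ulDer Q hQ hker (D none) (Q fun _ => a I) = _
    rw [ulDer_apply]
    have h2 : (Q fun _ => D none (a I)) = algebraMap L Ω (D none (a I)) := rfl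
    rw [h2, hD0 I, map_zero]
  · intro p b
    exact ⟨D p b, ulDer_apply Q hQ hker (D p) _⟩
  · intro p b
    rw [halgk, ulDer_apply]
    rw [hker]
    exact Filter.Eventually.of_forall fun m' => hDk p b
  · intro p s
    show ulDer Q hQ hker (D p) (Q _) = 0
    rw [ulDer_apply, hker]
    exact Filter.Eventually.of_forall fun m' => hDk p _
  · show Q (fun m' => X m' 0) = 1
    have h1 : (fun m' => X m' 0) = 1 := by
      funext m'
      exact hX0 m'
    rw [h1, map_one]
  · intro h0
    rw [hker] at h0
    obtain ⟨m', hm'⟩ := h0.exists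
    exact hG0 m' hm'
  · intro l
    show Q G * Q (fun m' => X m' l) ∈ _
    rw [← map_mul]
    exact hhc l
  · rw [hform, hker]
    exact Filter.Eventually.of_forall fun m' => hXF m'
  · by_contra hcon
    push Not at hcon
    have h1 : ∀ᶠ m' in (Filter.hyperfilter ℕ : Filter ℕ), ∀ l, D none (X m' l) = 0 := by
      rw [Filter.eventually_all]
      intro l
      have h2 := hcon l
      rw [ulDer_apply] at h2
      exact (hker _).1 h2
    obtain ⟨m', hm'⟩ := h1.exists
    obtain ⟨l, hl⟩ := hXne m'
    exact hl (hm' l)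

theorem fin_zeroE {N q : ℕ} (hK : KeyE.{u} N q) {k : Type v} {L : Type u} [Field k] [Field L]
    [CharZero L] [Algebra k L] (a : Option (Sym (Fin (N + 1)) q) → L) (hind : AlgebraicIndependent k a)
    (hfin : FiniteDimensional (IntermediateField.adjoin k (Set.range a)) L)
    (D : Option (Sym (Fin (N + 1)) q) → Derivation ℤ L L)
    (hD : ∀ I J, D J (a I) = if I = J then 1 else 0)
    (hDk : ∀ J (c : k), D J (algebraMap k L c) = 0) :
    {x : Fin (N + 1) → L | x 0 = 1 ∧ form (fun J => a (some J)) x = 0 ∧ ∃ l, D none (x l) ≠ 0}.Finite := by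
  classical
  by_contra hnf
  have hinf : {x : Fin (N + 1) → L | x 0 = 1 ∧ form (fun J => a (some J)) x = 0 ∧ ∃ l, D none (x l) ≠ 0}.Infinite := hnf
  set X : ℕ → Fin (N + 1) → L := fun m => (hinf.natEmbedding _ m : Fin (N + 1) → L) with hX
  have hXS : ∀ m, X m 0 = 1 ∧ form (fun J => a (some J)) (X m) = 0 ∧ ∃ l, D none (X m l) ≠ 0 := fun m => (hinf.natEmbedding _ m).2
  have hXi : Function.Injective X := fun u v huv =>
    (hinf.natEmbedding _).injective (Subtype.ext huv)
  obtain ⟨V, hV, hinfV⟩ := stage_oneE hK a hind hfin D hD hDk X (fun m => (hXS m).1)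
    (fun m => (hXS m).2.1) (fun m => (hXS m).2.2)
  have := ultra_qE hK (fun J => a (some J)) D (fun I J => by
      rw [hD]
      exact if_congr Option.some_inj rfl rfl) (fun I => by rw [hD, if_neg (by simp)]) hDk V (X '' {m : ℕ | ∃ G : L, G ≠ 0 ∧ ∀ l, G * X m l ∈ V}) (by
    rintro _ ⟨m, hm, rfl⟩
    exact ⟨(hXS m).1, (hXS m).2.1, (hXS m).2.2, hm⟩)
  exact hinfV.image hXi.injOn this

end Pool.Agent.Helper10.Q46
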