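import Pool.Agent.Helper49.LN.Exist
import Pool.Agent.Helper6.QS.KeyDich
import Pool.Agent.Helper10.Q46.Defs

/-!
# Q46-EXISTE: choice of the columns of a point, with an arbitrary base family
-/

set_option autoImplicit false

namespace Pool.Agent.Helper10.Q46

open scoped BigOperators
open MvPolynomial
open Pool.Agent.Helper49.LN

variable {E : Type*} [Field E] {σ : Type*} [Fintype σ] [DecidableEq σ] {κ : Type*} [Fintype κ]
  [DecidableEq κ] {n : ℕ}

/-- **Point**: blocks and singles; if there are two singles, there is a line. -/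
theorem ex_pointE {M : Type*} [AddCommGroup M] [Module E M] [FiniteDimensional E M] [CharZero E]
    (V : Sym σ (n + 1) → M) {A : Type*} [Fintype A] (v : A → M) (h1 : LinearIndependent E v)
    (x : σ → E) (i₀ : σ) (hx : x i₀ = 1) :
    ∃ (i t : ℕ) (β : Fin i → (Sym σ n × Sym σ n) × (σ × σ)) (f : Fin t → Sym σ n × σ),
      LinearIndependent E (Sum.elim (Sum.elim v
        (fun p : Fin i × Fin 2 => bl V x i₀ (β p.1) p.2)) (fun s => sg V x i₀ (f s))) ∧
      (∀ g ∈ Ipt x, cP V g ∈ Submodule.span E (Set.range (Sum.elim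
        (Sum.elim v (fun p : Fin i × Fin 2 => bl V x i₀ (β p.1) p.2))
        (fun s => sg V x i₀ (f s))))) ∧
      (2 ≤ t → ∃ (y : σ → E) (a : σ), pl x y i₀ a ≠ 0 ∧ ∀ g ∈ Il (pl x y),
        cP V g ∈ Submodule.span E (Set.range (Sum.elim v
          (fun p : Fin i × Fin 2 => bl V x i₀ (β p.1) p.2)))) := by
  obtain ⟨i, β, h2, h3⟩ := max_blocks _ h1 (bl V x i₀)
  obtain ⟨t, f, -, h4, h5⟩ := sel _ h2 (sg V x i₀)
  refine ⟨i, t, β, f, h4, fun g hg => span_sg V x i₀ hx _ h5 g hg, fun ht => ?_⟩
  obtain ⟨W, hW⟩ : ∃ W, W = Submodule.span E (Set.range (Sum.elim v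
    (fun p : Fin i × Fin 2 => bl V x i₀ (β p.1) p.2))) := ⟨_, rfl⟩
  rw [← hW] at h3 ⊢
  obtain ⟨y, hy0, hy, hyW⟩ := stuck W (fun (I : Sym σ n) l => sg V x i₀ (I, l)) i₀
    (fun I => by
      simp only [sg]
      rw [hf_self, mul_zero, map_zero])
    (fun I J l l' => by
      obtain ⟨s, r, h6, h7⟩ := h3 ((I, J), (l, l'))
      refine ⟨s, r, h6, ?_⟩
      have e : ∀ k, sg V x i₀ (I, k) + sg V x i₀ (J, k) =
          cP V ((mo E (I : Multiset σ) + mo E (J : Multiset σ)) * hf x i₀ k) := by
        intro k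
        simp only [sg]
        rw [add_mul, map_add]
      rw [e, e]
      have e1 : bl V x i₀ ((I, J), (l, l')) 0 =
          cP V ((mo E (I : Multiset σ) + mo E (J : Multiset σ)) * hf x i₀ l) := rfl
      have e2 : bl V x i₀ ((I, J), (l, l')) 1 =
          cP V ((mo E (I : Multiset σ) + mo E (J : Multiset σ)) * hf x i₀ l') := rfl
      rw [← e1, ← e2]
      exact h7)
    (by
      refine ⟨(f ⟨0, by omega⟩).1, (f ⟨0, by omega⟩).2, (f ⟨1, by omega⟩).1, (f ⟨1, by omega⟩).2,
        fun s r hsr => ?_⟩
      simp only [Prod.mk.eta] at hsr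
      -- independence modulo `W`
      have h6 : Disjoint (Submodule.span E (Set.range (Sum.elim v
          (fun p : Fin i × Fin 2 => bl V x i₀ (β p.1) p.2))))
          (Submodule.span E (Set.range fun k => sg V x i₀ (f k))) := by
        have h7 := h4.disjoint_span_image (s := Set.range Sum.inl) (t := Set.range Sum.inr)
          Set.isCompl_range_inl_range_inr.disjoint
        rw [← Set.range_comp, ← Set.range_comp] at h7
        exact h7
      rw [← hW] at h6
      have h8 : LinearIndependent E fun k => sg V x i₀ (f k) := h4.comp Sum.inr Sum.inr_injective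
      have h9 : s • sg V x i₀ (f ⟨0, by omega⟩) + r • sg V x i₀ (f ⟨1, by omega⟩) ∈
          Submodule.span E (Set.range fun k => sg V x i₀ (f k)) :=
        add_mem (Submodule.smul_mem _ _ (Submodule.subset_span ⟨_, rfl⟩))
          (Submodule.smul_mem _ _ (Submodule.subset_span ⟨_, rfl⟩))
      have h10 := (Submodule.disjoint_def.1 h6) _ hsr h9
      rw [Fintype.linearIndependent_iff] at h8
      have h11 := h8 (Pi.single ⟨0, by omega⟩ s + Pi.single ⟨1, by omega⟩ r) (by
        simp only [Pi.add_apply, add_smul, Finset.sum_add_distrib]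
        rw [Finset.sum_eq_single (⟨0, by omega⟩ : Fin t), Finset.sum_eq_single
          (⟨1, by omega⟩ : Fin t), Pi.single_eq_same, Pi.single_eq_same, h10]
        · intro b _ hb
          rw [Pi.single_eq_of_ne hb, zero_smul]
        · intro hb
          exact absurd (Finset.mem_univ _) hb
        · intro b _ hb
          rw [Pi.single_eq_of_ne hb, zero_smul]
        · intro hb
          exact absurd (Finset.mem_univ _) hb)
      have hne : (⟨0, by omega⟩ : Fin t) ≠ ⟨1, by omega⟩ := by
        intro h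
        have := congrArg Fin.val h
        simp at this
      have h12 := h11 ⟨0, by omega⟩
      have h13 := h11 ⟨1, by omega⟩
      rw [Pi.add_apply, Pi.single_eq_same, Pi.single_eq_of_ne hne, add_zero] at h12
      rw [Pi.add_apply, Pi.single_eq_same, Pi.single_eq_of_ne hne.symm, zero_add] at h13
      exact ⟨h12, h13⟩)
  obtain ⟨a, ha⟩ : ∃ a, y a ≠ 0 := by
    by_contra hcon
    push Not at hcon
    exact hy (funext hcon)
  refine ⟨y, a, ?_, fun g hg => span_lv V (pl x y) W (fun p => ?_) g hg⟩
  · unfold pl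
    rw [hx, hy0, mul_zero, sub_zero, one_mul]
    exact ha
  · obtain ⟨I, s⟩ := p
    obtain ⟨j, l, m⟩ := s
    obtain ⟨c, hc⟩ : ∃ c : σ → E, c = pl x y j l • Pi.single m 1 - pl x y j m • Pi.single l 1 +
      pl x y l m • Pi.single j 1 := ⟨_, rfl⟩
    have h6 := hyW c (by
      have h7 := sum_three (pl x y j l) (pl x y j m) (pl x y l m) j l m y
      rw [← hc] at h7
      simp only [smul_eq_mul] at h7
      rw [h7]
      unfold pl
      ring) I
    rw [hc, sum_three (pl x y j l) (pl x y j m) (pl x y l m) j l m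
      (fun l => sg V x i₀ (I, l))] at h6
    have h8 : lv V (pl x y) (I, j, l, m) = pl x y j l • sg V x i₀ (I, m) -
        pl x y j m • sg V x i₀ (I, l) + pl x y l m • sg V x i₀ (I, j) := by
      simp only [lv, sg]
      rw [Lf_base x y i₀ hx]
      simp only
      rw [mul_add, mul_sub, map_add, map_sub, mul_smul_comm, mul_smul_comm, mul_smul_comm,
        map_smul, map_smul, map_smul]
    rw [h8]
    exact h6

end Pool.Agent.Helper10.Q46
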