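import Pool.Agent.Helper10.Q46.EngE
import Pool.Agent.Helper10.Q46.BasisE
import Pool.Agent.Helper6.QS.FinKey

/-!
# Q46-FINKEYE: finiteness in terms of polynomials

`i₀ = 0`: with `a = cf q F` (`adjoin_poly`, `card_Ix` and `red_subfamily` as in `finKey_zero`,
`Helper6/QS/FinKey.lean`, give that `a` is algebraically independent over `k₀`), `basis_e` with
`v = a`. For `u ∈ s`, `fin_zeroE` (`k := k u`, the family `p.elim u a`) gives finiteness of
`{x | x 0 = 1 ∧ form a x = 0 ∧ ∃ l, D u none (x l) ≠ 0}`. The set is contained in the finite union over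
`u ∈ s`: if all `D u none (x l) = 0`, then all `x l` are algebraic over `k₀(a) = k₀(coefficients)`
(`adjoin_poly`, `form_cf`). General `i₀`: permute the variables as in `fin_key` there
(`rename (Equiv.swap 0 i₀)`, the set of coefficients is the same).
-/

set_option autoImplicit false

namespace Pool.Agent.Helper10.Q46

open scoped BigOperators
open MvPolynomial
open Pool.Agent.Helper8.LG
open Pool.Agent.Helper49.LN (cP mo hf pl)
open Pool.Agent.Helper6.QS

universe u v

/-- the case `i₀ = 0` -/
theorem finKeyE_zero {N q : ℕ} (hK : KeyE.{u} N q) {k₀ : Type v} {L : Type u} [Field k₀]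
    [Field L] [CharZero L] [Algebra k₀ L] (hfg : (⊤ : IntermediateField k₀ L).FG)
    (F : MvPolynomial (Fin (N + 1)) L) (hF : F.IsHomogeneous q)
    (hcoef : ((N + q).choose N : Cardinal) ≤
      Algebra.trdeg k₀ (IntermediateField.adjoin k₀ {z | ∃ J, z = coeff J F})) :
    {x : Fin (N + 1) → L | x 0 = 1 ∧ eval x F = 0 ∧
      ¬ ∀ l, IsAlgebraic (IntermediateField.adjoin k₀ {z | ∃ J, z = coeff J F}) (x l)}.Finite := by
  classical
  have e1 : ({z | ∃ J, z = coeff J F} : Set L) = {z | ∃ (_ : Fin 1) (J : Fin (N + 1) →₀ ℕ),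
      z = coeff J F} := by
    ext z
    constructor
    · intro h
      exact ⟨0, h⟩
    · rintro ⟨-, h⟩
      exact h
  have h1 := Pool.Agent.Helper8.LV.adjoin_poly k₀ (fun _ : Fin 1 => q) (fun _ => F)
    (fun _ => hF)
  have hrg : (Set.range fun p : Ix (Fin (N + 1)) fun _ : Fin 1 => q => cf q F p.2) =
      Set.range (cf q F) := by
    ext z
    constructor
    · rintro ⟨p, rfl⟩
      exact ⟨p.2, rfl⟩
    · rintro ⟨J, rfl⟩
      exact ⟨⟨0, J⟩, rfl⟩
  have hadj : IntermediateField.adjoin k₀ {z | ∃ J, z = coeff J F} =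
      IntermediateField.adjoin k₀ (Set.range (cf q F)) := by
    rw [e1, h1]
    exact congrArg _ hrg
  obtain ⟨T, hT, hTc⟩ := red_subfamily (k := k₀) (cf q F)
  have hall : ∀ p : Sym (Fin (N + 1)) q, p ∈ T := by
    have h2 : Fintype.card (Sym (Fin (N + 1)) q) ≤ T.card := by
      rw [hadj, ← hTc] at hcoef
      have h3 : (N + q).choose N ≤ T.card := by exact_mod_cast hcoef
      rw [Sym.card_sym_eq_choose, Fintype.card_fin]
      have h : N + 1 + q - 1 = N + q := by omega
      rw [h, ← Nat.choose_symm_add]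
      exact h3
    have h4 : T = Finset.univ := Finset.eq_univ_of_card T (le_antisymm (Finset.card_le_univ T) h2)
    intro p
    rw [h4]
    exact Finset.mem_univ p
  have hinj : Function.Injective
      (fun J : Sym (Fin (N + 1)) q => (⟨J, hall J⟩ : T)) := by
    intro J J' h
    exact congrArg (fun p : T => p.1) h
  have hv : AlgebraicIndependent k₀ (cf q F) :=
    hT.comp (fun J : Sym (Fin (N + 1)) q => (⟨J, hall J⟩ : T)) hinj
  obtain ⟨s, k, D, hs, halg⟩ := basis_e hfg (cf q F) hv
  have hfin : ∀ u ∈ s, {x : Fin (N + 1) → L | x 0 = 1 ∧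
      form (fun J => (fun p : Option (Sym (Fin (N + 1)) q) => p.elim u (cf q F)) (some J)) x = 0 ∧
        ∃ l, D u none (x l) ≠ 0}.Finite := by
    intro u hu
    obtain ⟨p1, p2, p3, p4⟩ := hs u hu
    exact fin_zeroE hK _ p1 p2 (D u) p3 p4
  refine (Set.Finite.biUnion (Finset.finite_toSet s) (fun u hu => hfin u hu)).subset ?_
  rintro x ⟨hx0, hxF, hxa⟩
  by_contra hcon
  refine hxa fun l => ?_
  rw [hadj]
  refine halg (x l) fun u hu => ?_
  by_contra hne
  refine hcon (Set.mem_biUnion (Finset.mem_coe.2 hu) ⟨hx0, ?_, l, hne⟩)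
  change form (cf q F) x = 0
  rw [form_cf F hF, hxF]

theorem fin_keyE {N q : ℕ} (hq : 0 < q) (hK : KeyE.{u} N q) {k₀ : Type v} {L : Type u} [Field k₀]
    [Field L] [CharZero L] [Algebra k₀ L] (hfg : (⊤ : IntermediateField k₀ L).FG)
    (F : MvPolynomial (Fin (N + 1)) L) (hF : F.IsHomogeneous q)
    (hcoef : ((N + q).choose N : Cardinal) ≤
      Algebra.trdeg k₀ (IntermediateField.adjoin k₀ {z | ∃ J, z = coeff J F}))
    (i₀ : Fin (N + 1)) : {x : Fin (N + 1) → L | x i₀ = 1 ∧ eval x F = 0 ∧
      ¬ ∀ l, IsAlgebraic (IntermediateField.adjoin k₀ {z | ∃ J, z = coeff J F}) (x l)}.Finite := by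
  classical
  set e : Fin (N + 1) → Fin (N + 1) := fun i => Equiv.swap 0 i₀ i with he
  have hinj : Function.Injective e := (Equiv.swap 0 i₀).injective
  have hee : e ∘ e = id := by
    funext i
    exact Equiv.swap_apply_self 0 i₀ i
  have hset : ({z | ∃ J, z = coeff J F} : Set L) = {z | ∃ J, z = coeff J (rename e F)} := by
    refine Set.Subset.antisymm (finKey_coeff e hinj F) ?_
    have h1 := finKey_coeff e hinj (rename e F)
    rw [rename_rename, hee, rename_id_apply] at h1
    exact h1
  rw [hset] at hcoef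
  have hfin := finKeyE_zero hK hfg (rename e F) (hF.rename_isHomogeneous) hcoef
  rw [← hset] at hfin
  refine Set.Finite.of_finite_image (f := fun x => x ∘ e) (hfin.subset ?_) ?_
  · rintro _ ⟨x, ⟨h1, h2, h3⟩, rfl⟩
    refine ⟨?_, ?_, ?_⟩
    · change x (e 0) = 1
      have h3 : e 0 = i₀ := Equiv.swap_apply_left 0 i₀
      rw [h3]
      exact h1
    · rw [eval_rename, Function.comp_assoc, hee, Function.comp_id]
      exact h2
    · intro h4
      refine h3 fun l => ?_
      have h5 := h4 (e l)
      have h6 : e (e l) = l := congrFun hee l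
      change IsAlgebraic _ (x (e (e l))) at h5
      rw [h6] at h5
      exact h5
  · intro x _ y _ hxy
    have h1 := congrArg (fun z : Fin (N + 1) → L => z ∘ e) hxy
    simp only [Function.comp_assoc, hee, Function.comp_id] at h1
    exact h1

end Pool.Agent.Helper10.Q46
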