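import Pool.Agent.Helper10.Q46.VolE
import Pool.Agent.Helper10.Q46.RatE
import Pool.Agent.Helper74.Q8.FinQ8

/-!
# Q46-FINQE: the last step of the plane case

Copy of `Helper74/Q8/FinQ8.lean` with the additional row `e`: `Q` is a rational quadratic form and
`D_(Q C l) x ∈ (x, e)` for all `C` and all `l ∈ R`. For a form `C` of degree 4, `C - C(x) X_0^4` (and
`X_m^4 - x_m^4 X_0^4`) is a combination of `C'' l`, `l ∈ R`: `D_(Q X_m^4) x = x_m^4 D_(Q X_0^4) x` modulo
`(x, e)`. Let `w_(s,s') = det(x, e, D_(Q X_0^4) x, E_s, E_s')`, `E_s` unit vectors. If all are zero,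
`x, e, D_(Q X_0^4) x` are dependent; `x, e` are independent (`x_0 = 1`, `e_0 = D none 1 = 0`,
`ne0`), so `D_(Q X_0^4) x ∈ (x, e)` and `0 = n . D_(Q X_0^4) x = - Q(x)`. Otherwise, at a valuation ring
with maximal coordinate `m`, `x' = x / x_m`, `e = x_m e' + c x` (`e_loc`):
`w = x_m^(-4) det(x, e, D_(Q X_m^4) x, E, E') = x_m^(3 - 4) det(x', e', D_(Q X_m^4) x', E, E')`, so
`Δ^M w x_m ∈ O` and `rat_ptE` applies (`s` = the coefficients of `Q`).
-/

set_option autoImplicit false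

namespace Pool.Agent.Helper10.Q46

open scoped BigOperators
open MvPolynomial
open Pool.Agent.Helper8.LG (Bdd form mon)
open Pool.Agent.Helper49.LN (cP mo hf pl)
open Pool.Agent.Helper6.QS
open Pool.Agent.Helper74.Q8 (dl rr)

section

variable {Ω : Type*} [Field Ω] {σ : Type*} [Fintype σ] [DecidableEq σ]

/-- the minors of the three rows `x, e, v` -/
def FinQE_tri (x e v : σ → Ω) (i j k : σ) : Ω :=
  x i * (e j * v k - e k * v j) - x j * (e i * v k - e k * v i) + x k * (e i * v j - e j * v i)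

omit [Fintype σ] [DecidableEq σ] in
/-- dependent rows: `v` is a combination of `x` and `e` -/
theorem FinQE_par (x e v : σ → Ω) (o j : σ) (hx : x o = 1) (ho : e o = 0) (hj : e j ≠ 0)
    (h : ∀ k, FinQE_tri x e v o j k = 0) : Par2 x e v := by
  refine ⟨v o, (v j - x j * v o) / e j, ?_⟩
  funext k
  have h1 := h k
  unfold FinQE_tri at h1
  rw [hx, ho] at h1
  rw [Pi.add_apply, Pi.smul_apply, Pi.smul_apply, smul_eq_mul, smul_eq_mul]
  field_simp
  linear_combination h1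

/-- the directions `Q X_m^4`, for an arbitrary linear map -/
theorem FinQE_lin (L : MvPolynomial σ Ω →ₗ[Ω] (σ → Ω)) (x e : σ → Ω) (o : σ) (hx : x o = 1)
    (Q : MvPolynomial σ Ω)
    (hpar : ∀ C l, dt l x = 0 → Par2 x e (L (C * Q * lf l))) (m : σ) :
    ∃ c d : Ω, L (Q * X m ^ 4) = (x m) ^ 4 • L (Q * X o ^ 4) + (c • x + d • e) := by
  obtain ⟨c, d, hc⟩ := hpar (X m ^ 3 + C (x m) * X m ^ 2 * X o + C (x m) ^ 2 * X m * X o ^ 2 +
    C (x m) ^ 3 * X o ^ 3) (rr x o m) (Pool.Agent.Helper74.Q8.FinQ8_dt_rr x o m)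
  refine ⟨c, d, ?_⟩
  have hdec : Q * X m ^ 4 = C ((x m) ^ 4) * (Q * X o ^ 4) +
      (X m ^ 3 + C (x m) * X m ^ 2 * X o + C (x m) ^ 2 * X m * X o ^ 2 +
        C (x m) ^ 3 * X o ^ 3) * Q * lf (rr x o m) := by
    rw [Pool.Agent.Helper74.Q8.FinQ8_lf_rr x o hx m, C_pow]
    ring
  rw [hdec, map_add, ← smul_eq_C_mul, map_smul, hc]

omit [Fintype σ] [DecidableEq σ] in
theorem FinQE_coeff (O : ValuationSubring Ω) (Δ : Ω) (Q : MvPolynomial σ Ω)
    (h : ∀ k, Δ * coeff k Q ∈ O) (m : σ) (k : σ →₀ ℕ) :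
    Δ ^ 1 * coeff k (Q * X m ^ 4) ∈ O := by
  rw [X_pow_eq_monomial, coeff_mul_monomial', pow_one]
  split_ifs with h1
  · rw [mul_one]
    exact h _
  · rw [mul_zero]
    exact zero_mem _

omit [Fintype σ] [DecidableEq σ] in
/-- change of scale in the minors -/
theorem FinQE_alg (x x' e e' V U : σ → Ω) (m : σ) (hm : x m ≠ 0) (c d c' c'' : Ω)
    (hx : ∀ l, x l = x m * x' l) (he : e = x m • e' + c'' • x)
    (h : x m ^ 4 • V + (c • x + d • e) = x m • U + c' • x) (i j k : σ) :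
    FinQE_tri x e V i j k * x m = FinQE_tri x' e' U i j k := by
  have h1 : ∀ l, x m ^ 4 * V l = x m * U l + c' * x l - c * x l - d * e l := by
    intro l
    have := congrFun h l
    simp only [Pi.add_apply, Pi.smul_apply, smul_eq_mul] at this
    linear_combination this
  have h2 : ∀ l, e l = x m * e' l + c'' * x l := by
    intro l
    have := congrFun he l
    simpa only [Pi.add_apply, Pi.smul_apply, smul_eq_mul] using this
  have h3 : x m ^ 3 * (FinQE_tri x e V i j k * x m) = x m ^ 3 * FinQE_tri x' e' U i j k := by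
    have h4 : x m ^ 3 * (FinQE_tri x e V i j k * x m) =
        x i * (e j * (x m ^ 4 * V k) - e k * (x m ^ 4 * V j)) -
          x j * (e i * (x m ^ 4 * V k) - e k * (x m ^ 4 * V i)) +
          x k * (e i * (x m ^ 4 * V j) - e j * (x m ^ 4 * V i)) := by
      unfold FinQE_tri
      ring
    have h5 : x i * (e j * (x m ^ 4 * V k) - e k * (x m ^ 4 * V j)) -
          x j * (e i * (x m ^ 4 * V k) - e k * (x m ^ 4 * V i)) +
          x k * (e i * (x m ^ 4 * V j) - e j * (x m ^ 4 * V i)) =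
        x m * (x i * (e j * U k - e k * U j) - x j * (e i * U k - e k * U i) +
          x k * (e i * U j - e j * U i)) := by
      rw [h1 i, h1 j, h1 k]
      ring
    have h6 : x i * (e j * U k - e k * U j) - x j * (e i * U k - e k * U i) +
          x k * (e i * U j - e j * U i) =
        x m * (x i * (e' j * U k - e' k * U j) - x j * (e' i * U k - e' k * U i) +
          x k * (e' i * U j - e' j * U i)) := by
      rw [h2 i, h2 j, h2 k]
      ring
    rw [h4, h5, h6]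
    unfold FinQE_tri
    rw [hx i, hx j, hx k]
    ring
  exact mul_left_cancel₀ (pow_ne_zero 3 hm) h3

omit [Fintype σ] [DecidableEq σ] in
theorem FinQE_bdd (O : ValuationSubring Ω) (Δ : Ω) (x e v : σ → Ω) (hx : ∀ l, x l ∈ O)
    (he : ∀ l, Δ * e l ∈ O) (hv : ∀ l, Δ ^ (1 + 1) * v l ∈ O) (i j k : σ) :
    Δ ^ 3 * FinQE_tri x e v i j k ∈ O := by
  have h : Δ ^ 3 * FinQE_tri x e v i j k =
      x i * (Δ * e j * (Δ ^ (1 + 1) * v k) - Δ * e k * (Δ ^ (1 + 1) * v j)) -
        x j * (Δ * e i * (Δ ^ (1 + 1) * v k) - Δ * e k * (Δ ^ (1 + 1) * v i)) +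
        x k * (Δ * e i * (Δ ^ (1 + 1) * v j) - Δ * e j * (Δ ^ (1 + 1) * v i)) := by
    unfold FinQE_tri
    ring
  rw [h]
  exact add_mem (sub_mem
    (mul_mem (hx i) (sub_mem (mul_mem (he j) (hv k)) (mul_mem (he k) (hv j))))
    (mul_mem (hx j) (sub_mem (mul_mem (he i) (hv k)) (mul_mem (he k) (hv i)))))
    (mul_mem (hx k) (sub_mem (mul_mem (he i) (hv j)) (mul_mem (he j) (hv i))))

end

section

variable {Ω : Type*} [Field Ω] [CharZero Ω] {σ : Type*} [Fintype σ] [DecidableEq σ] {q : ℕ}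

/-- the general form, the degree `q` is `2 + 4` -/
theorem FinQE_gen {D : Option (Sym σ q) → Derivation ℤ Ω Ω} {a : Sym σ q → Ω} {B : Subfield Ω}
    {x e n : σ → Ω} (hfr : FrameE D a B) (o : σ) (hx : x o = 1) (he : ∀ l, e l = D none (x l))
    (hne : ∃ l, e l ≠ 0) (hnx : dt n x = 0) (hn : dt n e = 0)
    (hnf : ∀ f, dt n (dv (ds D) x f) = - ev q x f) (Q : MvPolynomial σ Ω) (hQ : RatP B Q)
    (hhom : (Q * X o ^ 4).IsHomogeneous q)
    (hpar : ∀ C l, dt l x = 0 → Par2 x e (dv (ds D) x (C * Q * lf l))) :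
    (∀ i, x i ∈ B) ∨ eval x Q = 0 := by
  have key : ∀ m : σ, ∃ c d : Ω, dv (ds D) x (Q * X m ^ 4) =
      (x m) ^ 4 • dv (ds D) x (Q * X o ^ 4) + (c • x + d • e) :=
    FinQE_lin (dv (ds D) x) x e o hx Q hpar
  have ho : e o = 0 := by
    rw [he, hx, Derivation.map_one_eq_zero]
  obtain ⟨j₀, hj₀⟩ := hne
  by_cases hw : ∀ i j k, FinQE_tri x e (dv (ds D) x (Q * X o ^ 4)) i j k = 0
  · right
    have hp := FinQE_par x e _ o j₀ hx ho hj₀ (hw o j₀)
    have h1 := hnf (Q * X o ^ 4)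
    rw [hp.dt n hnx hn, ev_hom q x _ hhom] at h1
    have h4 : eval x (Q * X o ^ 4) = eval x Q := by
      rw [map_mul, map_pow, eval_X, hx, one_pow, mul_one]
    rw [h4] at h1
    exact neg_eq_zero.1 h1.symm
  · left
    push Not at hw
    obtain ⟨i, j, k, hijk⟩ := hw
    classical
    refine rat_ptE hfr x o hx (Q.support.image fun k => coeff k Q) ?_
      (FinQE_tri x e (dv (ds D) x (Q * X o ^ 4)) i j k) hijk 3 ?_
    · intro b hb
      obtain ⟨k, -, rfl⟩ := Finset.mem_image.1 hb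
      exact hQ k
    · intro O Δ hΔ hs m hm hxm
      have hco : ∀ k, Δ * coeff k Q ∈ O := by
        intro k
        by_cases hk : k ∈ Q.support
        · exact hs _ (Finset.mem_image_of_mem _ hk)
        · rw [notMem_support_iff.1 hk, mul_zero]
          exact zero_mem _
      obtain ⟨c, d, hc⟩ := key m
      obtain ⟨c', hc'⟩ := dv_scale (ds D) x m hm (Q * X m ^ 4)
      have hb := dv_bdd (ds D) (fun l => x l / x m) O Δ (ds_bdd hΔ) hxm (Q * X m ^ 4) 1
        (FinQE_coeff O Δ Q hco m)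
      rw [FinQE_alg x (fun l => x l / x m) e (fun l => D none (x l / x m)) _ _ m hm c d c' _
        (fun l => (mul_div_cancel₀ _ hm).symm) (e_loc (D none) x e he m hm)
        (hc.symm.trans hc') i j k]
      exact FinQE_bdd O Δ _ _ _ hxm (fun l => hΔ.2 none _ (hxm l)) hb i j k

end

variable {Ω : Type*} [Field Ω] [CharZero Ω] {q : ℕ}
  {D : Option (Sym (Fin 5) q) → Derivation ℤ Ω Ω} {a : Sym (Fin 5) q → Ω} {B : Subfield Ω}
  {x e n : Fin 5 → Ω}

theorem fin_qE (h : PtE D a B x e n) (Q : MvPolynomial (Fin 5) Ω) (hQ : RatP B Q)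
    (hQ2 : Q.IsHomogeneous 2)
    (hpar : ∀ C l, dt l x = 0 → Par2 x e (dv (ds D) x (C * Q * lf l))) :
    (∀ i, x i ∈ B) ∨ eval x Q = 0 := by
  have hhom : (Q * X (0 : Fin 5) ^ 4).IsHomogeneous q := by
    rw [h.hq]
    exact hQ2.mul (by simpa using (isHomogeneous_X Ω (0 : Fin 5)).pow 4)
  exact FinQE_gen h.frame 0 h.one h.der h.ne0 h.nx h.ne h.nf Q hQ hhom hpar

end Pool.Agent.Helper10.Q46
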