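import Pool.Agent.Helper10.Q46.VolE

/-!
# Q46-KERDIME: the kernel of a block

`φ(l) = D_(P l) x` maps `R = {l | l . x = 0}` (dimension 4) to `n^⊥`; modulo `(x, e)` the image
is all of `n^⊥ / (x, e)` (dimension 2, `vol_coordE` with `w0 = φ(l1)`, `w1 = φ(l2)`). So the kernel
modulo `(x, e)` has dimension 2. Copy of `Helper74/Q8/KerDim.lean`: the linear map
`l ↦ (x . l, θ_0 . φ(l), θ_1 . φ(l))` from dimension 5 onto dimension 3.
-/

set_option autoImplicit false

namespace Pool.Agent.Helper10.Q46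

open scoped BigOperators
open MvPolynomial
open Pool.Agent.Helper8.LG (Bdd form mon)
open Pool.Agent.Helper49.LN (cP mo hf pl)
open Pool.Agent.Helper6.QS
open Pool.Agent.Helper74.Q8 (dl rr)

variable {Ω : Type*} [Field Ω] [CharZero Ω] {q : ℕ}
  {D : Option (Sym (Fin 5) q) → Derivation ℤ Ω Ω} {a : Sym (Fin 5) q → Ω} {B : Subfield Ω}
  {x e n : Fin 5 → Ω}

theorem ker_dimE (h : PtE D a B x e n) (P : MvPolynomial (Fin 5) Ω) (l1 l2 : Fin 5 → Ω)
    (h1 : dt l1 x = 0) (h2 : dt l2 x = 0) (hne : T2 (ds D) x e P l1 l2 ≠ 0) :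
    ∃ k : Fin 2 → Fin 5 → Ω, LinearIndependent Ω k ∧ (∀ i, dt (k i) x = 0) ∧
      (∀ i, Par2 x e (dl (ds D) x P (k i))) ∧
      ∀ l, dt l x = 0 → Par2 x e (dl (ds D) x P l) → l ∈ Submodule.span Ω (Set.range k) := by
  obtain ⟨θ, tx, te, t01, t11, t02, t12, tp, -, -⟩ := vol_coordE h (dl (ds D) x P l1)
    (dl (ds D) x P l2) (tanE h P l1 h1) (tanE h P l2 h2) hne
  obtain ⟨θ0, hθ0⟩ : ∃ θ0, θ0 = θ 0 := ⟨_, rfl⟩
  obtain ⟨θ1, hθ1⟩ : ∃ θ1, θ1 = θ 1 := ⟨_, rfl⟩
  rw [← hθ0] at t01 t02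
  rw [← hθ1] at t11 t12
  -- the linear map
  let G : (Fin 5 → Ω) →ₗ[Ω] (Fin 3 → Ω) :=
    { toFun := fun l => ![dt x l, dt θ0 (dl (ds D) x P l), dt θ1 (dl (ds D) x P l)]
      map_add' := by
        intro l l'
        rw [Pool.Agent.Helper74.Q8.dl_add_right, Pool.Agent.Helper74.Q8.dt_add',
          Pool.Agent.Helper74.Q8.dt_add', Pool.Agent.Helper74.Q8.dt_add']
        ext i
        fin_cases i <;> rfl
      map_smul' := by
        intro c l
        rw [Pool.Agent.Helper74.Q8.dl_smul_right, Pool.Agent.Helper74.Q8.dt_smul',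
          Pool.Agent.Helper74.Q8.dt_smul', Pool.Agent.Helper74.Q8.dt_smul']
        ext i
        fin_cases i <;> rfl }
  have hG : ∀ l, G l = ![dt x l, dt θ0 (dl (ds D) x P l), dt θ1 (dl (ds D) x P l)] :=
    fun _ => rfl
  have hsurj : Function.Surjective G := by
    intro c
    obtain ⟨l3, hl3⟩ : ∃ l3 : Fin 5 → Ω, dt x l3 = 1 := by
      refine ⟨Pi.single 0 1, ?_⟩
      unfold dt
      rw [Finset.sum_eq_single 0]
      · rw [h.one, Pi.single_eq_same, mul_one]
      · intro b _ hb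
        rw [Pi.single_eq_of_ne hb, mul_zero]
      · intro h0
        exact absurd (Finset.mem_univ _) h0
    refine ⟨c 0 • l3 + (c 1 - c 0 * dt θ0 (dl (ds D) x P l3)) • l1 +
      (c 2 - c 0 * dt θ1 (dl (ds D) x P l3)) • l2, ?_⟩
    rw [hG]
    simp only [Pool.Agent.Helper74.Q8.dl_add_right, Pool.Agent.Helper74.Q8.dl_smul_right,
      Pool.Agent.Helper74.Q8.dt_add', Pool.Agent.Helper74.Q8.dt_smul']
    rw [hl3, Pool.Agent.Helper74.Q8.dt_comm' x l1, Pool.Agent.Helper74.Q8.dt_comm' x l2, h1, h2,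
      t01, t11, t02, t12]
    ext i
    fin_cases i
    · show c 0 * 1 + _ * 0 + _ * 0 = c 0
      ring
    · show c 0 * dt θ0 (dl (ds D) x P l3) + (c 1 - c 0 * dt θ0 (dl (ds D) x P l3)) * 1 +
        _ * 0 = c 1
      ring
    · show c 0 * dt θ1 (dl (ds D) x P l3) + _ * 0 +
        (c 2 - c 0 * dt θ1 (dl (ds D) x P l3)) * 1 = c 2
      ring
  have hfin : Module.finrank Ω (LinearMap.ker G) = 2 := by
    have e := LinearMap.finrank_range_add_finrank_ker G
    rw [LinearMap.range_eq_top.2 hsurj, finrank_top, Module.finrank_fin_fun,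
      Module.finrank_fin_fun] at e
    omega
  let b := Module.finBasisOfFinrankEq Ω (LinearMap.ker G) hfin
  have hk : ∀ l ∈ LinearMap.ker G, dt l x = 0 ∧ dt θ0 (dl (ds D) x P l) = 0 ∧
      dt θ1 (dl (ds D) x P l) = 0 := by
    intro l hl
    have e : ![dt x l, dt θ0 (dl (ds D) x P l), dt θ1 (dl (ds D) x P l)] =
        (0 : Fin 3 → Ω) := by
      rw [← hG]
      exact LinearMap.mem_ker.1 hl
    refine ⟨?_, congrFun e 1, congrFun e 2⟩
    rw [Pool.Agent.Helper74.Q8.dt_comm']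
    exact congrFun e 0
  refine ⟨fun i => (b i : Fin 5 → Ω), ?_, ?_, ?_, ?_⟩
  · exact b.linearIndependent.map' (LinearMap.ker G).subtype (Submodule.ker_subtype _)
  · intro i
    exact (hk _ (b i).2).1
  · intro i
    obtain ⟨k0, k1, k2⟩ := hk _ (b i).2
    apply tp _ (tanE h P _ k0)
    intro j
    fin_cases j
    · show dt (θ 0) _ = 0
      rw [← hθ0]
      exact k1
    · show dt (θ 1) _ = 0
      rw [← hθ1]
      exact k2
  · intro l hl hz
    have f0 : dt θ0 (dl (ds D) x P l) = 0 := by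
      rw [hθ0]
      exact hz.dt (θ 0) (tx 0) (te 0)
    have f1 : dt θ1 (dl (ds D) x P l) = 0 := by
      rw [hθ1]
      exact hz.dt (θ 1) (tx 1) (te 1)
    have hl' : l ∈ LinearMap.ker G := by
      rw [LinearMap.mem_ker, hG, Pool.Agent.Helper74.Q8.dt_comm' x l, hl, f0, f1]
      ext i
      fin_cases i <;> rfl
    have hr : Set.range (fun i => (b i : Fin 5 → Ω)) =
        (LinearMap.ker G).subtype '' Set.range b := by
      rw [← Set.range_comp]
      rfl
    rw [hr, Submodule.span_image, b.span_eq, Submodule.map_top, Submodule.range_subtype]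
    exact hl'

end Pool.Agent.Helper10.Q46
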