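import Pool.Agent.Helper10.Q46.TRatE
import Pool.Agent.Helper74.Q8.KerRat

/-!
# Q46-KERSPANE: the kernel of a rational block is rational

Copy of `Helper74/Q8/KerSpan.lean` (simpler). Let `T_bc = T2 .. P (rr x 0 b) (rr x 0 c)` and
`t_jbc = x_j T_bc - x_b T_jc + x_c T_jb ∈ B` (`t_ratE`). For `l, l'` in `R` (orthogonal to `x`):
`T2 .. l l' = ∑ l_b l'_c T_bc` (`rr_spanE`). For any `m`, with `S_c = ∑_j m_j T_jc`:
`∑_j m_j t_jbc = (m . x) T_bc - x_b S_c + x_c S_b`. If `m ∈ R` is in the kernel, then `S_c = 0`, so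
`∑_j m_j t_jbc = 0`. Conversely, if `∑_j m_j t_jbc = 0` for all `b, c` and `m . x ≠ 0`, then
`(m . x) t_0bc = 0`, so all `T_bc = 0`, against `hne`. So the solutions of the system
`∑_j m_j t_jbc = 0` are in `R`; apply `ker_rat`.
-/

set_option autoImplicit false

namespace Pool.Agent.Helper10.Q46

open scoped BigOperators
open MvPolynomial
open Pool.Agent.Helper8.LG (Bdd form mon)
open Pool.Agent.Helper49.LN (cP mo hf pl)
open Pool.Agent.Helper6.QS
open Pool.Agent.Helper74.Q8 (dl rr)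

section kerSpanE

variable {Ω : Type*} [Field Ω] {q : ℕ}

/-- sums in the first direction -/
theorem kerSpanE_left (D : Sym (Fin 5) q → Derivation ℤ Ω Ω) (x e : Fin 5 → Ω)
    (P : MvPolynomial (Fin 5) Ω) {ι : Type*} (s : Finset ι) (c : ι → Ω) (r : ι → Fin 5 → Ω)
    (l' : Fin 5 → Ω) (hadd : ∀ u u' v, vol D x e (u + u') v = vol D x e u v + vol D x e u' v)
    (hsmul : ∀ (c : Ω) u v, vol D x e (c • u) v = c * vol D x e u v) :
    T2 D x e P (∑ i ∈ s, c i • r i) l' = ∑ i ∈ s, c i * T2 D x e P (r i) l' := by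
  unfold T2
  generalize dl D x P l' = w
  let L : (Fin 5 → Ω) →ₗ[Ω] Ω :=
    { toFun := fun l => vol D x e (dl D x P l) w
      map_add' := fun l l'' => by rw [Pool.Agent.Helper74.Q8.dl_add_right, hadd]
      map_smul' := fun e' l => by
        rw [Pool.Agent.Helper74.Q8.dl_smul_right, hsmul, RingHom.id_apply, smul_eq_mul] }
  have h1 : L (∑ i ∈ s, c i • r i) = ∑ i ∈ s, c i * L (r i) := by
    rw [map_sum]
    exact Finset.sum_congr rfl fun i _ => by rw [map_smul, smul_eq_mul]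
  exact h1

/-- the algebra of the system -/
theorem kerSpanE_alg (x m : Fin 5 → Ω) (T : Fin 5 → Fin 5 → Ω) (b c : Fin 5) :
    ∑ j, m j * (x j * T b c - x b * T j c + x c * T j b) =
      (∑ j, m j * x j) * T b c - x b * (∑ j, m j * T j c) + x c * ∑ j, m j * T j b := by
  rw [Finset.sum_mul, Finset.mul_sum, Finset.mul_sum, ← Finset.sum_sub_distrib,
    ← Finset.sum_add_distrib]
  exact Finset.sum_congr rfl fun j _ => by ring

end kerSpanE

variable {Ω : Type*} [Field Ω] [CharZero Ω] {q : ℕ}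
  {D : Option (Sym (Fin 5) q) → Derivation ℤ Ω Ω} {a : Sym (Fin 5) q → Ω} {B : Subfield Ω}
  {x e n : Fin 5 → Ω}

theorem kerSpanE_left' (P : MvPolynomial (Fin 5) Ω) {ι : Type*} (s : Finset ι) (c : ι → Ω)
    (r : ι → Fin 5 → Ω) (l' : Fin 5 → Ω) :
    T2 (ds D) x e P (∑ i ∈ s, c i • r i) l' = ∑ i ∈ s, c i * T2 (ds D) x e P (r i) l' :=
  kerSpanE_left (ds D) x e P s c r l' (fun u u' v => vol_add (ds D) x e u u' v)
    fun c u v => vol_smul (ds D) x e c u v

theorem kerSpanE_swap (P : MvPolynomial (Fin 5) Ω) (l l' : Fin 5 → Ω) :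
    T2 (ds D) x e P l l' = - T2 (ds D) x e P l' l := by
  unfold T2
  exact vol_swap (ds D) x e _ _

theorem kerSpanE_right (P : MvPolynomial (Fin 5) Ω) {ι : Type*} (s : Finset ι) (c : ι → Ω)
    (r : ι → Fin 5 → Ω) (l : Fin 5 → Ω) :
    T2 (ds D) x e P l (∑ i ∈ s, c i • r i) = ∑ i ∈ s, c i * T2 (ds D) x e P l (r i) := by
  rw [kerSpanE_swap, kerSpanE_left', ← Finset.sum_neg_distrib]
  refine Finset.sum_congr rfl fun i _ => ?_
  rw [kerSpanE_swap P l (r i)]
  ring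

theorem kerSpanE_zero (P : MvPolynomial (Fin 5) Ω) (l' : Fin 5 → Ω) :
    T2 (ds D) x e P 0 l' = 0 := by
  have := kerSpanE_left' (D := D) (x := x) (e := e) P (∅ : Finset (Fin 5)) (fun _ => 0)
    (fun _ => 0) l'
  simpa using this

theorem ker_spanE (h : PtE D a B x e n) (P : MvPolynomial (Fin 5) Ω) (hP : RatP B P)
    (l1 l2 : Fin 5 → Ω) (h1 : dt l1 x = 0) (h2 : dt l2 x = 0)
    (hne : T2 (ds D) x e P l1 l2 ≠ 0) (l : Fin 5 → Ω) (hl : dt l x = 0)
    (hker : ∀ l', dt l' x = 0 → T2 (ds D) x e P l l' = 0) :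
    l ∈ Submodule.span Ω {m : Fin 5 → Ω | (∀ j, m j ∈ B) ∧ dt m x = 0} := by
  have hrat0 : ∀ j b c, x j * T2 (ds D) x e P (rr x 0 b) (rr x 0 c) -
      x b * T2 (ds D) x e P (rr x 0 j) (rr x 0 c) +
      x c * T2 (ds D) x e P (rr x 0 j) (rr x 0 b) ∈ B := fun j b c => t_ratE h P hP j b c
  have hT00 : ∀ c, T2 (ds D) x e P (rr x 0 0) (rr x 0 c) = 0 := by
    intro c
    rw [rr_zeroE]
    exact kerSpanE_zero P _
  -- the kernel
  have hS0 : ∀ m : Fin 5 → Ω, dt m x = 0 → ∀ l', T2 (ds D) x e P m l' =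
      ∑ j, m j * T2 (ds D) x e P (rr x 0 j) l' := by
    intro m hm l'
    have h3 := kerSpanE_left' (D := D) (x := x) (e := e) P Finset.univ m (fun j => rr x 0 j) l'
    rwa [← rr_spanE h.one m hm] at h3
  have hS1 : ∀ m : Fin 5 → Ω, dt m x = 0 → ∀ l', T2 (ds D) x e P l' m =
      ∑ j, m j * T2 (ds D) x e P l' (rr x 0 j) := by
    intro m hm l'
    have h3 := kerSpanE_right (D := D) (x := x) (e := e) P Finset.univ m (fun j => rr x 0 j) l'
    rwa [← rr_spanE h.one m hm] at h3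
  have hS : ∀ c, ∑ j, l j * T2 (ds D) x e P (rr x 0 j) (rr x 0 c) = 0 := by
    intro c
    rw [← hS0 l hl]
    exact hker (rr x 0 c) (rr_dtE x 0 c)
  have hgoal : T2 (ds D) x e P l1 l2 =
      ∑ b, l1 b * ∑ c, l2 c * T2 (ds D) x e P (rr x 0 b) (rr x 0 c) := by
    rw [hS0 l1 h1]
    exact Finset.sum_congr rfl fun b _ => by rw [hS1 l2 h2]
  rw [hgoal] at hne
  clear hgoal hS0 hS1 hker
  generalize hT : (fun b c => T2 (ds D) x e P (rr x 0 b) (rr x 0 c)) = T at *
  have hTb : ∀ b c, T2 (ds D) x e P (rr x 0 b) (rr x 0 c) = T b c := fun b c => by rw [← hT]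
  simp only [hTb] at hrat0 hT00 hS hne
  clear hTb hT
  have hsys := Pool.Agent.Helper74.Q8.ker_rat B (fun (i : Fin 5 × Fin 5) (j : Fin 5) =>
    x j * T i.1 i.2 - x i.1 * T j i.2 + x i.2 * T j i.1) (fun i j => hrat0 j i.1 i.2) l (by
      rintro ⟨b, c⟩
      have h3 := kerSpanE_alg x l T b c
      rw [hS, hS] at h3
      have h4 : ∑ j, l j * x j = 0 := hl
      rw [h4] at h3
      simpa using h3)
  refine Submodule.span_mono ?_ hsys
  rintro m ⟨hmB, hm⟩
  refine ⟨hmB, ?_⟩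
  by_contra hmx
  have h4 : ∑ j, m j * x j ≠ 0 := hmx
  -- `(m . x) T_bc = x_b S_c - x_c S_b`
  have h5 : ∀ b c, (∑ j, m j * x j) * T b c =
      x b * (∑ j, m j * T j c) - x c * ∑ j, m j * T j b := by
    intro b c
    have h3 := kerSpanE_alg x m T b c
    rw [hm (b, c)] at h3
    linear_combination -h3
  have h6 : ∀ b c, T b c = 0 := by
    intro b c
    have h7 : (∑ j, m j * x j) * (x 0 * T b c - x b * T 0 c + x c * T 0 b) = 0 := by
      linear_combination x 0 * h5 b c - x b * h5 0 c + x c * h5 0 b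
    rw [hT00, hT00, h.one] at h7
    have h8 := (mul_eq_zero.1 h7).resolve_left h4
    linear_combination h8
  apply hne
  refine Finset.sum_eq_zero fun b _ => ?_
  have h9 : ∑ c, l2 c * T b c = 0 := Finset.sum_eq_zero fun c _ => by rw [h6, mul_zero]
  rw [h9, mul_zero]

end Pool.Agent.Helper10.Q46
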