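import Pool.Agent.Helper10.Q46.KeyBlkE
import Pool.Agent.Helper10.Q46.DichE
import Pool.Agent.Helper10.Q46.FinKeyE
import Pool.Agent.Helper6.QS.KeyAll

/-!
# Q46: the key statement for `(4, 6)`, points which are not rigid
-/

set_option autoImplicit false

namespace Pool.Agent.Helper10.Q46

open scoped BigOperators
open MvPolynomial
open Pool.Agent.Helper8.LG (Bdd form mon)
open Pool.Agent.Helper49.LN (cP mo hf pl)
open Pool.Agent.Helper6.QS

theorem key46 {Ω : Type*} [Field Ω] [CharZero Ω] {n : ℕ} (hn : n + 1 = 6)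
    {D : Option (Sym (Fin 5) (n + 1)) → Derivation ℤ Ω Ω} {a : Sym (Fin 5) (n + 1) → Ω}
    {B : Subfield Ω} (hB : FrameE D a B) (x : Fin 5 → Ω) (hx : x 0 = 1) (hF : form a x = 0)
    (hne : ∃ l, D none (x l) ≠ 0) : ∀ l, x l ∈ B := by
  have h0 := dich_e hB x (fun l => D none (x l)) 0 hx hF (fun _ => rfl) hne (Fintype.card_fin _) hn
  rcases h0 with h | ⟨I, I', j, l, hlin⟩
  · exact h
  · rw [hf_lf, hf_lf] at hlin
    exact key_blkE hn hB x (fun l => D none (x l)) hx hF (fun _ => rfl) hne _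
      (fun m => by
        rw [coeff_add]
        exact add_mem (ratP_mo B _ m) (ratP_mo B _ m)) _ _ (dt_hf x 0 j) (dt_hf x 0 l) hlin

universe u v

/-- **The key statement for sextic threefolds.** -/
theorem keyE46 (q : ℕ) (hq : q = 6) : KeyE.{u} 4 q := by
  obtain ⟨n, rfl⟩ : ∃ n, q = n + 1 := ⟨5, by omega⟩
  intro Ω _ _ D a B hB x hx hF hne
  exact key46 hq hB x hx hF hne

/-- **Sextic threefolds.** `F` a form of degree 6 in 5 variables over a finitely generated field `L`
with independent coefficients: all but finitely many zeros of `F` in `L` are algebraic over the field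
of the coefficients. -/
theorem fin46 {k₀ : Type v} {L : Type u} [Field k₀] [Field L] [CharZero L] [Algebra k₀ L]
    (hfg : (⊤ : IntermediateField k₀ L).FG) (F : MvPolynomial (Fin 5) L) (hF : F.IsHomogeneous 6)
    (hcoef : ((4 + 6 : ℕ).choose 4 : Cardinal) ≤
      Algebra.trdeg k₀ (IntermediateField.adjoin k₀ {z | ∃ J, z = coeff J F}))
    (i₀ : Fin 5) : {x : Fin 5 → L | x i₀ = 1 ∧ eval x F = 0 ∧
      ¬ ∀ l, IsAlgebraic (IntermediateField.adjoin k₀ {z | ∃ J, z = coeff J F}) (x l)}.Finite := by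
  obtain ⟨q, hq⟩ : ∃ q : ℕ, q = 6 := ⟨6, rfl⟩
  rw [← hq] at hF hcoef
  exact fin_keyE (N := 4) (by omega) (keyE46 q hq) hfg F hF hcoef i₀

end Pool.Agent.Helper10.Q46
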