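import Pool.Agent.Helper10.Q46.Defs
import Pool.Agent.Helper74.Q8.Vol

/-!
# Q46-VOLE: the volume form on `n^⊥ / (x, e)`

Copy of `Helper74/Q8/Vol.lean` (there: rows `x`, `D_(X_0^q) x`, four vectors; here: rows `x`, `e`,
`D_(X_0^q) x`, two vectors). `tanE`: `ev_lf` with `q = 5 + 1`. `vol_parE`: dependent rows. `vol_neE`:
`x, e, u, v` span `n^⊥` and `n . D_(X_0^q) x = - x_0^q = - 1`, so the five rows are independent.
`vol_coordE`: `θ_0 . v = vol v w1 / vol w0 w1`, `θ_1 . v = vol w0 v / vol w0 w1` (or `Matrix.inv` as in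
`Vol.lean`); for `v` in `n^⊥` the coefficient of `D_(X_0^q) x` is zero. `rr_spanE`, `rr_dtE`, `rr_zeroE`:
as `rr_span`, `rr_dt`, `rr_zero` there, any index type. Keep `q` a variable (see `Defs`).
-/

set_option autoImplicit false

namespace Pool.Agent.Helper10.Q46

open scoped BigOperators
open MvPolynomial
open Pool.Agent.Helper8.LG (Bdd form mon)
open Pool.Agent.Helper49.LN (cP mo hf pl)
open Pool.Agent.Helper6.QS
open Pool.Agent.Helper74.Q8 (dl rr dt_add' dt_smul' dt_sum' dt_zero' dl_eq vol_ev_lf vol_ev_pow)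

theorem rr_spanE {Ω : Type*} [Field Ω] {σ : Type*} [Fintype σ] [DecidableEq σ] {x : σ → Ω} {i₀ : σ}
    (hx : x i₀ = 1) (l : σ → Ω) (hl : dt l x = 0) : l = ∑ b, l b • rr x i₀ b := by
  funext i
  rw [Finset.sum_apply]
  have h1 : ∀ b, (l b • rr x i₀ b) i = l b * (if i = b then 1 else 0) -
      l b * x b * (if i = i₀ then 1 else 0) := by
    intro b
    rw [Pi.smul_apply, smul_eq_mul, rr, hx]
    ring
  rw [Finset.sum_congr rfl fun b _ => h1 b, Finset.sum_sub_distrib, ← Finset.sum_mul]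
  have h2 : ∑ b, l b * x b = 0 := hl
  rw [h2, zero_mul, sub_zero]
  simp

theorem rr_dtE {Ω : Type*} [Field Ω] {σ : Type*} [Fintype σ] [DecidableEq σ] (x : σ → Ω) (j b : σ) :
    dt (rr x j b) x = 0 := by
  unfold dt rr
  have h1 : ∀ i, (x j * (if i = b then 1 else 0) - x b * (if i = j then 1 else 0)) * x i =
      x j * (if i = b then x i else 0) - x b * (if i = j then x i else 0) := by
    intro i
    split_ifs <;> ring
  rw [Finset.sum_congr rfl fun i _ => h1 i, Finset.sum_sub_distrib, ← Finset.mul_sum,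
    ← Finset.mul_sum]
  simp
  ring

theorem rr_zeroE {Ω : Type*} [Field Ω] {σ : Type*} [Fintype σ] [DecidableEq σ] (x : σ → Ω) (j : σ) :
    rr x j j = 0 := by
  funext i
  unfold rr
  rw [sub_self]
  rfl

variable {Ω : Type*} [Field Ω] [CharZero Ω] {q : ℕ}
  {D : Option (Sym (Fin 5) q) → Derivation ℤ Ω Ω} {a : Sym (Fin 5) q → Ω} {B : Subfield Ω}
  {x e n : Fin 5 → Ω}

theorem tanE (h : PtE D a B x e n) (P : MvPolynomial (Fin 5) Ω) (l : Fin 5 → Ω)
    (hl : dt l x = 0) : dt n (dl (ds D) x P l) = 0 := by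
  rw [dl_eq, h.nf, vol_ev_lf 5 h.hq x l P hl, neg_zero]

theorem w0E (h : PtE D a B x e n) : dt n (dv (ds D) x (X 0 ^ q)) = -1 := by
  rw [h.nf, vol_ev_pow, h.one, one_pow]

theorem vol_apply {q : ℕ} (D : Sym (Fin 5) q → Derivation ℤ Ω Ω) (x e u v : Fin 5 → Ω) :
    vol D x e u v = Matrix.det (Matrix.of ![x, e, dv D x (X 0 ^ q), u, v]) := rfl

theorem vole_upd3 (r0 r1 r2 r3 r4 w : Fin 5 → Ω) :
    (Matrix.of ![r0, r1, r2, w, r4] : Matrix (Fin 5) (Fin 5) Ω) =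
      (Matrix.of ![r0, r1, r2, r3, r4]).updateRow 3 w := by
  ext i j
  fin_cases i <;> rfl

theorem vole_upd4 (r0 r1 r2 r3 r4 w : Fin 5 → Ω) :
    (Matrix.of ![r0, r1, r2, r3, w] : Matrix (Fin 5) (Fin 5) Ω) =
      (Matrix.of ![r0, r1, r2, r3, r4]).updateRow 4 w := by
  ext i j
  fin_cases i <;> rfl

theorem vol_add {q : ℕ} (D : Sym (Fin 5) q → Derivation ℤ Ω Ω) (x e u u' v : Fin 5 → Ω) :
    vol D x e (u + u') v = vol D x e u v + vol D x e u' v := by
  rw [vol_apply, vol_apply, vol_apply, vole_upd3 x e (dv D x (X 0 ^ q)) 0 v (u + u'),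
    Matrix.det_updateRow_add, ← vole_upd3, ← vole_upd3]

theorem vol_smul {q : ℕ} (D : Sym (Fin 5) q → Derivation ℤ Ω Ω) (x e : Fin 5 → Ω) (c : Ω)
    (u v : Fin 5 → Ω) : vol D x e (c • u) v = c * vol D x e u v := by
  rw [vol_apply, vol_apply, vole_upd3 x e (dv D x (X 0 ^ q)) 0 v (c • u),
    Matrix.det_updateRow_smul, ← vole_upd3]

theorem vol_self {q : ℕ} (D : Sym (Fin 5) q → Derivation ℤ Ω Ω) (x e u : Fin 5 → Ω) :
    vol D x e u u = 0 := by
  rw [vol_apply]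
  exact Matrix.det_zero_of_row_eq (i := 3) (j := 4) (by decide) rfl

theorem vole_add4 {q : ℕ} (D : Sym (Fin 5) q → Derivation ℤ Ω Ω) (x e u v v' : Fin 5 → Ω) :
    vol D x e u (v + v') = vol D x e u v + vol D x e u v' := by
  rw [vol_apply, vol_apply, vol_apply, vole_upd4 x e (dv D x (X 0 ^ q)) u 0 (v + v'),
    Matrix.det_updateRow_add, ← vole_upd4, ← vole_upd4]

theorem vol_swap {q : ℕ} (D : Sym (Fin 5) q → Derivation ℤ Ω Ω) (x e u v : Fin 5 → Ω) :
    vol D x e v u = - vol D x e u v := by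
  have h := vol_self D x e (u + v)
  rw [vole_add4, vol_add, vol_add, vol_self, vol_self] at h
  linear_combination h

theorem vol_parE {q : ℕ} (D : Sym (Fin 5) q → Derivation ℤ Ω Ω) (x e u v : Fin 5 → Ω)
    (hu : Par2 x e u) : vol D x e u v = 0 := by
  obtain ⟨c, d, rfl⟩ := hu
  have h1 : vol D x e x v = 0 := by
    rw [vol_apply]
    exact Matrix.det_zero_of_row_eq (i := 0) (j := 3) (by decide) rfl
  have h2 : vol D x e e v = 0 := by
    rw [vol_apply]
    exact Matrix.det_zero_of_row_eq (i := 1) (j := 3) (by decide) rfl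
  rw [vol_add, vol_smul, vol_smul, h1, h2, mul_zero, mul_zero, add_zero]

theorem vole_row (c : Fin 5 → Ω) (r : Fin 5 → Fin 5 → Ω) :
    Matrix.vecMul c (Matrix.of r) = ∑ i, c i • r i := by
  funext l
  rw [Matrix.vecMul, Finset.sum_apply]
  rfl

theorem vole_five (c : Fin 5 → Ω) (r0 r1 r2 r3 r4 : Fin 5 → Ω) :
    ∑ i, c i • (![r0, r1, r2, r3, r4] : Fin 5 → Fin 5 → Ω) i =
      c 0 • r0 + c 1 • r1 + c 2 • r2 + c 3 • r3 + c 4 • r4 := by
  rw [Fin.sum_univ_five]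
  rfl

/-- a combination of the five rows in `n^⊥` has no component on the third one -/
theorem vole_c2 (h : PtE D a B x e n) (w0 u v y : Fin 5 → Ω) (h0 : dt n w0 = -1)
    (hu : dt n u = 0) (hv : dt n v = 0) (hy : dt n y = 0) (c : Fin 5 → Ω)
    (hc : y = c 0 • x + c 1 • e + c 2 • w0 + c 3 • u + c 4 • v) : c 2 = 0 := by
  have h4 := congrArg (dt n) hc
  rw [dt_add', dt_add', dt_add', dt_add', dt_smul', dt_smul', dt_smul', dt_smul', dt_smul', h.nx,
    h.ne, h0, hu, hv, hy] at h4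
  linear_combination h4

theorem vol_neE (h : PtE D a B x e n) (u v : Fin 5 → Ω) (hu : dt n u = 0) (hv : dt n v = 0)
    (hlin : LinearIndependent Ω ![x, e, u, v]) : vol (ds D) x e u v ≠ 0 := by
  rw [vol_apply]
  obtain ⟨w0, hw0⟩ : ∃ w0, w0 = dv (ds D) x (X 0 ^ q) := ⟨_, rfl⟩
  have h0 : dt n w0 = -1 := by rw [hw0]; exact w0E h
  rw [← hw0]
  intro hdet
  obtain ⟨c, hc0, hc⟩ := Matrix.exists_vecMul_eq_zero_iff.2 hdet
  rw [vole_row, vole_five] at hc
  have h3 : c 2 = 0 := vole_c2 h w0 u v 0 h0 hu hv (dt_zero' n) c hc.symm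
  rw [h3, zero_smul, add_zero] at hc
  have h5 : ∑ i : Fin 4, (![c 0, c 1, c 3, c 4] : Fin 4 → Ω) i • (![x, e, u, v] : Fin 4 → Fin 5 → Ω) i
      = 0 := by
    rw [Fin.sum_univ_four]
    exact hc
  have h7 := Fintype.linearIndependent_iff.1 hlin _ h5
  apply hc0
  funext i
  fin_cases i
  · exact h7 0
  · exact h7 1
  · exact h3
  · exact h7 2
  · exact h7 3

theorem vol_coordE (h : PtE D a B x e n) (w0 w1 : Fin 5 → Ω) (h0 : dt n w0 = 0)
    (h1 : dt n w1 = 0) (hne : vol (ds D) x e w0 w1 ≠ 0) :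
    ∃ θ : Fin 2 → Fin 5 → Ω, (∀ j, dt (θ j) x = 0) ∧ (∀ j, dt (θ j) e = 0) ∧
      dt (θ 0) w0 = 1 ∧ dt (θ 1) w0 = 0 ∧ dt (θ 0) w1 = 0 ∧ dt (θ 1) w1 = 1 ∧
      (∀ v, dt n v = 0 → (∀ j, dt (θ j) v = 0) → Par2 x e v) ∧
      (∀ v, dt n v = 0 → Par2 x e (v - (dt (θ 0) v • w0 + dt (θ 1) v • w1))) ∧
      ∀ u v, dt n u = 0 → dt n v = 0 → vol (ds D) x e u v =
        vol (ds D) x e w0 w1 * (dt (θ 0) u * dt (θ 1) v - dt (θ 1) u * dt (θ 0) v) := by
  have hz' : dt n (dv (ds D) x (X 0 ^ q)) = -1 := w0E h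
  have h00 : (Matrix.of ![x, e, dv (ds D) x (X 0 ^ q), w0, w1] : Matrix (Fin 5) (Fin 5) Ω).det ≠ 0 := hne
  obtain ⟨z, hz⟩ : ∃ z, z = dv (ds D) x (X 0 ^ q) := ⟨_, rfl⟩
  rw [← hz] at hz' h00
  obtain ⟨W, hW⟩ : ∃ W : Matrix (Fin 5) (Fin 5) Ω, W = Matrix.of ![x, e, z, w0, w1] := ⟨_, rfl⟩
  rw [← hW] at h00
  have hu : IsUnit W.det := isUnit_iff_ne_zero.2 h00
  have e1 : W * W⁻¹ = 1 := Matrix.mul_nonsing_inv W hu
  have e2 : W⁻¹ * W = 1 := Matrix.nonsing_inv_mul W hu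
  have hdt : ∀ (i j : Fin 5), dt (fun l => W⁻¹ l j) (W i) = if i = j then 1 else 0 := by
    intro i j
    rw [← Matrix.one_apply, ← e1, Matrix.mul_apply, dt]
    exact Finset.sum_congr rfl fun l _ => mul_comm _ _
  have hx0 : W 0 = x := by rw [hW]; rfl
  have hx1 : W 1 = e := by rw [hW]; rfl
  have hx3 : W 3 = w0 := by rw [hW]; rfl
  have hx4 : W 4 = w1 := by rw [hW]; rfl
  have hcomb : ∀ v, dt n v = 0 → Par2 x e
      (v - (dt (fun l => W⁻¹ l 3) v • w0 + dt (fun l => W⁻¹ l 4) v • w1)) := by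
    intro v hv
    obtain ⟨c, hc⟩ : ∃ c, c = Matrix.vecMul v W⁻¹ := ⟨_, rfl⟩
    have e3 : v = c 0 • x + c 1 • e + c 2 • z + c 3 • w0 + c 4 • w1 := by
      have e4 : Matrix.vecMul c W = v := by
        rw [hc, Matrix.vecMul_vecMul, e2, Matrix.vecMul_one]
      rw [hW, vole_row, vole_five] at e4
      exact e4.symm
    have e5 : ∀ j, c j = dt (fun l => W⁻¹ l j) v := by
      intro j
      rw [hc]
      show ∑ l, v l * W⁻¹ l j = ∑ l, W⁻¹ l j * v l
      exact Finset.sum_congr rfl fun l _ => mul_comm _ _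
    have e6 : c 2 = 0 := vole_c2 h z w0 w1 v hz' h0 h1 hv c e3
    refine ⟨c 0, c 1, ?_⟩
    rw [← e5, ← e5]
    conv_lhs => rw [e3, e6]
    rw [zero_smul]
    abel
  refine ⟨![fun l => W⁻¹ l 3, fun l => W⁻¹ l 4], ?_, ?_, ?_, ?_, ?_, ?_, ?_, hcomb, ?_⟩
  · intro j
    fin_cases j
    · have := hdt 0 3
      rw [hx0] at this
      exact this
    · have := hdt 0 4
      rw [hx0] at this
      exact this
  · intro j
    fin_cases j
    · have := hdt 1 3
      rw [hx1] at this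
      exact this
    · have := hdt 1 4
      rw [hx1] at this
      exact this
  · have := hdt 3 3
    rw [hx3] at this
    exact this
  · have := hdt 3 4
    rw [hx3] at this
    exact this
  · have := hdt 4 3
    rw [hx4] at this
    exact this
  · have := hdt 4 4
    rw [hx4] at this
    exact this
  · intro v hv hj
    have h3 := hcomb v hv
    have h4 : dt (fun l => W⁻¹ l 3) v = 0 := hj 0
    have h5 : dt (fun l => W⁻¹ l 4) v = 0 := hj 1
    rw [h4, h5, zero_smul, zero_smul, add_zero, sub_zero] at h3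
    exact h3
  · intro u v hu' hv'
    obtain ⟨p, r, hpr⟩ := hcomb u hu'
    obtain ⟨p', r', hpr'⟩ := hcomb v hv'
    show vol (ds D) x e u v = vol (ds D) x e w0 w1 * (dt (fun l => W⁻¹ l 3) u *
      dt (fun l => W⁻¹ l 4) v - dt (fun l => W⁻¹ l 4) u * dt (fun l => W⁻¹ l 3) v)
    set α := dt (fun l => W⁻¹ l 3) u
    set β := dt (fun l => W⁻¹ l 4) u
    set α' := dt (fun l => W⁻¹ l 3) v
    set β' := dt (fun l => W⁻¹ l 4) v
    have hu1 : u = (p • x + r • e) + (α • w0 + β • w1) := by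
      rw [← hpr]
      abel
    have hv1 : v = (p' • x + r' • e) + (α' • w0 + β' • w1) := by
      rw [← hpr']
      abel
    have hA : ∀ t, vol (ds D) x e t v = α' * vol (ds D) x e t w0 + β' * vol (ds D) x e t w1 := by
      intro t
      have h6 : vol (ds D) x e t v = - vol (ds D) x e v t := vol_swap _ _ _ _ _
      rw [h6, hv1, vol_add, vol_parE _ _ _ _ _ ⟨p', r', rfl⟩, vol_add, vol_smul, vol_smul,
        vol_swap _ _ _ t w0, vol_swap _ _ _ t w1]
      ring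
    rw [hA]
    conv_lhs => rw [hu1]
    rw [vol_add, vol_parE _ _ _ _ _ ⟨p, r, rfl⟩, vol_add, vol_smul, vol_smul, vol_self,
      vol_add, vol_parE _ _ _ _ _ ⟨p, r, rfl⟩, vol_add, vol_smul, vol_smul, vol_self,
      vol_swap _ _ _ w0 w1]
    ring

end Pool.Agent.Helper10.Q46
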