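import Pool.Agent.Helper10.Q46.MatsE
import Pool.Agent.Helper10.Q46.VolE
import Pool.Agent.Helper74.Q8.RatQ8

/-!
# Q46-RATQE: a rational quadratic form

Copy of `Helper74/Q8/RatQ8.lean` (see its explanation) with one family of matrices: `Q` does not
vanish identically on the rational space `k_i . y = 0` (spanned by rational vectors, `ker_rat` of
`Helper74/Q8/KerRat.lean`), so `Q(y1) ≠ 0` for a rational `y1` in it. Choose a `B`-linear map
`λ : Ω → B` with `λ(Q(y1)) ≠ 0` and `Q1 = λ(Q)` coefficientwise. For rational `C`: `um (C Q) = 0`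
(`hpar`, `tx`, `te`), `P ↦ tr(um P * M)`, `M` in the family `fam`, is linear and rational on rational `P`
(`tracesE`), so `tr(um (C Q1) * M) = λ(tr(um (C Q) * M)) = 0`, and `um (C Q1) = 0` by `hnd`. So
`D_(C Q1 l_i) x` is in `(x, e)` (`tp`, `tanE`), the same for `k_i` by `kp`, and for all `l'` by `span`.
-/

set_option autoImplicit false

namespace Pool.Agent.Helper10.Q46

open scoped BigOperators
open MvPolynomial
open Pool.Agent.Helper8.LG (Bdd form mon)
open Pool.Agent.Helper49.LN (cP mo hf pl)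
open Pool.Agent.Helper6.QS
open Pool.Agent.Helper74.Q8 (dl rr)

section ratqe_general

variable {Ω : Type*} [Field Ω] {σ : Type*} [Fintype σ] [DecidableEq σ]

/-- `um P` is in the span of the family -/
theorem RatQE_um_mem {q : ℕ} (D : Sym σ q → Derivation ℤ Ω Ω) (x : σ → Ω)
    (l : Fin 2 → σ → Ω) (θ : Fin 2 → σ → Ω) (P : MvPolynomial σ Ω) :
    um D x l θ P ∈ Submodule.span Ω (Set.range (fam D x l θ)) := by
  rw [P.as_sum, map_sum]
  refine Submodule.sum_mem _ fun m _ => ?_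
  have h3 : monomial m (coeff m P) = coeff m P • monomial m (1 : Ω) := by
    rw [smul_monomial, smul_eq_mul, mul_one]
  rw [h3, map_smul]
  exact Submodule.smul_mem _ _ (Submodule.subset_span ⟨some m, rfl⟩)

omit [Fintype σ] [DecidableEq σ] in
/-- the abstract step: a linear map to matrices with rational traces -/
theorem RatQE_abs [CharZero Ω] {B : Subfield Ω}
    (U : MvPolynomial σ Ω →ₗ[Ω] Matrix (Fin 2) (Fin 2) Ω)
    (h1 : ∀ m, (U (monomial m 1)).trace ∈ B)
    (h2 : ∀ m m', (U (monomial m 1) * U (monomial m' 1)).trace ∈ B)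
    (F : Option (σ →₀ ℕ) → Matrix (Fin 2) (Fin 2) Ω)
    (hF1 : F none = 1) (hF2 : ∀ m, F (some m) = U (monomial m 1))
    (hU : ∀ P, U P ∈ Submodule.span Ω (Set.range F))
    (hnd : ∀ N ∈ Submodule.span Ω (Set.range F), (∀ i, (N * F i).trace = 0) → N = 0)
    (Q : MvPolynomial σ Ω) (μ : Ω →ₗ[B] Ω) (hQ : ∀ C, U (C * Q) = 0) :
    ∀ C, U (C * ∑ m ∈ Q.support, monomial m (μ (coeff m Q))) = 0 := by
  have hmon : ∀ c : σ →₀ ℕ,
      U (monomial c 1 * ∑ m ∈ Q.support, monomial m (μ (coeff m Q))) = 0 := by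
    intro c
    refine hnd _ (hU _) ?_
    intro i
    have hmem : ∀ m, ((Pool.Agent.Helper74.Q8.ratq8_tr (F i)) ∘ₗ U ∘ₗ LinearMap.mulLeft Ω
        (monomial c (1 : Ω) : MvPolynomial σ Ω)) (monomial m 1) ∈ B := by
      intro m
      rw [LinearMap.comp_apply, LinearMap.comp_apply, LinearMap.mulLeft_apply, monomial_mul,
        one_mul]
      show (U (monomial (c + m) 1) * F i).trace ∈ B
      rcases i with _ | m'
      · rw [hF1, mul_one]
        exact h1 _
      · rw [hF2]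
        exact h2 _ _
    have h3 := ratQ_lin μ Q _ hmem
    rw [LinearMap.comp_apply, LinearMap.comp_apply, LinearMap.mulLeft_apply,
      LinearMap.comp_apply, LinearMap.comp_apply, LinearMap.mulLeft_apply, hQ, map_zero,
      map_zero] at h3
    exact h3
  generalize (∑ m ∈ Q.support, monomial m (μ (coeff m Q))) = Q1 at hmon ⊢
  intro C
  rw [C.as_sum, Finset.sum_mul, map_sum]
  refine Finset.sum_eq_zero fun c _ => ?_
  have h3 : monomial c (coeff c C) = coeff c C • monomial c (1 : Ω) := by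
    rw [smul_monomial, smul_eq_mul, mul_one]
  rw [h3, smul_mul_assoc, map_smul, hmon, smul_zero]

end ratqe_general

variable {Ω : Type*} [Field Ω] [CharZero Ω] {q : ℕ}
  {D : Option (Sym (Fin 5) q) → Derivation ℤ Ω Ω} {a : Sym (Fin 5) q → Ω} {B : Subfield Ω}
  {x e n : Fin 5 → Ω}

theorem rat_qE {k : Fin 2 → Fin 5 → Ω} {l : Fin 2 → Fin 5 → Ω} {θ : Fin 2 → Fin 5 → Ω}
    {P1 : MvPolynomial (Fin 5) Ω} (m : MtE D a B x e n k l θ P1)
    (hnd : ∀ N ∈ Submodule.span Ω (Set.range (fam (ds D) x l θ)),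
      (∀ i, (N * fam (ds D) x l θ i).trace = 0) → N = 0)
    (Q : MvPolynomial (Fin 5) Ω) (hQ : Q.IsHomogeneous 2)
    (hy : ∃ y, (∀ i, dt (k i) y = 0) ∧ eval y Q ≠ 0)
    (hpar : ∀ C, Par2 x e (dv (ds D) x (C * Q))) :
    ∃ Q1 : MvPolynomial (Fin 5) Ω, RatP B Q1 ∧ Q1.IsHomogeneous 2 ∧
      (∃ y, (∀ i, dt (k i) y = 0) ∧ eval y Q1 ≠ 0) ∧
      ∀ C l', dt l' x = 0 → Par2 x e (dv (ds D) x (C * Q1 * lf l')) := by
  obtain ⟨y, hyB, hy1, hy2⟩ := Pool.Agent.Helper74.Q8.ratq8_pt k m.pl.kB Q hy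
  obtain ⟨φ, hφ⟩ : ∃ φ : Module.Dual B Ω, φ (eval y Q) ≠ 0 := by
    by_contra hcon
    push Not at hcon
    exact hy2 ((Module.forall_dual_apply_eq_zero_iff B (eval y Q)).1 hcon)
  obtain ⟨μ, hμB, hμ⟩ : ∃ μ : Ω →ₗ[B] Ω, (∀ b, μ b ∈ B) ∧ μ (eval y Q) ≠ 0 :=
    ⟨(Algebra.linearMap B Ω) ∘ₗ φ, fun b => (φ b).2, fun h => hφ (Subtype.ext h)⟩
  have hae : ∀ f : MvPolynomial (Fin 5) Ω, aeval y f = eval y f := fun f => by
    rw [← coe_aeval_eq_eval]
    rfl
  -- the matrices of the multiples of `Q` vanish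
  have hum : ∀ C, um (ds D) x l θ (C * Q) = 0 := by
    intro C
    ext i j
    rw [um_apply, Pool.Agent.Helper74.Q8.dl_eq, Matrix.zero_apply]
    have e' : C * Q * lf (l i) = C * lf (l i) * Q := by ring
    rw [e']
    exact (hpar _).dt _ (m.tx j) (m.te j)
  have tr := tracesE (um (ds D) x l θ) P1 m.r1 m.a1 m.det
  have h1 : ∀ p, (um (ds D) x l θ (monomial p 1)).trace ∈ B := fun p =>
    (tr _ _ (ratQ_ratP p) (ratQ_ratP p)).1
  have h2 : ∀ p p', (um (ds D) x l θ (monomial p 1) * um (ds D) x l θ (monomial p' 1)).trace ∈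
      B := fun p p' => (tr _ _ (ratQ_ratP p) (ratQ_ratP p')).2.2
  have hab := RatQE_abs (B := B) (um (ds D) x l θ) h1 h2 (fam (ds D) x l θ) rfl (fun _ => rfl)
    (RatQE_um_mem (ds D) x l θ) hnd Q μ hum
  refine ⟨∑ m ∈ Q.support, monomial m (μ (coeff m Q)), ?_, ?_, ⟨y, hy1, ?_⟩, ?_⟩
  · intro p
    rw [ratQ_coeff]
    exact hμB _
  · intro p hp
    rw [ratQ_coeff] at hp
    exact hQ fun h => hp (by rw [h, map_zero])
  · have hmem : ∀ m, (aeval y : MvPolynomial (Fin 5) Ω →ₐ[Ω] Ω).toLinearMap (monomial m 1) ∈ B := by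
      intro m
      rw [AlgHom.toLinearMap_apply, aeval_monomial, map_one, one_mul]
      exact prod_mem fun i _ => pow_mem (hyB i) _
    have h1 := ratQ_lin μ Q (aeval y : MvPolynomial (Fin 5) Ω →ₐ[Ω] Ω).toLinearMap hmem
    rw [AlgHom.toLinearMap_apply, AlgHom.toLinearMap_apply, hae, hae] at h1
    intro h2
    exact hμ (h1.symm.trans h2)
  · generalize (∑ m ∈ Q.support, monomial m (μ (coeff m Q))) = Q1 at hab ⊢
    intro C l' hl'
    have hl : ∀ i, Par2 x e (dl (ds D) x (C * Q1) (l i)) := by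
      intro i
      refine m.tp _ (tanE m.pl.pt _ _ (m.pl.lx i)) ?_
      intro j
      rw [← um_apply, hab, Matrix.zero_apply]
    obtain ⟨α, β, hαβ⟩ := m.pl.span l' hl'
    have e' : dv (ds D) x (C * Q1 * lf l') =
        Pool.Agent.Helper74.Q8.dlm (ds D) x (C * Q1) l' := rfl
    rw [e', hαβ, map_add, map_sum, map_sum]
    refine Par2.add (Par2.sum _ _ fun i _ => ?_) (Par2.sum _ _ fun i _ => ?_)
    · rw [map_smul]
      exact (m.pl.kp _ i).smul _
    · rw [map_smul]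
      exact (hl i).smul _

end Pool.Agent.Helper10.Q46
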