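import Pool.Agent.Helper10.Q46.PlaneE
import Pool.Agent.Helper10.Q46.CaseTE
import Pool.Agent.Helper10.Q46.CaseNE
import Pool.Agent.Helper10.Q46.RatQE
import Pool.Agent.Helper10.Q46.FinQE
import Pool.Agent.Helper10.Q46.ConicDivE
import Pool.Agent.Helper10.Q46.ConicCountE
import Pool.Agent.Helper10.Q46.NormE
import Pool.Agent.Helper74.Q8.Tri

/-!
# Q46-KEYBLKE: sextic threefolds, the block case (assembly)
-/

set_option autoImplicit false

namespace Pool.Agent.Helper10.Q46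

open scoped BigOperators
open MvPolynomial
open Pool.Agent.Helper8.LG (Bdd form mon)
open Pool.Agent.Helper49.LN (cP mo hf pl)
open Pool.Agent.Helper6.QS
open Pool.Agent.Helper74.Q8 (dl rr)

section general

variable {Ω : Type*} [Field Ω] {σ : Type*} [Fintype σ] [DecidableEq σ] {q : ℕ}

omit [Fintype σ] [DecidableEq σ] in
theorem eval_moE (x : σ → Ω) (J : Sym σ q) : eval x (mo Ω (J : Multiset σ)) = mon x J := by
  unfold mo mon
  rw [map_multiset_prod, Multiset.map_map]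
  congr 1
  exact Multiset.map_congr rfl fun i _ => eval_X i

theorem eval_sumE (x : σ → Ω) (a : Sym σ q → Ω) :
    eval x (∑ J : Sym σ q, a J • mo Ω (J : Multiset σ)) = form a x := by
  rw [map_sum]
  unfold form
  refine Finset.sum_congr rfl fun J _ => ?_
  rw [smul_eval, eval_moE]

theorem sum_homE (a : Sym σ q → Ω) :
    (∑ J : Sym σ q, a J • mo Ω (J : Multiset σ) : MvPolynomial σ Ω).IsHomogeneous q := by
  refine IsHomogeneous.sum _ _ _ fun J _ => ?_
  have h4 := Pool.Agent.Helper49.LN.mo_hom (E := Ω) (J : Multiset σ)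
  rw [Sym.card_coe] at h4
  rw [smul_eq_C_mul]
  have h5 := (isHomogeneous_C σ (a J)).mul h4
  rwa [zero_add] at h5

theorem sum_ratE (B : Subfield Ω) (a : Sym σ q → Ω) (ha : ∀ J, a J ∈ B) :
    RatP B (∑ J : Sym σ q, a J • mo Ω (J : Multiset σ)) := by
  intro m
  rw [coeff_sum]
  refine sum_mem fun J _ => ?_
  rw [coeff_smul, smul_eq_mul, Pool.Agent.Helper49.LN.mo_eq, coeff_monomial]
  refine mul_mem (ha J) ?_
  split_ifs
  · exact one_mem B
  · exact zero_mem B

end general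

variable {Ω : Type*} [Field Ω] [CharZero Ω] {q : ℕ}
  {D : Option (Sym (Fin 5) q) → Derivation ℤ Ω Ω} {a : Sym (Fin 5) q → Ω} {B : Subfield Ω}
  {x e n : Fin 5 → Ω}

/-- the plane case -/
theorem key_mtE {k : Fin 2 → Fin 5 → Ω} {l : Fin 2 → Fin 5 → Ω} {θ : Fin 2 → Fin 5 → Ω}
    {P1 : MvPolynomial (Fin 5) Ω} (m : MtE D a B x e n k l θ P1) : ∀ i, x i ∈ B := by
  by_contra hcon
  by_cases hnd : ∀ N ∈ Submodule.span Ω (Set.range (fam (ds D) x l θ)),
      (∀ i, (N * fam (ds D) x l θ i).trace = 0) → N = 0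
  swap
  · push Not at hnd
    obtain ⟨N, hNs, hN0, hN⟩ := hnd
    obtain ⟨v, w, hv, hw, hwv, hM⟩ := Pool.Agent.Helper74.Q8.tri (fam (ds D) x l θ) none rfl N hN
      hNs hN0
    refine hcon (case_tE m v w hv hw hwv fun P => ?_)
    have h1 : ∀ p : Fin 5 →₀ ℕ,
        dotProduct w (Matrix.mulVec (um (ds D) x l θ (monomial p 1)) v) = 0 :=
      fun p => hM (some p)
    induction P using MvPolynomial.induction_on' with
    | monomial p c =>
      have h2 : monomial p c = c • (monomial p (1 : Ω) : MvPolynomial (Fin 5) Ω) := by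
        rw [smul_monomial, smul_eq_mul, mul_one]
      rw [h2, map_smul, Matrix.smul_mulVec, dotProduct_smul, h1, smul_zero]
    | add P P' hP hP' =>
      rw [map_add, Matrix.add_mulVec, dotProduct_add, hP, hP', add_zero]
  obtain ⟨Q, hQ2, hQy, hQpar⟩ := case_nE m hnd hcon
  obtain ⟨Q1, hQ1, hQ12, hQ1y, hpar⟩ := rat_qE m hnd Q hQ2 hQy hQpar
  have hpt := m.pl.pt
  rcases fin_qE hpt Q1 hQ1 hQ12 hpar with h3 | h3
  · exact hcon h3
  have hq : q = 6 := hpt.hq
  obtain ⟨F, hFdef⟩ : ∃ F, F = ∑ J : Sym (Fin 5) q, a J • mo Ω (J : Multiset (Fin 5)) :=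
    ⟨_, rfl⟩
  have hFq : F.IsHomogeneous q := by
    rw [hFdef]
    exact sum_homE a
  have hFhom : F.IsHomogeneous (4 + 2) := by
    rw [hq] at hFq
    exact hFq
  have hFx : eval x F = 0 := by
    rw [hFdef, eval_sumE]
    exact hpt.zero
  have hFB : RatP B F := by
    rw [hFdef]
    exact sum_ratE B a hpt.frame.mem
  have hkind : LinearIndependent Ω k := by
    have h5 := m.pl.ind.comp Sum.inl Sum.inl_injective
    exact h5
  rcases conic_divE (rat_alg hpt.frame.frame) x hpt.one k m.pl.kB m.pl.kx hkind Q1 F hQ1 hFB 4 hQ12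
    hFhom hQ1y h3 hFx with h4 | ⟨h', h5, h6, h7⟩ | ⟨A, C, h5, h6, h7⟩
  · exact hcon h4
  · refine hcon (three_lineE hpt (Matrix.vecCons h' k) ?_ ?_ h6)
    · intro i j
      refine Fin.cases ?_ (fun i => ?_) i
      · exact h5 j
      · exact m.pl.kB i j
    · intro i
      refine Fin.cases ?_ (fun i => ?_) i
      · exact h7
      · exact m.pl.kx i
  · exact conic_countE hq (ds D) a hpt.frame.dual k hkind Q1 C A hQ12 h5 h6 (hFdef ▸ h7)

/-- **The block case.** -/
theorem key_blkE (hq : q = 6) (hB : FrameE D a B) (x e : Fin 5 → Ω) (hx : x 0 = 1)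
    (hF : form a x = 0) (he : ∀ l, e l = D none (x l)) (hne : ∃ l, e l ≠ 0)
    (P1 : MvPolynomial (Fin 5) Ω) (hP1 : RatP B P1)
    (l l' : Fin 5 → Ω) (hl : dt l x = 0) (hl' : dt l' x = 0)
    (hlin : LinearIndependent Ω ![x, e, dl (ds D) x P1 l, dl (ds D) x P1 l']) :
    ∀ i, x i ∈ B := by
  obtain ⟨n, hn, hn', hf⟩ := dvE_normal D a hB.dual hB.fix x e he hF
  have hpt : PtE D a B x e n := ⟨hq, hB, hx, hF, he, hne, hn, hn', hf⟩
  have hv : T2 (ds D) x e P1 l l' ≠ 0 := vol_neE hpt _ _ (tanE hpt P1 l hl) (tanE hpt P1 l' hl')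
    hlin
  rcases plane_e hpt P1 hP1 l l' hl hl' hv with h1 | ⟨k, l0, pl, hne0⟩
  · exact h1
  obtain ⟨θ, hθ⟩ := mats_e pl P1 hP1 hne0
  exact key_mtE hθ

end Pool.Agent.Helper10.Q46
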