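import Pool.Agent.Helper10.Q46.KerSpanE
import Pool.Agent.Helper10.Q46.KerDimE
import Pool.Agent.Helper10.Q46.LinesE

/-!
# Q46-PLANEE: the rational plane through the point

Let `S` be the span of the rational vectors orthogonal to `x`. If three of them are independent,
`three_lineE`. So `dim S ≤ 2`. For a rational `P` with `T2 .. P l l' ≠ 0` for some `l, l'` in `R`, the
kernel of `l ↦ D_(P l) x` modulo `(x, e)` has dimension 2 (`ker_dimE`) and is contained in `S`
(`ker_spanE`; `T2 .. P k l' = 0` by `vol_parE`): so it is `S`, `dim S = 2`; let `k` be a basis of `S` of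
rational vectors (`PlaneA_basis` of `Helper74/Q8/PlaneA.lean` is the analogue). For a rational `P`
choose `s ∈ ℕ`, `s ≠ 0`, with `T2 .. (P1 + s P) l l' ≠ 0` (a polynomial in `s` of degree 2 which is
not zero at `0`): the kernel of `P1 + s P` is `S`, like that of `P1`: `D_(P k_i) x ∈ (x, e)`. For all
`P` by linearity (monomials are rational). `l`, `l'` are combinations of the `rr x 0 b` (`rr_spanE`):
choose `b, c` with `T2 .. P1 (rr x 0 b) (rr x 0 c) ≠ 0`, `l = ![rr x 0 b, rr x 0 c]`; `k, l` are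
independent (a combination `r_0 l_0 + r_1 l_1` in the kernel has `r = 0`) and span `R` (dimension 4);
`rat` is `t_ratE0`. Compare `Helper74/Q8/PlaneB.lean`, `PlaneC.lean`.
-/

set_option autoImplicit false

namespace Pool.Agent.Helper10.Q46

open scoped BigOperators
open MvPolynomial
open Pool.Agent.Helper8.LG (Bdd form mon)
open Pool.Agent.Helper49.LN (cP mo hf pl)
open Pool.Agent.Helper6.QS
open Pool.Agent.Helper74.Q8 (dl rr dl_add dl_smul dl_add_right dl_smul_right dl_zero_right dt_add'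
  dt_smul' dt_comm')

/-- a spanning set of a subspace which contains two independent vectors, but has no three
independent vectors, has two elements which are a basis -/
theorem PlaneE_basis {Ω V : Type*} [Field Ω] [AddCommGroup V] [Module Ω V] [FiniteDimensional Ω V]
    (S : Set V) (h4 : ∀ k : Fin 3 → V, (∀ i, k i ∈ S) → ¬ LinearIndependent Ω k)
    (h3 : ∃ k : Fin 2 → V, LinearIndependent Ω k ∧ ∀ i, k i ∈ Submodule.span Ω S) :
    (∃ k : Fin 2 → V, (∀ i, k i ∈ S) ∧ LinearIndependent Ω k) ∧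
      ∀ k : Fin 2 → V, LinearIndependent Ω k → (∀ i, k i ∈ Submodule.span Ω S) →
        Submodule.span Ω (Set.range k) = Submodule.span Ω S := by
  obtain ⟨s, hsS, hspan, hlin⟩ := exists_linearIndependent Ω S
  have : Fintype s := hlin.setFinite.fintype
  have hW : Module.finrank Ω (Submodule.span Ω S) = Fintype.card s := by
    have h1 := finrank_span_eq_card hlin
    rw [Subtype.range_coe, hspan] at h1
    exact h1
  have hle : Fintype.card s ≤ 2 := by
    by_contra hcon
    have h5 : Fintype.card (Fin 3) ≤ Fintype.card s := by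
      rw [Fintype.card_fin]
      omega
    obtain ⟨e⟩ := Function.Embedding.nonempty_of_card_le h5
    exact h4 (fun i => (e i).1) (fun i => hsS (e i).2) (hlin.comp e e.injective)
  have hge : ∀ k : Fin 2 → V, LinearIndependent Ω k → (∀ i, k i ∈ Submodule.span Ω S) →
      Submodule.span Ω (Set.range k) ≤ Submodule.span Ω S ∧
      Module.finrank Ω (Submodule.span Ω (Set.range k)) = 2 := by
    intro k hk hkS
    refine ⟨?_, ?_⟩
    · rw [Submodule.span_le]
      rintro _ ⟨i, rfl⟩
      exact hkS i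
    · rw [finrank_span_eq_card hk, Fintype.card_fin]
  obtain ⟨k0, hk0, hk0S⟩ := h3
  have h6 : 2 ≤ Fintype.card s := by
    rw [← hW, ← (hge k0 hk0 hk0S).2]
    exact Submodule.finrank_mono (hge k0 hk0 hk0S).1
  have hcard : Fintype.card s = 2 := le_antisymm hle h6
  refine ⟨?_, ?_⟩
  · obtain ⟨e⟩ : Nonempty (s ≃ Fin 2) := ⟨Fintype.equivFinOfCardEq hcard⟩
    exact ⟨fun i => (e.symm i).1, fun i => hsS (e.symm i).2, hlin.comp e.symm e.symm.injective⟩
  · intro k hk hkS
    apply Submodule.eq_of_le_of_finrank_le (hge k hk hkS).1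
    rw [hW, hcard, (hge k hk hkS).2]

section gen

variable {Ω : Type*} [Field Ω] {B : Subfield Ω} {x : Fin 5 → Ω}

theorem PlaneE_rat_add {P Q : MvPolynomial (Fin 5) Ω} (hP : RatP B P) (hQ : RatP B Q) :
    RatP B (P + Q) := fun m => by
  rw [coeff_add]
  exact B.add_mem (hP m) (hQ m)

theorem PlaneE_rat_smul {P : MvPolynomial (Fin 5) Ω} (s : ℕ) (hP : RatP B P) :
    RatP B ((s : Ω) • P) := fun m => by
  rw [coeff_smul, smul_eq_mul]
  exact B.mul_mem (natCast_mem B s) (hP m)

theorem PlaneE_rat_mono (m : Fin 5 →₀ ℕ) : RatP B (monomial m (1 : Ω)) := fun m' => by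
  rw [coeff_monomial]
  split_ifs
  · exact B.one_mem
  · exact B.zero_mem

/-- the linear forms vanishing at `x` have dimension 4 -/
theorem PlaneE_span (hx : x 0 = 1) (g : Fin 2 ⊕ Fin 2 → Fin 5 → Ω) (hg : ∀ i, dt (g i) x = 0)
    (hlin : LinearIndependent Ω g) (l : Fin 5 → Ω) (hl : dt l x = 0) :
    ∃ r : Fin 2 ⊕ Fin 2 → Ω, ∑ i, r i • g i = l := by
  let φ : (Fin 5 → Ω) →ₗ[Ω] Ω :=
    { toFun := fun u => dt u x
      map_add' := fun u v => by
        rw [dt_comm', dt_add', dt_comm' x u, dt_comm' x v]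
      map_smul' := fun r u => by
        rw [dt_comm', dt_smul', dt_comm' x u]
        rfl }
  have hφ : ∀ u, φ u = dt u x := fun u => rfl
  have hr : LinearMap.range φ = ⊤ := by
    rw [LinearMap.range_eq_top]
    intro y
    refine ⟨y • Pi.single 0 1, ?_⟩
    rw [map_smul, hφ, smul_eq_mul]
    unfold dt
    simp [Pi.single_apply, hx]
  have hk : Module.finrank Ω (LinearMap.ker φ) = 4 := by
    have := LinearMap.finrank_range_add_finrank_ker φ
    rw [hr, finrank_top, Module.finrank_self, Module.finrank_fin_fun] at this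
    omega
  have hle : Submodule.span Ω (Set.range g) ≤ LinearMap.ker φ := by
    rw [Submodule.span_le]
    rintro _ ⟨i, rfl⟩
    exact hg i
  have hs : Module.finrank Ω (Submodule.span Ω (Set.range g)) = 4 := by
    rw [finrank_span_eq_card hlin]
    rfl
  have heq := Submodule.eq_of_le_of_finrank_eq hle (hs.trans hk.symm)
  have hm : l ∈ Submodule.span Ω (Set.range g) := by
    rw [heq]
    exact hl
  exact (Submodule.mem_span_range_iff_exists_fun Ω).1 hm

end gen

variable {Ω : Type*} [Field Ω] [CharZero Ω] {q : ℕ}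
  {D : Option (Sym (Fin 5) q) → Derivation ℤ Ω Ω} {a : Sym (Fin 5) q → Ω} {B : Subfield Ω}
  {x e n : Fin 5 → Ω}

/-- the kernel of a rational block is contained in the span of the rational vectors -/
theorem PlaneE_ker (h : PtE D a B x e n) (P : MvPolynomial (Fin 5) Ω) (hP : RatP B P)
    (l l' : Fin 5 → Ω) (hl : dt l x = 0) (hl' : dt l' x = 0)
    (hne : T2 (ds D) x e P l l' ≠ 0) :
    ∃ k : Fin 2 → Fin 5 → Ω, LinearIndependent Ω k ∧
      (∀ i, k i ∈ Submodule.span Ω {m : Fin 5 → Ω | (∀ j, m j ∈ B) ∧ dt m x = 0}) ∧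
      ∀ m ∈ Submodule.span Ω (Set.range k), Par2 x e (dl (ds D) x P m) := by
  obtain ⟨k, hk1, hk2, hk3, -⟩ := ker_dimE h P l l' hl hl' hne
  refine ⟨k, hk1, fun i => ?_, ?_⟩
  · refine ker_spanE h P hP l l' hl hl' hne (k i) (hk2 i) fun l'' _ => ?_
    unfold T2
    exact vol_parE (ds D) x e _ _ (hk3 i)
  · intro m hm
    induction hm using Submodule.span_induction with
    | mem m hm =>
      obtain ⟨i, rfl⟩ := hm
      exact hk3 i
    | zero =>
      rw [dl_zero_right]
      exact Par2.zero x e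
    | add u v _ _ hu hv =>
      rw [dl_add_right]
      exact hu.add hv
    | smul r u _ hu =>
      rw [dl_smul_right]
      exact hu.smul r

/-- step 1 -/
theorem PlaneE_ex (h : PtE D a B x e n) (P : MvPolynomial (Fin 5) Ω) (l l' : Fin 5 → Ω)
    (hl : dt l x = 0) (hl' : dt l' x = 0) (hne : T2 (ds D) x e P l l' ≠ 0) :
    ∃ b c, T2 (ds D) x e P (rr x 0 b) (rr x 0 c) ≠ 0 := by
  by_contra hcon
  push Not at hcon
  apply hne
  rw [rr_spanE h.one l hl, kerSpanE_left']
  refine Finset.sum_eq_zero fun b _ => ?_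
  rw [rr_spanE h.one l' hl', kerSpanE_right]
  rw [Finset.sum_eq_zero, mul_zero]
  intro c _
  rw [hcon b c, mul_zero]

/-- `T2` of `P1 + s P` is a polynomial of degree 2 in `s` -/
theorem PlaneE_exp (P1 P : MvPolynomial (Fin 5) Ω) (s : Ω) (l l' : Fin 5 → Ω) :
    T2 (ds D) x e (P1 + s • P) l l' = T2 (ds D) x e P1 l l' +
      s * (vol (ds D) x e (dl (ds D) x P l) (dl (ds D) x P1 l') +
        vol (ds D) x e (dl (ds D) x P1 l) (dl (ds D) x P l')) +
      s ^ 2 * T2 (ds D) x e P l l' := by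
  unfold T2
  rw [dl_add, dl_smul, dl_add, dl_smul]
  generalize dl (ds D) x P1 l = u
  generalize dl (ds D) x P l = v
  generalize dl (ds D) x P1 l' = u'
  generalize dl (ds D) x P l' = v'
  rw [vol_add, vol_smul, vol_swap (ds D) x e (u' + s • v') u, vol_swap (ds D) x e (u' + s • v') v,
    vol_add, vol_smul, vol_add, vol_smul, vol_swap (ds D) x e u u', vol_swap (ds D) x e u v',
    vol_swap (ds D) x e v u', vol_swap (ds D) x e v v']
  ring

theorem plane_e (h : PtE D a B x e n) (P1 : MvPolynomial (Fin 5) Ω) (hP1 : RatP B P1)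
    (l l' : Fin 5 → Ω) (hl : dt l x = 0) (hl' : dt l' x = 0)
    (hne : T2 (ds D) x e P1 l l' ≠ 0) :
    (∀ i, x i ∈ B) ∨ ∃ (k : Fin 2 → Fin 5 → Ω) (l : Fin 2 → Fin 5 → Ω),
      PlE D a B x e n k l ∧ T2 (ds D) x e P1 (l 0) (l 1) ≠ 0 := by
  by_cases hthree : ∃ k : Fin 3 → Fin 5 → Ω,
      (∀ i, k i ∈ {m : Fin 5 → Ω | (∀ j, m j ∈ B) ∧ dt m x = 0}) ∧ LinearIndependent Ω k
  · obtain ⟨k, hk1, hk2⟩ := hthree
    exact Or.inl (three_lineE h k (fun i => (hk1 i).1) (fun i => (hk1 i).2) hk2)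
  right
  push Not at hthree
  obtain ⟨k0, hk0, hk0S, -⟩ := PlaneE_ker h P1 hP1 l l' hl hl' hne
  obtain ⟨⟨k, hkS, hk⟩, hall⟩ := PlaneE_basis _ hthree ⟨k0, hk0, hk0S⟩
  have hcore : ∀ P, RatP B P → T2 (ds D) x e P l l' ≠ 0 → ∀ i, Par2 x e (dl (ds D) x P (k i)) := by
    intro P hP hneP i
    obtain ⟨k', hk', hk'S, hk'0⟩ := PlaneE_ker h P hP l l' hl hl' hneP
    apply hk'0
    rw [hall k' hk' hk'S]
    exact Submodule.subset_span (hkS i)
  have hrat : ∀ P, RatP B P → ∀ i, Par2 x e (dl (ds D) x P (k i)) := by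
    intro P hP i
    have hP1i : Par2 x e (dl (ds D) x P1 (k i)) := hcore P1 hP1 hne i
    have hfin : ∀ s : ℕ, s ≠ 0 → T2 (ds D) x e (P1 + (s : Ω) • P) l l' ≠ 0 →
        Par2 x e (dl (ds D) x P (k i)) := by
      intro s hs hp0
      have hp := hcore _ (PlaneE_rat_add hP1 (PlaneE_rat_smul s hP)) hp0 i
      have hs' : (s : Ω) ≠ 0 := Nat.cast_ne_zero.2 hs
      have e1 : dl (ds D) x P (k i) =
          (s : Ω)⁻¹ • (dl (ds D) x (P1 + (s : Ω) • P) (k i) - dl (ds D) x P1 (k i)) := by
        rw [dl_add, dl_smul, add_sub_cancel_left, smul_smul, inv_mul_cancel₀ hs', one_smul]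
      rw [e1]
      exact (hp.sub hP1i).smul _
    by_cases s1 : T2 (ds D) x e (P1 + ((1 : ℕ) : Ω) • P) l l' ≠ 0
    · exact hfin 1 (by norm_num) s1
    by_cases s2 : T2 (ds D) x e (P1 + ((2 : ℕ) : Ω) • P) l l' ≠ 0
    · exact hfin 2 (by norm_num) s2
    by_cases s3 : T2 (ds D) x e (P1 + ((3 : ℕ) : Ω) • P) l l' ≠ 0
    · exact hfin 3 (by norm_num) s3
    exfalso
    apply hne
    rw [not_not] at s1 s2 s3
    rw [PlaneE_exp] at s1 s2 s3
    push_cast at s1 s2 s3
    linear_combination 3 * s1 - 3 * s2 + s3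
  have hpar : ∀ P i, Par2 x e (dl (ds D) x P (k i)) := by
    intro P i
    induction P using MvPolynomial.induction_on' with
    | monomial u r =>
      have e1 : (monomial u r : MvPolynomial (Fin 5) Ω) = r • monomial u 1 := by
        rw [smul_monomial, smul_eq_mul, mul_one]
      rw [e1, dl_smul]
      exact (hrat _ (PlaneE_rat_mono u) i).smul r
    | add p r hp hr =>
      rw [dl_add]
      exact hp.add hr
  obtain ⟨b, c, hbc⟩ := PlaneE_ex h P1 l l' hl hl' hne
  have hb : dt (rr x 0 b) x = 0 := rr_dtE x 0 b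
  have hc : dt (rr x 0 c) x = 0 := rr_dtE x 0 c
  have hkx : ∀ i, dt (k i) x = 0 := fun i => (hkS i).2
  have hkT : ∀ i m, T2 (ds D) x e P1 (k i) m = 0 := fun i m => by
    unfold T2
    exact vol_parE (ds D) x e _ _ (hpar P1 i)
  have hlin : LinearIndependent Ω (Sum.elim k ![rr x 0 b, rr x 0 c]) := by
    rw [Fintype.linearIndependent_iff]
    intro g hg
    rw [Fintype.sum_sum_type, Fin.sum_univ_two, Fin.sum_univ_two] at hg
    have hg' : (g (Sum.inl 0) • k 0 + g (Sum.inl 1) • k 1) +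
      (g (Sum.inr 0) • rr x 0 b + g (Sum.inr 1) • rr x 0 c) = 0 := hg
    have hT : ∀ m, g (Sum.inr 0) * T2 (ds D) x e P1 (rr x 0 b) m +
        g (Sum.inr 1) * T2 (ds D) x e P1 (rr x 0 c) m = 0 := by
      intro m
      have e1 := congrArg (fun u => T2 (ds D) x e P1 ((1 : Ω) • u + (0 : Ω) • (0 : Fin 5 → Ω)) m) hg'
      simp only [one_smul, smul_zero, add_zero] at e1
      rw [kerSpanE_zero] at e1
      have e2 : T2 (ds D) x e P1 ((g (Sum.inl 0) • k 0 + g (Sum.inl 1) • k 1) +
          (g (Sum.inr 0) • rr x 0 b + g (Sum.inr 1) • rr x 0 c)) m =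
          T2 (ds D) x e P1 (g (Sum.inl 0) • k 0 + g (Sum.inl 1) • k 1) m +
          T2 (ds D) x e P1 (g (Sum.inr 0) • rr x 0 b + g (Sum.inr 1) • rr x 0 c) m := by
        have e3 := TRatE_left (ds D) x e P1 1 1 (g (Sum.inl 0) • k 0 + g (Sum.inl 1) • k 1)
          (g (Sum.inr 0) • rr x 0 b + g (Sum.inr 1) • rr x 0 c) m
        rw [one_smul, one_smul, one_mul, one_mul] at e3
        exact e3
      rw [e2, TRatE_left, TRatE_left, hkT, hkT, mul_zero, mul_zero, add_zero, zero_add] at e1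
      exact e1
    have g0 : g (Sum.inr 0) = 0 := by
      have e1 := hT (rr x 0 c)
      rw [TRatE_self, mul_zero, add_zero] at e1
      exact (mul_eq_zero.1 e1).resolve_right hbc
    have g1 : g (Sum.inr 1) = 0 := by
      have e1 := hT (rr x 0 b)
      rw [TRatE_self, mul_zero, zero_add, TRatE_anti] at e1
      exact (mul_eq_zero.1 e1).resolve_right (neg_ne_zero.2 hbc)
    rw [g0, g1, zero_smul, zero_smul, add_zero, add_zero] at hg'
    have gk := (Fintype.linearIndependent_iff.1 hk) (fun i => g (Sum.inl i)) (by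
      rw [Fin.sum_univ_two]
      exact hg')
    rintro (i | i)
    · exact gk i
    · fin_cases i
      · exact g0
      · exact g1
  refine ⟨k, ![rr x 0 b, rr x 0 c], ⟨h, fun i => (hkS i).1, hkx, hpar, ?_, hlin, ?_, ?_⟩, hbc⟩
  · intro i
    fin_cases i
    · exact hb
    · exact hc
  · intro m hm
    obtain ⟨r, hr⟩ := PlaneE_span h.one (Sum.elim k ![rr x 0 b, rr x 0 c]) (by
      rintro (i | i)
      · exact hkx i
      · fin_cases i
        · exact hb
        · exact hc) hlin m hm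
    refine ⟨fun i => r (Sum.inl i), fun i => r (Sum.inr i), ?_⟩
    rw [← hr, Fintype.sum_sum_type]
    rfl
  · intro P hP
    exact t_ratE0 h P hP b c

end Pool.Agent.Helper10.Q46
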