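import Pool.Agent.Helper10.Q46.UlFrameE
import Pool.Agent.Helper6.QS.StageOne

/-!
# Q46-STAGEONEE: infinitely many of the points are bounded

Copy of `Helper6/QS/StageOne.lean` with one more derivation.
-/

set_option autoImplicit false

namespace Pool.Agent.Helper10.Q46

open scoped BigOperators
open MvPolynomial
open Pool.Agent.Helper8.LG
open Pool.Agent.Helper49.LN (cP mo hf pl)
open Pool.Agent.Helper6.QS

universe u v

theorem stage_oneE {N q : ℕ} (hK : KeyE.{u} N q) {k : Type v} {L : Type u} [Field k] [Field L]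
    [CharZero L] [Algebra k L] (a : Option (Sym (Fin (N + 1)) q) → L) (hind : AlgebraicIndependent k a)
    (hfin : FiniteDimensional (IntermediateField.adjoin k (Set.range a)) L)
    (D : Option (Sym (Fin (N + 1)) q) → Derivation ℤ L L)
    (hD : ∀ I J, D J (a I) = if I = J then 1 else 0)
    (hDk : ∀ J (c : k), D J (algebraMap k L c) = 0)
    (X : ℕ → Fin (N + 1) → L) (h0 : ∀ m, X m 0 = 1) (hF : ∀ m, form (fun J => a (some J)) (X m) = 0)
    (hne : ∀ m, ∃ l, D none (X m l) ≠ 0) :
    ∃ V : Submodule k L, FiniteDimensional k V ∧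
      {m : ℕ | ∃ G : L, G ≠ 0 ∧ ∀ l, G * X m l ∈ V}.Infinite := by
  classical
  obtain ⟨Ω, instΩ, Q, hQ, hker⟩ := ul_exists L
  let algLΩ : Algebra L Ω := (Q.comp (Pi.constRingHom ℕ L)).toAlgebra
  have : CharZero Ω := charZero_of_injective_algebraMap (algebraMap L Ω).injective
  obtain ⟨B, hfr, hB⟩ := ul_frameE Q hQ hker a hind hfin D hD hDk
  set x : Fin (N + 1) → Ω := fun l => Q fun m => X m l with hx
  have hx0 : x 0 = 1 := by
    rw [hx]
    simp only [h0]
    exact map_one Q
  have hxF : form (fun J => Q fun _ => a (some J)) x = 0 := by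
    rw [hx, ← ul_Q_form]
    simp only [hF]
    exact map_zero Q
  have hxne : ∃ l, ulDer Q hQ hker (D none) (x l) ≠ 0 := by
    by_contra hcon
    push Not at hcon
    have h1 : ∀ᶠ m in (Filter.hyperfilter ℕ : Filter ℕ), ∀ l, D none (X m l) = 0 := by
      rw [Filter.eventually_all]
      intro l
      have h2 := hcon l
      rw [hx] at h2
      change ulDer Q hQ hker (D none) (Q fun m => X m l) = 0 at h2
      rw [ulDer_apply] at h2
      exact (hker _).1 h2
    obtain ⟨m, hm⟩ := h1.exists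
    obtain ⟨l, hl⟩ := hne m
    exact hl (hm l)
  have hxB := hK Ω _ _ B hfr x hx0 hxF hxne
  obtain ⟨V, hV, f, g, hf, hg, hg0, hxg⟩ := StageOne_den (k := k) Q x (fun l => hB _ (hxB l))
    Finset.univ
  refine ⟨V, hV, ?_⟩
  have h1 : ∀ᶠ m in (Filter.hyperfilter ℕ : Filter ℕ), g m ≠ 0 := by
    have h2 : ¬ ∀ᶠ m in (Filter.hyperfilter ℕ : Filter ℕ), g m = 0 := fun h => hg0 ((hker g).2 h)
    exact Ultrafilter.eventually_not.2 h2
  have h3 : ∀ᶠ m in (Filter.hyperfilter ℕ : Filter ℕ), ∀ l, g m * X m l = f l m := by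
    rw [Filter.eventually_all]
    intro l
    have h4 : Q ((fun m => X m l) * g - f l) = 0 := by
      rw [map_sub, map_mul, ← hxg l (Finset.mem_univ l), sub_self]
    refine ((hker _).1 h4).mono fun m hm => ?_
    have h5 : X m l * g m - f l m = 0 := hm
    rw [mul_comm]
    exact sub_eq_zero.1 h5
  intro hfin'
  refine hfin'.notMem_hyperfilter ?_
  have h6 := h1.and h3
  refine Filter.mem_of_superset h6 ?_
  rintro m ⟨hm1, hm2⟩
  exact ⟨g m, hm1, fun l => by rw [hm2 l]; exact hf l (Finset.mem_univ l) m⟩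

end Pool.Agent.Helper10.Q46
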