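import Pool.Agent.Helper10.Q46.VolE
import Pool.Agent.Helper10.Q46.RatE
import Pool.Agent.Helper74.Q8.TRat

/-!
# Q46-TRATE: the determinants of a block have exponent 0

With `T(b,c) = T2 (ds D) x e P (rr x 0 b) (rr x 0 c)` (alternating, zero if an index is `0`) let
`t(j,b,c) = x_j T(b,c) - x_b T(j,c) + x_c T(j,b)`. `rr x j b = x_j rr x 0 b - x_b rr x 0 j`, so
`T2 .. P (rr x j b) (rr x j c) = x_j t(j,b,c)`, and
`x_m t(j,b,c) = x_j t(m,b,c) - x_b t(m,j,c) + x_c t(m,j,b)` (`ring`).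
At a valuation ring with maximal coordinate `m` (`rat_maxE` with `s` = the coefficients of `P`),
`x' = x / x_m`, `e' l = D none (x' l)`: `e = x_m e' + c x` (`e_loc`), `rr x m b = x_m rr x' m b`,
`D_(P rr x m b) x = x_m^2 D_(P rr x' m b) x' + c' x` (`dv_scale`), and the third row `D_(X_0^q) x` may
be replaced by `x_m^(-q) D_(X_m^q) x` (the difference is orthogonal to `n` like `x, e` and the last
two rows: five vectors of `n^⊥`, `n ≠ 0`), `D_(X_m^q) x = x_m D_(X_m^q) x' + c'' x`. So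
`x_m t(m,b,c) = x_m^(3 + 4 - 6) det(x', e', D_(X_m^q) x', D_(P rr x' m b) x', D_(P rr x' m c) x')`, and
`Δ^N t(m,b,c) ∈ O` (`dv_bdd`; `Δ e'_l ∈ O`), `Δ^N t(j,b,c) ∈ O` as `x_j / x_m ∈ O`.
Copy of (half of) `Helper74/Q8/TRat.lean` (reuse its general lemmas `trat_ev_pow`,
`trat_coeff_mul`, `trat_det_mem`, `trat_det_bdd`, ..). Keep `q` a variable.
-/

set_option autoImplicit false

namespace Pool.Agent.Helper10.Q46

open scoped BigOperators
open MvPolynomial
open Pool.Agent.Helper8.LG (Bdd form mon)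
open Pool.Agent.Helper49.LN (cP mo hf pl)
open Pool.Agent.Helper6.QS
open Pool.Agent.Helper74.Q8 (dl rr dl_add_right dl_smul_right dl_eq trat_ev_pow trat_ev_lf
  trat_coeff_mul trat_coeff_pow trat_det_scale trat_det_bdd trat_last)

section general

variable {Ω : Type*} [Field Ω]

/-- the alternating sum over three indices -/
def TRatE_t (x : Fin 5 → Ω) (F : Fin 5 → Fin 5 → Ω) (j b c : Fin 5) : Ω :=
  x j * F b c - x b * F j c + x c * F j b

theorem TRatE_rel (x : Fin 5 → Ω) (F : Fin 5 → Fin 5 → Ω) (m j b c : Fin 5) :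
    x m * TRatE_t x F j b c =
      x j * TRatE_t x F m b c - x b * TRatE_t x F m j c + x c * TRatE_t x F m j b := by
  unfold TRatE_t
  ring

theorem TRatE_step (O : ValuationSubring Ω) (x : Fin 5 → Ω) (m : Fin 5) (hm : x m ≠ 0)
    (hx : ∀ l, x l / x m ∈ O) (y A B C δ : Ω) (j b c : Fin 5)
    (h : x m * y = x j * A - x b * B + x c * C) (hA : δ * A ∈ O) (hB : δ * B ∈ O)
    (hC : δ * C ∈ O) : δ * y ∈ O := by
  have e : δ * y = x j / x m * (δ * A) - x b / x m * (δ * B) + x c / x m * (δ * C) := by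
    refine mul_left_cancel₀ hm ?_
    field_simp
    linear_combination δ * h
  rw [e]
  exact add_mem (sub_mem (mul_mem (hx j) hA) (mul_mem (hx b) hB)) (mul_mem (hx c) hC)

theorem TRatE_rr (x : Fin 5 → Ω) (hx : x 0 = 1) (j b : Fin 5) :
    rr x j b = x j • rr x 0 b + (- x b) • rr x 0 j := by
  funext i
  simp only [rr, Pi.add_apply, Pi.smul_apply, smul_eq_mul, hx]
  ring

theorem TRatE_rr_zero (x : Fin 5 → Ω) (j : Fin 5) : rr x j j = 0 := by
  funext i
  simp only [rr, Pi.zero_apply, sub_self]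

theorem TRatE_rr_dt (x : Fin 5 → Ω) (j b : Fin 5) : dt (rr x j b) x = 0 := by
  classical
  unfold dt rr
  simp only [sub_mul, mul_ite, mul_one, mul_zero, ite_mul, zero_mul, Finset.sum_sub_distrib,
    Finset.sum_ite_eq', Finset.mem_univ, if_true]
  ring

theorem TRatE_rr_scale (x x' : Fin 5 → Ω) (m : Fin 5) (hm : x m ≠ 0)
    (hx' : x' = fun l => x l / x m) (b : Fin 5) : rr x m b = x m • rr x' m b := by
  rw [hx']
  funext i
  simp only [rr, Pi.smul_apply, smul_eq_mul, div_self hm, one_mul]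
  rw [mul_sub, ← mul_assoc, mul_div_cancel₀ _ hm]

/-- the determinant only depends on the value of `n` at the third row -/
theorem TRatE_last (n x e w w' u v : Fin 5 → Ω) (s : Ω) (hx : dt n x = 0) (he : dt n e = 0)
    (hu : dt n u = 0) (hv : dt n v = 0) (hw : dt n w = - s) (hw' : dt n w' = - 1) :
    Matrix.det (Matrix.of ![x, e, w, u, v]) = s * Matrix.det (Matrix.of ![x, e, w', u, v]) := by
  have hs : ∀ w : Fin 5 → Ω, Matrix.det (Matrix.of ![x, e, w, u, v]) =
      - Matrix.det (Matrix.of ![x, w, e, u, v]) := by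
    intro w
    have h := Matrix.det_permute (Equiv.swap (1 : Fin 5) 2) (Matrix.of ![x, w, e, u, v])
    rw [Equiv.Perm.sign_swap (by decide)] at h
    have e1 : (Matrix.of ![x, w, e, u, v]).submatrix (Equiv.swap (1 : Fin 5) 2) id =
        Matrix.of ![x, e, w, u, v] := by
      ext i j
      fin_cases i <;> rfl
    rw [e1] at h
    rw [h]
    simp
  have h1 := trat_last n x w w' ![e, u, v] s hx (by
    intro i
    fin_cases i
    · exact he
    · exact hu
    · exact hv) hw hw'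
  rw [hs w, hs w', h1]
  ring

theorem TRatE_scale (x x' e e' w w' v1 v2 u1 u2 : Fin 5 → Ω) (t ce c0 c1 c2 : Ω)
    (hx : ∀ l, x l = t * x' l) (he : e = t • e' + ce • x) (hw : w = t • w' + c0 • x)
    (h1 : v1 = (t * t) • u1 + c1 • x) (h2 : v2 = (t * t) • u2 + c2 • x) :
    Matrix.det (Matrix.of ![x, e, w, v1, v2]) =
      t ^ 7 * Matrix.det (Matrix.of ![x', e', w', u1, u2]) := by
  rw [trat_det_scale (k := 4) (Matrix.of ![x, e, w, v1, v2])
    (Matrix.of ![x', e', w', u1, u2]) ![t, t, t, t * t, t * t]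
    ![0, ce, c0, c1, c2] rfl]
  · congr 1
    rw [Fin.prod_univ_five]
    simp only [Matrix.cons_val_zero, Matrix.cons_val_one, Matrix.cons_val]
    ring
  · intro i l
    fin_cases i
    · show x l = t * x' l + 0 * x l
      rw [hx, zero_mul, add_zero]
    · show e l = t * e' l + ce * x l
      rw [he]; rfl
    · show w l = t * w' l + c0 * x l
      rw [hw]; rfl
    · show v1 l = t * t * u1 l + c1 * x l
      rw [h1]; rfl
    · show v2 l = t * t * u2 l + c2 * x l
      rw [h2]; rfl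

variable {q : ℕ} (D : Sym (Fin 5) q → Derivation ℤ Ω Ω) (x e : Fin 5 → Ω)

section charzero

variable [CharZero Ω]

theorem TRatE_left (P : MvPolynomial (Fin 5) Ω) (α β : Ω) (u w l : Fin 5 → Ω) :
    T2 D x e P (α • u + β • w) l = α * T2 D x e P u l + β * T2 D x e P w l := by
  unfold T2
  rw [dl_add_right, dl_smul_right, dl_smul_right, vol_add, vol_smul, vol_smul]

theorem TRatE_anti (P : MvPolynomial (Fin 5) Ω) (l l' : Fin 5 → Ω) :
    T2 D x e P l' l = - T2 D x e P l l' := by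
  unfold T2
  rw [vol_swap]

theorem TRatE_right (P : MvPolynomial (Fin 5) Ω) (α β : Ω) (u w l : Fin 5 → Ω) :
    T2 D x e P l (α • u + β • w) = α * T2 D x e P l u + β * T2 D x e P l w := by
  rw [TRatE_anti, TRatE_left, TRatE_anti D x e P l u, TRatE_anti D x e P l w]
  ring

theorem TRatE_self (P : MvPolynomial (Fin 5) Ω) (l : Fin 5 → Ω) : T2 D x e P l l = 0 := by
  unfold T2
  rw [vol_self]

theorem TRatE_T_rr (hx : x 0 = 1) (P : MvPolynomial (Fin 5) Ω) (j b c : Fin 5) :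
    T2 D x e P (rr x j b) (rr x j c) =
      x j * TRatE_t x (fun p r => T2 D x e P (rr x 0 p) (rr x 0 r)) j b c := by
  rw [TRatE_rr x hx j b, TRatE_rr x hx j c, TRatE_left, TRatE_right, TRatE_right, TRatE_self]
  unfold TRatE_t
  rw [TRatE_anti D x e P (rr x 0 j) (rr x 0 b)]
  ring

end charzero

/-- the derivative of the product with a scaled linear form -/
theorem TRatE_dl_rr (x' : Fin 5 → Ω) (m : Fin 5) (hm : x m ≠ 0)
    (hx' : x' = fun l => x l / x m) (P : MvPolynomial (Fin 5) Ω) (b : Fin 5) :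
    ∃ c : Ω, dl D x P (rr x m b) = (x m * x m) • dl D x' P (rr x' m b) + c • x := by
  obtain ⟨c, hc⟩ := dv_scale D x m hm (P * lf (rr x' m b))
  rw [← hx'] at hc
  refine ⟨x m * c, ?_⟩
  rw [TRatE_rr_scale x x' m hm hx' b, dl_smul_right, dl_eq, dl_eq, hc, smul_add, smul_smul,
    smul_smul]

end general

variable {Ω : Type*} [Field Ω] [CharZero Ω] {q : ℕ}
  {D : Option (Sym (Fin 5) q) → Derivation ℤ Ω Ω} {a : Sym (Fin 5) q → Ω} {B : Subfield Ω}
  {x e n : Fin 5 → Ω}

omit [CharZero Ω] in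
theorem TRatE_n0 (h : PtE D a B x e n) (P : MvPolynomial (Fin 5) Ω) (j b : Fin 5) :
    dt n (dl (ds D) x P (rr x j b)) = 0 := by
  rw [dl_eq, h.nf, trat_ev_lf 5 q (by rw [h.hq]) x _ P (TRatE_rr_dt x j b), neg_zero]

omit [CharZero Ω] in
theorem TRatE_w0 (h : PtE D a B x e n) (m : Fin 5) :
    dt n (dv (ds D) x (X m ^ q)) = - x m ^ q := by
  rw [h.nf, trat_ev_pow]

theorem TRatE_sc (h : PtE D a B x e n) (x' : Fin 5 → Ω) (m : Fin 5) (hm : x m ≠ 0)
    (hx' : x' = fun l => x l / x m) (P : MvPolynomial (Fin 5) Ω) (b c : Fin 5) :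
    TRatE_t x (fun p r => T2 (ds D) x e P (rr x 0 p) (rr x 0 r)) m b c =
      Matrix.det (Matrix.of ![x', fun l => D none (x' l), dv (ds D) x' (X m ^ q),
        dl (ds D) x' P (rr x' m b), dl (ds D) x' P (rr x' m c)]) := by
  have e4 := TRatE_T_rr (ds D) x e h.one P m b c
  have hone : dt n (dv (ds D) x (X 0 ^ q)) = - 1 := by rw [TRatE_w0 h, h.one, one_pow]
  have e1 := TRatE_last n x e (dv (ds D) x (X m ^ q)) (dv (ds D) x (X 0 ^ q))
    (dl (ds D) x P (rr x m b)) (dl (ds D) x P (rr x m c)) (x m ^ q) h.nx h.ne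
    (TRatE_n0 h P m b) (TRatE_n0 h P m c) (TRatE_w0 h m) hone
  unfold T2 vol at e4
  rw [e4] at e1
  obtain ⟨c0, h0⟩ := dv_scale (ds D) x m hm (X m ^ q)
  rw [← hx'] at h0
  obtain ⟨c1, h1⟩ := TRatE_dl_rr (ds D) x x' m hm hx' P b
  obtain ⟨c2, h2⟩ := TRatE_dl_rr (ds D) x x' m hm hx' P c
  have he := e_loc (D none) x e h.der m hm
  have hee : (fun l => D none (x l / x m)) = fun l => D none (x' l) := by rw [hx']
  rw [hee] at he
  have hxx : ∀ l, x l = x m * x' l := fun l => by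
    rw [hx']
    simp only
    rw [mul_div_cancel₀ _ hm]
  have e2 := TRatE_scale x x' e _ _ _ _ _ _ _ (x m) _ c0 c1 c2 hxx he h0 h1 h2
  rw [e2] at e1
  have hq6 : x m ^ q = x m ^ 6 := by rw [h.hq]
  rw [hq6] at e1
  refine mul_left_cancel₀ (pow_ne_zero 7 hm) ?_
  unfold T2 vol
  rw [e1]
  ring

theorem TRatE_t_mem (h : PtE D a B x e n) (P : MvPolynomial (Fin 5) Ω) (hP : RatP B P)
    (j b c : Fin 5) :
    TRatE_t x (fun p r => T2 (ds D) x e P (rr x 0 p) (rr x 0 r)) j b c ∈ B := by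
  classical
  refine rat_maxE h.frame x 0 h.one (P.support.image (fun m => coeff m P)) ?_ _ (2 * 5) ?_
  · intro y hy
    obtain ⟨m, -, rfl⟩ := Finset.mem_image.1 hy
    exact hP m
  · intro O Δ hΔ hs m hm hxm
    have hcP : ∀ mm, Δ * coeff mm P ∈ O := by
      intro mm
      by_cases h : coeff mm P = 0
      · rw [h, mul_zero]
        exact zero_mem O
      · exact hs _ (Finset.mem_image.2 ⟨mm, mem_support_iff.2 h, rfl⟩)
    obtain ⟨x', hx'⟩ : ∃ x' : Fin 5 → Ω, x' = fun l => x l / x m := ⟨_, rfl⟩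
    have hxm' : ∀ l, x' l ∈ O := fun l => by
      rw [hx']
      exact hxm l
    have hrr : ∀ b i, rr x' m b i ∈ O := by
      intro b i
      simp only [rr]
      refine sub_mem (mul_mem (hxm' m) ?_) (mul_mem (hxm' b) ?_)
      · split_ifs
        · exact one_mem O
        · exact zero_mem O
      · split_ifs
        · exact one_mem O
        · exact zero_mem O
    have hv : ∀ b l, Δ ^ 2 * dl (ds D) x' P (rr x' m b) l ∈ O := fun b =>
      dv_bdd (ds D) x' O Δ (ds_bdd hΔ) hxm' _ 1 (trat_coeff_mul O Δ P hcP _ (hrr b))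
    have hw : ∀ l, Δ ^ 2 * dv (ds D) x' (X m ^ q) l ∈ O := fun l => by
      have h1 := dv_bdd (ds D) x' O Δ (ds_bdd hΔ) hxm' (X m ^ q) 0 (trat_coeff_pow O Δ m q) l
      have h2 : Δ ^ 2 * dv (ds D) x' (X m ^ q) l =
          Δ * (Δ ^ (0 + 1) * dv (ds D) x' (X m ^ q) l) := by
        ring
      rw [h2]
      exact mul_mem hΔ.1 h1
    have he : ∀ l, Δ ^ 2 * D none (x' l) ∈ O := fun l => by
      rw [pow_two, mul_assoc]
      exact mul_mem hΔ.1 (hΔ.2 none _ (hxm' l))
    have hbd : ∀ b c, Δ ^ (2 * 5) * TRatE_t x (fun p r =>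
        T2 (ds D) x e P (rr x 0 p) (rr x 0 r)) m b c ∈ O := by
      intro b c
      rw [TRatE_sc h x' m hm hx' P b c, pow_mul]
      refine trat_det_bdd O (Δ ^ 2) _ fun i l => ?_
      fin_cases i
      · exact mul_mem (pow_mem hΔ.1 2) (hxm' l)
      · exact he l
      · exact hw l
      · exact hv b l
      · exact hv c l
    exact TRatE_step O x m hm hxm _ _ _ _ _ j b c (TRatE_rel x _ m j b c)
      (hbd b c) (hbd j c) (hbd j b)

theorem t_ratE (h : PtE D a B x e n) (P : MvPolynomial (Fin 5) Ω) (hP : RatP B P)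
    (j b c : Fin 5) :
    x j * T2 (ds D) x e P (rr x 0 b) (rr x 0 c) - x b * T2 (ds D) x e P (rr x 0 j) (rr x 0 c) +
      x c * T2 (ds D) x e P (rr x 0 j) (rr x 0 b) ∈ B :=
  TRatE_t_mem h P hP j b c

/-- the case `j = 0` -/
theorem t_ratE0 (h : PtE D a B x e n) (P : MvPolynomial (Fin 5) Ω) (hP : RatP B P)
    (b c : Fin 5) : T2 (ds D) x e P (rr x 0 b) (rr x 0 c) ∈ B := by
  have h1 := t_ratE h P hP 0 b c
  have hz : ∀ l, T2 (ds D) x e P (rr x 0 0) l = 0 := fun l => by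
    have e : rr x 0 0 = (0 : Ω) • (0 : Fin 5 → Ω) + (0 : Ω) • (0 : Fin 5 → Ω) := by
      rw [TRatE_rr_zero, zero_smul, add_zero]
    rw [e, TRatE_left, zero_mul, add_zero]
  simp only [h.one, one_mul, hz, mul_zero, sub_zero, add_zero] at h1
  exact h1

end Pool.Agent.Helper10.Q46
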